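import Mathlib

/-! Hypercontractivity for polynomials in independent signs, even moments. -/

set_option autoImplicit false

namespace Pool.Agent.T9h23.Li
open Finset

lemma choose_two (r : ℕ) (i : ℕ) (hi : i ≤ r) : ((2 * r).choose (2 * i) : ℝ) ≤ (r.choose i : ℝ) * (2 * r - 1) ^ i := by
  induction i with
  | zero => simp
  | succ i ih =>
    have ih' := ih (by omega)
    have hr : (i : ℝ) + 1 ≤ r := by exact_mod_cast hi
    have h1 : ((2 * r).choose (2 * i + 1) : ℝ) * (2 * i + 1) = (2 * r).choose (2 * i) * (2 * r - 2 * i) := by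
      have := Nat.choose_succ_right_eq (2 * r) (2 * i)
      have h2 : (((2 * r).choose (2 * i + 1) * (2 * i + 1) : ℕ) : ℝ) = (((2 * r).choose (2 * i) * (2 * r - 2 * i) : ℕ) : ℝ) := by
        exact_mod_cast this
      rw [Nat.cast_mul, Nat.cast_mul, Nat.cast_sub (by omega)] at h2
      push_cast at h2
      exact h2
    have h3 : ((2 * r).choose (2 * (i + 1)) : ℝ) * (2 * i + 2) = (2 * r).choose (2 * i + 1) * (2 * r - 2 * i - 1) := by
      have := Nat.choose_succ_right_eq (2 * r) (2 * i + 1)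
      have h2 : (((2 * r).choose (2 * i + 1 + 1) * (2 * i + 1 + 1) : ℕ) : ℝ) = (((2 * r).choose (2 * i + 1) * (2 * r - (2 * i + 1)) : ℕ) : ℝ) := by
        exact_mod_cast this
      rw [Nat.cast_mul, Nat.cast_mul, Nat.cast_sub (by omega)] at h2
      push_cast at h2
      have e : 2 * (i + 1) = 2 * i + 1 + 1 := by ring
      rw [e]
      linarith
    have h4 : (r.choose (i + 1) : ℝ) * (i + 1) = r.choose i * (r - i) := by
      have := Nat.choose_succ_right_eq r i
      have h2 : ((r.choose (i + 1) * (i + 1) : ℕ) : ℝ) = ((r.choose i * (r - i) : ℕ) : ℝ) := by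
        exact_mod_cast this
      rw [Nat.cast_mul, Nat.cast_mul, Nat.cast_sub (by omega)] at h2
      push_cast at h2
      exact h2
    have hi0 : (0 : ℝ) ≤ i := Nat.cast_nonneg i
    -- multiply everything by `(2 i + 1) (i + 1)`
    have h5 : ((2 * r).choose (2 * (i + 1)) : ℝ) * ((2 * i + 1) * (i + 1)) =
        (2 * r).choose (2 * i) * ((r - i) * (2 * r - 2 * i - 1)) := by
      have : ((2 * r).choose (2 * (i + 1)) : ℝ) * (2 * i + 2) * (2 * i + 1) =
          (2 * r).choose (2 * i) * (2 * r - 2 * i) * (2 * r - 2 * i - 1) := by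
        rw [h3, ← h1]; ring
      linarith
    have h6 : (r.choose (i + 1) : ℝ) * (2 * r - 1) ^ (i + 1) * ((2 * i + 1) * (i + 1)) =
        ((r.choose i : ℝ) * (2 * r - 1) ^ i) * ((r - i) * ((2 * r - 1) * (2 * i + 1))) := by
      calc (r.choose (i + 1) : ℝ) * (2 * r - 1) ^ (i + 1) * ((2 * i + 1) * (i + 1))
          = ((r.choose (i + 1) : ℝ) * (i + 1)) * ((2 * r - 1) ^ (i + 1) * (2 * i + 1)) := by ring
        _ = _ := by rw [h4, pow_succ]; ring
    have h7 : (2 * (r : ℝ) - 2 * i - 1) ≤ (2 * r - 1) * (2 * i + 1) := by nlinarith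
    have h8 : (0 : ℝ) ≤ r - i := by linarith
    have h9 : (0 : ℝ) ≤ 2 * (r : ℝ) - 2 * i - 1 := by linarith
    have h10 : (0 : ℝ) < (2 * i + 1) * (i + 1) := by positivity
    refine le_of_mul_le_mul_right ?_ h10
    rw [h5, h6]
    exact mul_le_mul ih' (mul_le_mul_of_nonneg_left h7 h8) (mul_nonneg h8 h9)
      (le_trans (Nat.cast_nonneg _) ih')

lemma sum_even_odd (g : ℕ → ℝ) (r : ℕ) :
    ∑ m ∈ range (2 * r + 1), g m = ∑ i ∈ range (r + 1), g (2 * i) + ∑ i ∈ range r, g (2 * i + 1) := by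
  induction r with
  | zero => simp
  | succ r ih =>
    have e : 2 * (r + 1) + 1 = (2 * r + 1) + 1 + 1 := by ring
    rw [e, sum_range_succ, sum_range_succ, ih, sum_range_succ (fun i => g (2 * i)) (r + 1), sum_range_succ (fun i => g (2 * i + 1)) r]
    have e2 : 2 * (r + 1) = 2 * r + 1 + 1 := by ring
    rw [e2]
    ring

/-- the two point inequality -/
lemma two_point (r : ℕ) (hr : 1 ≤ r) (a b : ℝ) :
    (a + b) ^ (2 * r) + (a - b) ^ (2 * r) ≤ 2 * (a ^ 2 + (2 * r - 1) * b ^ 2) ^ r := by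
  have hr' : (1 : ℝ) ≤ r := by exact_mod_cast hr
  have h1 : (a + b) ^ (2 * r) = ∑ m ∈ range (2 * r + 1), b ^ m * a ^ (2 * r - m) * ((2 * r).choose m : ℝ) := by
    rw [add_comm, add_pow]
  have h2 : (a - b) ^ (2 * r) = ∑ m ∈ range (2 * r + 1), (-b) ^ m * a ^ (2 * r - m) * ((2 * r).choose m : ℝ) := by
    rw [sub_eq_add_neg, add_comm, add_pow]
  have h3 : (a + b) ^ (2 * r) + (a - b) ^ (2 * r) =
      ∑ i ∈ range (r + 1), 2 * (((2 * r).choose (2 * i) : ℝ) * ((b ^ 2) ^ i * (a ^ 2) ^ (r - i))) := by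
    rw [h1, h2, sum_even_odd, sum_even_odd]
    have e1 : ∑ i ∈ range r, b ^ (2 * i + 1) * a ^ (2 * r - (2 * i + 1)) * ((2 * r).choose (2 * i + 1) : ℝ) +
        ∑ i ∈ range r, (-b) ^ (2 * i + 1) * a ^ (2 * r - (2 * i + 1)) * ((2 * r).choose (2 * i + 1) : ℝ) = 0 := by
      rw [← sum_add_distrib]
      apply sum_eq_zero
      intro i _
      have : (-b) ^ (2 * i + 1) = -b ^ (2 * i + 1) := Odd.neg_pow ⟨i, rfl⟩ b
      rw [this]; ring
    have e2 : ∀ i ∈ range (r + 1), b ^ (2 * i) * a ^ (2 * r - 2 * i) * ((2 * r).choose (2 * i) : ℝ) +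
        (-b) ^ (2 * i) * a ^ (2 * r - 2 * i) * ((2 * r).choose (2 * i) : ℝ) =
        2 * (((2 * r).choose (2 * i) : ℝ) * ((b ^ 2) ^ i * (a ^ 2) ^ (r - i))) := by
      intro i _
      have e3 : (-b) ^ (2 * i) = b ^ (2 * i) := Even.neg_pow ⟨i, by ring⟩ b
      have e4 : 2 * r - 2 * i = 2 * (r - i) := by omega
      rw [e3, e4, pow_mul b 2 i, pow_mul a 2 (r - i)]
      ring
    rw [← sum_congr rfl e2, sum_add_distrib]
    linarith
  have h4 : (a ^ 2 + (2 * r - 1) * b ^ 2) ^ r =
      ∑ i ∈ range (r + 1), ((2 * r - 1) * b ^ 2) ^ i * (a ^ 2) ^ (r - i) * (r.choose i : ℝ) := by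
    rw [add_comm, add_pow]
  rw [h3, h4, mul_sum]
  apply sum_le_sum
  intro i hi
  rw [mem_range] at hi
  apply mul_le_mul_of_nonneg_left _ (by norm_num)
  have h5 := choose_two r i (by omega)
  calc ((2 * r).choose (2 * i) : ℝ) * ((b ^ 2) ^ i * (a ^ 2) ^ (r - i))
      ≤ ((r.choose i : ℝ) * (2 * r - 1) ^ i) * ((b ^ 2) ^ i * (a ^ 2) ^ (r - i)) :=
        mul_le_mul_of_nonneg_right h5 (by positivity)
    _ = _ := by rw [mul_pow]; ring

/-- Minkowski's inequality for powers -/
lemma mink {ι : Type*} (s : Finset ι) (X Y : ι → ℝ) (hX : ∀ i ∈ s, 0 ≤ X i) (hY : ∀ i ∈ s, 0 ≤ Y i) (r : ℕ) (hr : 1 ≤ r)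
    (x y N : ℝ) (hx : 0 ≤ x) (hy : 0 ≤ y) (h1 : ∑ i ∈ s, X i ^ r ≤ N * x ^ r) (h2 : ∑ i ∈ s, Y i ^ r ≤ N * y ^ r) :
    ∑ i ∈ s, (X i + Y i) ^ r ≤ N * (x + y) ^ r := by
  rcases hx.eq_or_lt with h | hx0
  · have h3 : ∀ i ∈ s, X i = 0 := by
      intro i hi
      have h4 : ∑ i ∈ s, X i ^ r ≤ 0 := by
        refine h1.trans ?_
        rw [← h, zero_pow (by omega), mul_zero]
      have h5 := (sum_eq_zero_iff_of_nonneg (fun i hi => pow_nonneg (hX i hi) r)).1
        (le_antisymm h4 (sum_nonneg fun i hi => pow_nonneg (hX i hi) r)) i hi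
      exact pow_eq_zero_iff (by omega) |>.1 h5
    rw [← h, zero_add]
    refine le_trans (le_of_eq ?_) h2
    refine sum_congr rfl fun i hi => ?_
    rw [h3 i hi, zero_add]
  rcases hy.eq_or_lt with h | hy0
  · have h3 : ∀ i ∈ s, Y i = 0 := by
      intro i hi
      have h4 : ∑ i ∈ s, Y i ^ r ≤ 0 := by
        refine h2.trans ?_
        rw [← h, zero_pow (by omega), mul_zero]
      have h5 := (sum_eq_zero_iff_of_nonneg (fun i hi => pow_nonneg (hY i hi) r)).1
        (le_antisymm h4 (sum_nonneg fun i hi => pow_nonneg (hY i hi) r)) i hi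
      exact pow_eq_zero_iff (by omega) |>.1 h5
    rw [← h, add_zero]
    refine le_trans (le_of_eq ?_) h1
    refine sum_congr rfl fun i hi => ?_
    rw [h3 i hi, add_zero]
  have hxy : 0 < x + y := by linarith
  have key : ∀ i ∈ s, (X i + Y i) ^ r ≤ (x + y) ^ r * (x / (x + y) * (X i ^ r / x ^ r) + y / (x + y) * (Y i ^ r / y ^ r)) := by
    intro i hi
    have hconv := (convexOn_pow r).2 (show X i / x ∈ Set.Ici 0 from div_nonneg (hX i hi) hx) (show Y i / y ∈ Set.Ici 0 from div_nonneg (hY i hi) hy)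
      (div_nonneg hx hxy.le) (div_nonneg hy hxy.le) (by field_simp)
    simp only [smul_eq_mul] at hconv
    have e1 : x / (x + y) * (X i / x) + y / (x + y) * (Y i / y) = (X i + Y i) / (x + y) := by field_simp
    rw [e1, div_pow, div_pow, div_pow, div_le_iff₀ (by positivity)] at hconv
    linarith
  refine (sum_le_sum key).trans ?_
  rw [← mul_sum, sum_add_distrib, ← mul_sum, ← mul_sum, ← sum_div, ← sum_div]
  have h3 : (∑ i ∈ s, X i ^ r) / x ^ r ≤ N := by rw [div_le_iff₀ (by positivity)]; exact h1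
  have h4 : (∑ i ∈ s, Y i ^ r) / y ^ r ≤ N := by rw [div_le_iff₀ (by positivity)]; exact h2
  have h5 : x / (x + y) * ((∑ i ∈ s, X i ^ r) / x ^ r) + y / (x + y) * ((∑ i ∈ s, Y i ^ r) / y ^ r) ≤ N := by
    calc _ ≤ x / (x + y) * N + y / (x + y) * N := by
          apply add_le_add
          · exact mul_le_mul_of_nonneg_left h3 (by positivity)
          · exact mul_le_mul_of_nonneg_left h4 (by positivity)
      _ = N := by field_simp
  calc _ ≤ (x + y) ^ r * N := mul_le_mul_of_nonneg_left h5 (by positivity)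
    _ = _ := by ring

variable {α : Type*} [DecidableEq α]

/-- the value of the character `S` at the point `T` -/
def sg (S T : Finset α) : ℝ := (-1) ^ (S ∩ T).card

/-- the sets of at most `k` elements -/
def Sk (M : Finset α) (k : ℕ) : Finset (Finset α) := M.powerset.filter (fun S => S.card ≤ k)

/-- the polynomial with coefficients `w` -/
def Qw (M : Finset α) (k : ℕ) (w : Finset α → ℝ) (T : Finset α) : ℝ := ∑ S ∈ Sk M k, w S * sg S T

lemma sum_Sk_insert {m : α} {M : Finset α} (hm : m ∉ M) (k : ℕ) (g : Finset α → ℝ) :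
    ∑ S ∈ Sk (insert m M) (k + 1), g S = ∑ S ∈ Sk M (k + 1), g S + ∑ S ∈ Sk M k, g (insert m S) := by
  unfold Sk
  rw [sum_filter, sum_powerset_insert hm, sum_filter, sum_filter]
  congr 1
  refine sum_congr rfl fun S hS => ?_
  rw [mem_powerset] at hS
  rw [card_insert_of_notMem (fun h => hm (hS h))]
  by_cases h : S.card ≤ k
  · rw [if_pos (by omega), if_pos h]
  · rw [if_neg (by omega), if_neg h]

omit [DecidableEq α] in
lemma sum_Sk_zero {M : Finset α} (g : Finset α → ℝ) :
    ∑ S ∈ Sk M 0, g S = g ∅ := by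
  have : Sk M 0 = {∅} := by
    ext S
    unfold Sk
    rw [mem_filter, mem_powerset, mem_singleton, Nat.le_zero, card_eq_zero]
    constructor
    · exact fun h => h.2
    · intro h; rw [h]; exact ⟨empty_subset _, rfl⟩
  rw [this, sum_singleton]

lemma sg_not {m : α} {S T : Finset α} (h : m ∉ T) : sg (insert m S) T = sg S T := by
  unfold sg
  rw [insert_inter_of_notMem h]

lemma sg_not' {m : α} {S T : Finset α} (h : m ∉ S) : sg S (insert m T) = sg S T := by
  unfold sg
  rw [inter_insert_of_notMem h]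

lemma sg_both {m : α} {S T : Finset α} (h : m ∉ S) : sg (insert m S) (insert m T) = - sg S T := by
  unfold sg
  have h1 : insert m S ∩ insert m T = insert m (S ∩ T) := (insert_inter_distrib S T m).symm
  rw [h1, card_insert_of_notMem (fun h2 => h (mem_inter.1 h2).1), pow_succ]
  ring

/-- **Bonami's lemma** for even moments. -/
theorem bonami (r : ℕ) (hr : 1 ≤ r) (M : Finset α) : ∀ (k : ℕ) (w : Finset α → ℝ),
    ∑ T ∈ M.powerset, Qw M k w T ^ (2 * r) ≤ 2 ^ M.card * (((2 * r - 1 : ℝ)) ^ k * ∑ S ∈ Sk M k, w S ^ 2) ^ r := by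
  have hr' : (1 : ℝ) ≤ r := by exact_mod_cast hr
  induction M using Finset.induction_on with
  | empty =>
    intro k w
    have h1 : Sk (∅ : Finset α) k = {∅} := by
      ext S
      unfold Sk
      rw [mem_filter, mem_powerset, mem_singleton, subset_empty]
      constructor
      · exact fun h => h.1
      · intro h; rw [h]; exact ⟨rfl, by simp⟩
    unfold Qw
    rw [powerset_empty, sum_singleton, h1, sum_singleton, sum_singleton]
    have h2 : sg (∅ : Finset α) ∅ = 1 := by simp [sg]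
    rw [h2, mul_one, card_empty, pow_zero, one_mul, mul_pow, pow_mul]
    have h3 : (1 : ℝ) ≤ ((2 * r - 1 : ℝ) ^ k) ^ r := one_le_pow₀ (one_le_pow₀ (by linarith))
    have h4 : 0 ≤ (w ∅ ^ 2) ^ r := by positivity
    nlinarith
  | insert m M hm ih =>
    intro k w
    rcases Nat.eq_zero_or_pos k with h0 | hk
    · subst h0
      unfold Qw
      simp only [sum_Sk_zero]
      have h2 : ∀ T : Finset α, sg (∅ : Finset α) T = 1 := by intro T; simp [sg]
      simp only [h2, mul_one, pow_zero, one_mul]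
      rw [sum_const, card_powerset, nsmul_eq_mul, pow_mul]
      push_cast
      exact le_rfl
    · obtain ⟨k, rfl⟩ : ∃ k', k = k' + 1 := ⟨k - 1, by omega⟩
      obtain ⟨w', hw'⟩ : ∃ w' : Finset α → ℝ, w' = fun S => w (insert m S) := ⟨_, rfl⟩
      have hQ1 : ∀ T ∈ M.powerset, Qw (insert m M) (k + 1) w T = Qw M (k + 1) w T + Qw M k w' T := by
        intro T hT
        rw [mem_powerset] at hT
        unfold Qw
        rw [sum_Sk_insert hm, hw']
        congr 1
        refine sum_congr rfl fun S _ => ?_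
        rw [sg_not (fun h => hm (hT h))]
      have hQ2 : ∀ T ∈ M.powerset, Qw (insert m M) (k + 1) w (insert m T) = Qw M (k + 1) w T - Qw M k w' T := by
        intro T hT
        rw [mem_powerset] at hT
        unfold Qw
        rw [sum_Sk_insert hm, hw', sub_eq_add_neg, ← sum_neg_distrib]
        congr 1
        · refine sum_congr rfl fun S hS => ?_
          unfold Sk at hS
          rw [mem_filter, mem_powerset] at hS
          rw [sg_not' (fun h => hm (hS.1 h))]
        · refine sum_congr rfl fun S hS => ?_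
          unfold Sk at hS
          rw [mem_filter, mem_powerset] at hS
          rw [sg_both (fun h => hm (hS.1 h))]
          ring
      have e0 : ∑ T ∈ M.powerset, Qw (insert m M) (k + 1) w T ^ (2 * r) + ∑ T ∈ M.powerset, Qw (insert m M) (k + 1) w (insert m T) ^ (2 * r) =
          ∑ T ∈ M.powerset, ((Qw M (k + 1) w T + Qw M k w' T) ^ (2 * r) + (Qw M (k + 1) w T - Qw M k w' T) ^ (2 * r)) := by
        rw [← sum_add_distrib]
        exact sum_congr rfl (fun T hT => by rw [hQ1 T hT, hQ2 T hT])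
      rw [sum_powerset_insert hm, e0]
      refine (sum_le_sum fun T _ => two_point r hr (Qw M (k + 1) w T) (Qw M k w' T)).trans ?_
      rw [← mul_sum]
      have i1 := ih (k + 1) w
      have i2 := ih k w'
      have h3 := mink M.powerset (fun T => Qw M (k + 1) w T ^ 2) (fun T => (2 * r - 1) * Qw M k w' T ^ 2)
        (fun T _ => by positivity) (fun T _ => mul_nonneg (by linarith) (by positivity)) r hr
        ((2 * r - 1 : ℝ) ^ (k + 1) * ∑ S ∈ Sk M (k + 1), w S ^ 2) ((2 * r - 1 : ℝ) * ((2 * r - 1) ^ k * ∑ S ∈ Sk M k, w' S ^ 2))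
        (2 ^ M.card) (mul_nonneg (pow_nonneg (by linarith) _) (sum_nonneg fun _ _ => by positivity))
        (mul_nonneg (by linarith) (mul_nonneg (pow_nonneg (by linarith) _) (sum_nonneg fun _ _ => by positivity)))
        (by
          refine le_trans (le_of_eq ?_) i1
          refine sum_congr rfl fun T _ => ?_
          rw [← pow_mul])
        (by
          have e1 : ∀ T ∈ M.powerset, ((2 * r - 1) * Qw M k w' T ^ 2) ^ r = (2 * r - 1) ^ r * Qw M k w' T ^ (2 * r) := by
            intro T _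
            rw [mul_pow, ← pow_mul]
          rw [sum_congr rfl e1, ← mul_sum, mul_pow (2 * (r : ℝ) - 1)]
          calc (2 * (r : ℝ) - 1) ^ r * ∑ T ∈ M.powerset, Qw M k w' T ^ (2 * r)
              ≤ (2 * (r : ℝ) - 1) ^ r * (2 ^ M.card * ((2 * r - 1 : ℝ) ^ k * ∑ S ∈ Sk M k, w' S ^ 2) ^ r) :=
                mul_le_mul_of_nonneg_left i2 (pow_nonneg (by linarith) _)
            _ = _ := by ring)
      calc 2 * ∑ T ∈ M.powerset, (Qw M (k + 1) w T ^ 2 + (2 * r - 1) * Qw M k w' T ^ 2) ^ r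
          ≤ 2 * (2 ^ M.card * ((2 * r - 1 : ℝ) ^ (k + 1) * ∑ S ∈ Sk M (k + 1), w S ^ 2 +
            (2 * r - 1 : ℝ) * ((2 * r - 1) ^ k * ∑ S ∈ Sk M k, w' S ^ 2)) ^ r) := by linarith
        _ = _ := by
            rw [card_insert_of_notMem hm, sum_Sk_insert hm, hw', pow_succ (2 : ℝ)]
            rw [← mul_assoc, mul_comm (2 : ℝ) (2 ^ M.card)]
            congr 2
            ring

end Pool.Agent.T9h23.Li
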