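import Mathlib
import Pool.Agent.T9h23.Li.B1

/-! Moments of polynomials in almost independent signs. -/

set_option autoImplicit false

namespace Pool.Agent.T9h23.Li
open Finset

lemma pow_expand {ι : Type*} (I : Finset ι) (g : ι → ℝ) (n : ℕ) :
    (∑ i ∈ I, g i) ^ n = ∑ v ∈ Fintype.piFinset (fun _ : Fin n => I), ∏ l, g (v l) := by
  have h := Finset.prod_univ_sum (fun _ : Fin n => I) (fun (_ : Fin n) (i : ι) => g i)
  rw [← h, prod_const, card_univ, Fintype.card_fin]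

variable {α : Type*} [DecidableEq α]

/-- orthogonality of the characters -/
lemma sg_orth {n : ℕ} (M : Finset α) (S : Fin n → Finset α) (hS : ∀ l, S l ⊆ M) :
    ∑ T ∈ M.powerset, ∏ l, sg (S l) T = if ∀ m ∈ M, Even (univ.filter (fun l => m ∈ S l)).card then (2 : ℝ) ^ M.card else 0 := by
  have h1 : ∀ T ∈ M.powerset, ∏ l, sg (S l) T = ∏ m ∈ T, (-1 : ℝ) ^ (univ.filter (fun l => m ∈ S l)).card := by
    intro T _
    unfold sg
    rw [prod_pow_eq_pow_sum, prod_pow_eq_pow_sum]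
    congr 1
    have e1 : ∀ l, (S l ∩ T).card = ∑ m ∈ T, if m ∈ S l then 1 else 0 := by
      intro l
      rw [inter_comm, ← filter_mem_eq_inter, card_filter]
    rw [sum_congr rfl (fun l _ => e1 l), sum_comm]
    refine sum_congr rfl fun m _ => ?_
    rw [card_filter]
  rw [sum_congr rfl h1, ← prod_add_one]
  split_ifs with h
  · rw [← prod_const]
    refine prod_congr rfl fun m hm => ?_
    rw [Even.neg_one_pow (h m hm)]
    norm_num
  · push Not at h
    obtain ⟨m, hm, hodd⟩ := h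
    apply prod_eq_zero hm
    rw [Odd.neg_one_pow (Nat.not_even_iff_odd.1 hodd)]
    norm_num

theorem mom_abs {Ω ι : Type*} (Om : Finset Ω) (X : α → Ω → ℝ) (hX : ∀ m, ∀ f ∈ Om, |X m f| ≤ 1) (I : Finset ι) (S : ι → Finset α)
    (k R : ℕ) (hR : 1 ≤ R) (hk : ∀ i ∈ I, (S i).card ≤ k) (η : ℝ) (hη : 0 ≤ η)
    (hodd : ∀ v : Fin (2 * R) → ι, (∀ l, v l ∈ I) → (∃ m, ¬ Even (univ.filter (fun l => m ∈ S (v l))).card) →
      |∑ f ∈ Om, ∏ l, ∏ m ∈ S (v l), X m f| ≤ η)
    (c : ι → ℝ) (K : ℝ) (hK : ∀ i ∈ I, ((I.filter (fun j => S j = S i)).card : ℝ) ≤ K) :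
    ∑ f ∈ Om, (∑ i ∈ I, c i * ∏ m ∈ S i, X m f) ^ (2 * R) ≤
      Om.card * ((2 * R - 1 : ℝ) ^ k * (K * ∑ i ∈ I, c i ^ 2)) ^ R + (∑ i ∈ I, |c i|) ^ (2 * R) * η := by
  have hR' : (1 : ℝ) ≤ R := by exact_mod_cast hR
  obtain ⟨M, hM⟩ : ∃ M, M = I.biUnion S := ⟨_, rfl⟩
  have hSM : ∀ i ∈ I, S i ⊆ M := by
    intro i hi
    rw [hM]
    exact subset_biUnion_of_mem S hi
  have hO : (0 : ℝ) ≤ Om.card := Nat.cast_nonneg _
  -- expansion
  have e1 : ∑ f ∈ Om, (∑ i ∈ I, c i * ∏ m ∈ S i, X m f) ^ (2 * R) =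
      ∑ v ∈ Fintype.piFinset (fun _ : Fin (2 * R) => I), (∏ l, c (v l)) * ∑ f ∈ Om, ∏ l, ∏ m ∈ S (v l), X m f := by
    rw [sum_congr rfl (fun f _ => pow_expand I (fun i => c i * ∏ m ∈ S i, X m f) (2 * R)), sum_comm]
    refine sum_congr rfl fun v _ => ?_
    rw [mul_sum]
    refine sum_congr rfl fun f _ => ?_
    rw [prod_mul_distrib]
  have hterm : ∀ v ∈ Fintype.piFinset (fun _ : Fin (2 * R) => I),
      (∏ l, c (v l)) * ∑ f ∈ Om, ∏ l, ∏ m ∈ S (v l), X m f ≤
      (∏ l, |c (v l)|) * (Om.card * ((2 ^ M.card)⁻¹ * ∑ T ∈ M.powerset, ∏ l, sg (S (v l)) T)) + (∏ l, |c (v l)|) * η := by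
    intro v hv
    rw [Fintype.mem_piFinset] at hv
    have hc0 : 0 ≤ ∏ l, |c (v l)| := prod_nonneg fun _ _ => abs_nonneg _
    rw [sg_orth M (fun l => S (v l)) (fun l => hSM _ (hv l)), ← mul_add]
    refine (le_abs_self _).trans ?_
    rw [abs_mul, abs_prod]
    apply mul_le_mul_of_nonneg_left _ hc0
    split_ifs with h
    · rw [inv_mul_cancel₀ (by positivity), mul_one]
      have h1 : |∑ f ∈ Om, ∏ l, ∏ m ∈ S (v l), X m f| ≤ Om.card := by
        refine (abs_sum_le_sum_abs _ _).trans ?_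
        calc ∑ f ∈ Om, |∏ l, ∏ m ∈ S (v l), X m f| ≤ ∑ _f ∈ Om, (1 : ℝ) := by
              apply sum_le_sum
              intro f hf
              rw [abs_prod]
              apply prod_le_one (fun _ _ => abs_nonneg _)
              intro l _
              rw [abs_prod]
              exact prod_le_one (fun _ _ => abs_nonneg _) fun m _ => hX m f hf
          _ = _ := by simp
      linarith
    · push Not at h
      obtain ⟨m, _, hm⟩ := h
      have := hodd v hv ⟨m, hm⟩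
      simpa using this
  rw [e1]
  refine (sum_le_sum hterm).trans ?_
  rw [sum_add_distrib, ← sum_mul, ← pow_expand I (fun i => |c i|) (2 * R)]
  apply add_le_add _ le_rfl
  -- the weights of the sets
  obtain ⟨w, hw⟩ : ∃ w : Finset α → ℝ, w = fun s => ∑ i ∈ I.filter (fun i => S i = s), |c i| := ⟨_, rfl⟩
  have hQ : ∀ T, ∑ i ∈ I, |c i| * sg (S i) T = Qw M k w T := by
    intro T
    unfold Qw
    have hmap : ∀ i ∈ I, S i ∈ Sk M k := by
      intro i hi
      unfold Sk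
      rw [mem_filter, mem_powerset]
      exact ⟨hSM i hi, hk i hi⟩
    rw [← sum_fiberwise_of_maps_to hmap]
    refine sum_congr rfl fun s _ => ?_
    rw [hw]
    simp only
    rw [sum_mul]
    refine sum_congr rfl fun i hi => ?_
    rw [(mem_filter.1 hi).2]
  have e2 : ∑ v ∈ Fintype.piFinset (fun _ : Fin (2 * R) => I),
      (∏ l, |c (v l)|) * (Om.card * ((2 ^ M.card)⁻¹ * ∑ T ∈ M.powerset, ∏ l, sg (S (v l)) T)) =
      Om.card * ((2 ^ M.card)⁻¹ * ∑ T ∈ M.powerset, Qw M k w T ^ (2 * R)) := by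
    have e3 : ∀ T ∈ M.powerset, Qw M k w T ^ (2 * R) =
        ∑ v ∈ Fintype.piFinset (fun _ : Fin (2 * R) => I), (∏ l, |c (v l)|) * ∏ l, sg (S (v l)) T := by
      intro T _
      rw [← hQ, pow_expand]
      refine sum_congr rfl fun v _ => ?_
      rw [prod_mul_distrib]
    rw [sum_congr rfl e3, sum_comm, mul_sum, mul_sum]
    refine sum_congr rfl fun v _ => ?_
    rw [← mul_sum]
    ring
  rw [e2]
  apply mul_le_mul_of_nonneg_left _ hO
  have h3 := bonami R hR M k w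
  rw [inv_mul_le_iff₀ (by positivity)]
  refine h3.trans ?_
  apply mul_le_mul_of_nonneg_left _ (by positivity)
  have hp : (0 : ℝ) ≤ (2 * R - 1 : ℝ) ^ k := pow_nonneg (by linarith) _
  apply pow_le_pow_left₀ (mul_nonneg hp (sum_nonneg fun _ _ => by positivity))
  apply mul_le_mul_of_nonneg_left _ hp
  -- the square sum
  have hmap : ∀ i ∈ I, S i ∈ Sk M k := by
    intro i hi
    unfold Sk
    rw [mem_filter, mem_powerset]
    exact ⟨hSM i hi, hk i hi⟩
  rw [mul_sum, ← sum_fiberwise_of_maps_to hmap]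
  apply sum_le_sum
  intro s _
  rw [hw]
  simp only
  rw [← mul_sum]
  rcases (I.filter (fun i => S i = s)).eq_empty_or_nonempty with h | h
  · rw [h]; simp
  · obtain ⟨i, hi⟩ := h
    rw [mem_filter] at hi
    have h4 := hK i hi.1
    rw [hi.2] at h4
    have h5 := sq_sum_le_card_mul_sum_sq (s := I.filter (fun i => S i = s)) (f := fun i => |c i|)
    refine h5.trans ?_
    simp only [sq_abs]
    apply mul_le_mul_of_nonneg_right h4
    exact sum_nonneg fun _ _ => by positivity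

end Pool.Agent.T9h23.Li
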