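import Mathlib
import Pool.Agent.T9h23.Cor.Corr3

/-! Correlations at `2 d + 1` points of a random polynomial of degree `d`, one factor being a bounded function with
small exponential sums. -/

set_option autoImplicit false

namespace Pool.Agent.T9h23.Li
open Finset Polynomial
open Pool.Agent.H807R2.Dav
open Pool.Agent.H373R2.T7
open Pool.Agent.T9h23.Cor

/-- The double sum over the shifts. -/
lemma doubleH (h : ℤ → ℝ) (X M : ℕ) (Δ K : ℝ) (hK : 0 ≤ K)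
    (hΔ : ∀ θ : ℝ, ‖∑ u ∈ Icc (-(X : ℤ)) X, ((h u : ℝ) : ℂ) * ee ((u : ℝ) * θ)‖ ≤ Δ)
    (c α β : ℤ) (hα : α ≠ 0) (hβ : β ≠ 0) (V U : ℕ → ℝ)
    (hV : ∀ a ∈ Icc 1 M, |V a| ≤ K) (hU : ∀ a ∈ Icc 1 M, |U a| ≤ K)
    (hb : ∀ a ∈ Icc 1 M, ∀ b ∈ Icc 1 M, |c + α * (a : ℤ) + β * (b : ℤ)| ≤ X) :
    |∑ a ∈ Icc 1 M, ∑ b ∈ Icc 1 M, V a * U b * h (c + α * (a : ℤ) + β * (b : ℤ))| ≤
      Δ * (M * K ^ 2) := by
  have h0 := bil X M (fun u => ((h u : ℝ) : ℂ)) Δ hΔ c α β hα hβ (fun a => (V a : ℂ)) (fun a => (U a : ℂ)) hb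
  have h1 : ‖∑ a ∈ Icc 1 M, ∑ b ∈ Icc 1 M, (V a : ℂ) * (U b : ℂ) *
      ((h (c + α * (a : ℤ) + β * (b : ℤ)) : ℝ) : ℂ)‖ =
      |∑ a ∈ Icc 1 M, ∑ b ∈ Icc 1 M, V a * U b *
        h (c + α * (a : ℤ) + β * (b : ℤ))| := by
    rw [← Real.norm_eq_abs, ← Complex.norm_real]
    congr 1
    push_cast
    rfl
  rw [← h1]
  refine h0.trans ?_
  have hΔ0 : 0 ≤ Δ := (norm_nonneg _).trans (hΔ 0)
  apply mul_le_mul_of_nonneg_left _ hΔ0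
  have h2 : ∀ W : ℕ → ℝ, (∀ a ∈ Icc 1 M, |W a| ≤ K) → √(∑ a ∈ Icc 1 M, ‖(W a : ℂ)‖ ^ 2) ≤ √(M : ℝ) * K := by
    intro W hW
    have h3 : ∑ a ∈ Icc 1 M, ‖(W a : ℂ)‖ ^ 2 ≤ M * K ^ 2 := by
      have h4 : ∀ a ∈ Icc 1 M, ‖(W a : ℂ)‖ ^ 2 ≤ K ^ 2 := by
        intro a ha
        rw [Complex.norm_real, Real.norm_eq_abs]
        exact pow_le_pow_left₀ (abs_nonneg _) (hW a ha) 2
      refine (sum_le_sum h4).trans (le_of_eq ?_)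
      rw [sum_const, Nat.card_Icc, nsmul_eq_mul, Nat.add_sub_cancel]
    refine (Real.sqrt_le_sqrt h3).trans (le_of_eq ?_)
    rw [Real.sqrt_mul (Nat.cast_nonneg M), Real.sqrt_sq hK]
  calc √(∑ a ∈ Icc 1 M, ‖(V a : ℂ)‖ ^ 2) * √(∑ a ∈ Icc 1 M, ‖(U a : ℂ)‖ ^ 2) ≤ (√(M : ℝ) * K) * (√(M : ℝ) * K) :=
        mul_le_mul (h2 V hV) (h2 U hU) (Real.sqrt_nonneg _) (by positivity)
    _ = (√(M : ℝ) * √(M : ℝ)) * K ^ 2 := by ring
    _ = M * K ^ 2 := by rw [Real.mul_self_sqrt (Nat.cast_nonneg M)]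

/-- the product of the factors -/
noncomputable def Psh {n : ℕ} (h : ℤ → ℝ) (P : ℤ → ℤ) (t0 : ℤ) (S T : Finset ℤ) (F : ℤ → ℤ → ℝ) (f : Fin n → ℤ) : ℝ :=
  h (fv P f t0) * ((∏ t ∈ S, F t (fv P f t)) * ∏ t ∈ T, F t (fv P f t))

theorem coreH {d : ℕ} (h : ℤ → ℝ) (H M T0 X : ℕ) (hM1 : 1 ≤ M) (K K0 Δ : ℝ) (hK : 0 ≤ K) (P : ℤ → ℤ) (t0 : ℤ) (S T : Finset ℤ)
    (hS : S.card ≤ d) (hT : T.card ≤ d) (h0S : t0 ∉ S) (h0T : t0 ∉ T)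
    (hS0 : ∀ s ∈ S, |s| ≤ (T0 : ℤ)) (hT0 : ∀ s ∈ T, |s| ≤ (T0 : ℤ)) (F : ℤ → ℤ → ℝ)
    (hM : 2 * M * (1 + T0) ^ d ≤ H)
    (hX : ∀ f : Fin (d + 1) → ℤ, (∀ i, |f i| ≤ 2 * (H : ℤ)) → |fv P f t0| ≤ X)
    (hFS : ∀ f : Fin (d + 1) → ℤ, (∀ i, |f i| ≤ 2 * (H : ℤ)) → |∏ t ∈ S, F t (fv P f t)| ≤ K)
    (hFT : ∀ f : Fin (d + 1) → ℤ, (∀ i, |f i| ≤ 2 * (H : ℤ)) → |∏ t ∈ T, F t (fv P f t)| ≤ K)
    (hL : ∀ f : Fin (d + 1) → ℤ, (∀ i, |f i| ≤ 2 * (H : ℤ)) → |h (fv P f t0)| ≤ K0)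
    (hΔ : ∀ θ : ℝ, ‖∑ u ∈ Icc (-(X : ℤ)) X, ((h u : ℝ) : ℂ) * ee ((u : ℝ) * θ)‖ ≤ Δ) :
    |∑ f ∈ Box (d + 1) H, Psh h P t0 S T F f| ≤
      (2 * H + 1) ^ (d + 1) * (Δ * K ^ 2) / M + 2 * (K0 * K ^ 2) * ((d + 1) * (2 * M * (1 + T0) ^ d)) * (2 * H + 1) ^ d := by
  have hsv : ∀ a b : ℕ, a ≤ M → b ≤ M → ∀ i, |sv d S T a b i| ≤ (H : ℤ) := by
    intro a b ha hb i
    refine (sv_le hS hT T0 hS0 hT0 M a b ha hb i).trans ?_
    exact_mod_cast hM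
  have hBB : ∀ f : Fin (d + 1) → ℤ, (∀ i, |f i| ≤ 2 * (H : ℤ)) → |Psh h P t0 S T F f| ≤ K0 * K ^ 2 := by
    intro f hf
    unfold Psh
    rw [abs_mul, abs_mul, pow_two]
    have h1 : 0 ≤ K0 := (abs_nonneg _).trans (hL f hf)
    exact mul_le_mul (hL f hf) (mul_le_mul (hFS f hf) (hFT f hf) (abs_nonneg _) hK) (by positivity) h1
  have hsum : ∀ a b : ℕ, a ≤ M → b ≤ M →
      |∑ f ∈ Box (d + 1) H, Psh h P t0 S T F (f + sv d S T a b) - ∑ f ∈ Box (d + 1) H, Psh h P t0 S T F f| ≤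
      2 * (K0 * K ^ 2) * ((d + 1) * (2 * M * (1 + T0) ^ d)) * (2 * H + 1) ^ d := by
    intro a b ha hb
    refine (shift_sum H (sv d S T a b) (hsv a b ha hb) _ _ hBB).trans ?_
    have h1 : ((∑ i, (sv d S T a b i).natAbs : ℕ) : ℝ) ≤ (d + 1) * (2 * M * (1 + T0) ^ d) := by
      push_cast
      have h2 : ∀ i ∈ (univ : Finset (Fin (d + 1))), (((sv d S T a b i).natAbs : ℕ) : ℝ) ≤ 2 * M * (1 + T0) ^ d := by
        intro i _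
        have h3 := sv_le hS hT T0 hS0 hT0 M a b ha hb i
        rw [Nat.cast_natAbs]
        exact_mod_cast h3
      refine (sum_le_sum h2).trans (le_of_eq ?_)
      rw [sum_const, card_univ, Fintype.card_fin, nsmul_eq_mul]
      push_cast
      ring
    have h4 : 0 ≤ K0 * K ^ 2 := (abs_nonneg _).trans (hBB 0 (fun i => by simp))
    gcongr
  -- the double sum
  have hdouble : ∀ f ∈ Box (d + 1) H, |∑ a ∈ Icc 1 M, ∑ b ∈ Icc 1 M, Psh h P t0 S T F (f + sv d S T a b)| ≤ Δ * (M * K ^ 2) := by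
    intro f hf
    rw [mem_Box] at hf
    have hbig : ∀ a b : ℕ, a ≤ M → b ≤ M → ∀ i, |(f + sv d S T a b) i| ≤ 2 * (H : ℤ) := by
      intro a b ha hb i
      rw [Pi.add_apply]
      have := hsv a b ha hb i
      have := hf i
      exact (abs_add_le _ _).trans (by linarith)
    have h1 := doubleH h X M Δ K hK hΔ (fv P f t0) ((wp S).eval t0) ((wp T).eval t0) (wp_eval_ne h0S) (wp_eval_ne h0T)
      (fun a => ∏ t ∈ T, F t (fv P (f + sv d S T a 0) t)) (fun b => ∏ t ∈ S, F t (fv P (f + sv d S T 0 b) t))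
      (fun a ha => hFT _ (hbig a 0 (mem_Icc.1 ha).2 (Nat.zero_le _)))
      (fun b hb => hFS _ (hbig 0 b (Nat.zero_le _) (mem_Icc.1 hb).2))
      (fun a ha b hb => by
        rw [← fv_sv hS hT]
        exact hX _ (hbig a b (mem_Icc.1 ha).2 (mem_Icc.1 hb).2))
    refine le_trans (le_of_eq ?_) h1
    congr 1
    refine sum_congr rfl fun a _ => sum_congr rfl fun b _ => ?_
    unfold Psh
    have e1 : ∀ t ∈ T, F t (fv P (f + sv d S T a b) t) = F t (fv P (f + sv d S T a 0) t) := by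
      intro t ht
      rw [fv_sv hS hT, fv_sv hS hT, wp_eval_mem ht]
      simp
    have e2 : ∀ t ∈ S, F t (fv P (f + sv d S T a b) t) = F t (fv P (f + sv d S T 0 b) t) := by
      intro t ht
      rw [fv_sv hS hT, fv_sv hS hT, wp_eval_mem ht]
      simp
    rw [prod_congr rfl e1, prod_congr rfl e2, fv_sv hS hT P f a b t0]
    ring
  have hM0 : (0 : ℝ) < M := by exact_mod_cast hM1
  -- combine
  have hcomb : (M : ℝ) ^ 2 * |∑ f ∈ Box (d + 1) H, Psh h P t0 S T F f| ≤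
      (2 * H + 1) ^ (d + 1) * (Δ * (M * K ^ 2)) +
        (M : ℝ) ^ 2 * (2 * (K0 * K ^ 2) * ((d + 1) * (2 * M * (1 + T0) ^ d)) * (2 * H + 1) ^ d) := by
    have h1 : (M : ℝ) ^ 2 * ∑ f ∈ Box (d + 1) H, Psh h P t0 S T F f =
        ∑ a ∈ Icc 1 M, ∑ b ∈ Icc 1 M, ∑ f ∈ Box (d + 1) H, Psh h P t0 S T F f := by
      rw [sum_const, sum_const, Nat.card_Icc, Nat.add_sub_cancel, nsmul_eq_mul, nsmul_eq_mul]
      ring
    have h2 : (M : ℝ) ^ 2 * ∑ f ∈ Box (d + 1) H, Psh h P t0 S T F f =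
        ∑ f ∈ Box (d + 1) H, ∑ a ∈ Icc 1 M, ∑ b ∈ Icc 1 M, Psh h P t0 S T F (f + sv d S T a b) -
        ∑ a ∈ Icc 1 M, ∑ b ∈ Icc 1 M, (∑ f ∈ Box (d + 1) H, Psh h P t0 S T F (f + sv d S T a b) -
          ∑ f ∈ Box (d + 1) H, Psh h P t0 S T F f) := by
      rw [h1]
      simp only [sum_sub_distrib]
      have h3 : ∑ f ∈ Box (d + 1) H, ∑ a ∈ Icc 1 M, ∑ b ∈ Icc 1 M, Psh h P t0 S T F (f + sv d S T a b) =
          ∑ a ∈ Icc 1 M, ∑ b ∈ Icc 1 M, ∑ f ∈ Box (d + 1) H, Psh h P t0 S T F (f + sv d S T a b) := by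
        rw [sum_comm]
        refine sum_congr rfl fun a _ => ?_
        rw [sum_comm]
      rw [h3]
      ring
    have h4 : (M : ℝ) ^ 2 * |∑ f ∈ Box (d + 1) H, Psh h P t0 S T F f| =
        |(M : ℝ) ^ 2 * ∑ f ∈ Box (d + 1) H, Psh h P t0 S T F f| := by
      rw [abs_mul, abs_of_nonneg (by positivity : (0 : ℝ) ≤ (M : ℝ) ^ 2)]
    rw [h4, h2]
    refine (abs_sub _ _).trans (add_le_add ?_ ?_)
    · refine (abs_sum_le_sum_abs _ _).trans ((sum_le_sum hdouble).trans (le_of_eq ?_))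
      rw [sum_const, card_Box, nsmul_eq_mul]
      push_cast
      ring
    · refine (abs_sum_le_sum_abs _ _).trans ?_
      have h5 : ∀ a ∈ Icc 1 M, |∑ b ∈ Icc 1 M, (∑ f ∈ Box (d + 1) H, Psh h P t0 S T F (f + sv d S T a b) -
          ∑ f ∈ Box (d + 1) H, Psh h P t0 S T F f)| ≤
          M * (2 * (K0 * K ^ 2) * ((d + 1) * (2 * M * (1 + T0) ^ d)) * (2 * H + 1) ^ d) := by
        intro a ha
        refine (abs_sum_le_sum_abs _ _).trans ?_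
        refine (sum_le_sum fun b hb => hsum a b (mem_Icc.1 ha).2 (mem_Icc.1 hb).2).trans (le_of_eq ?_)
        rw [sum_const, Nat.card_Icc, Nat.add_sub_cancel, nsmul_eq_mul]
      refine (sum_le_sum h5).trans (le_of_eq ?_)
      rw [sum_const, Nat.card_Icc, Nat.add_sub_cancel, nsmul_eq_mul]
      ring
  have hM2 : (0 : ℝ) < (M : ℝ) ^ 2 := by positivity
  have h6 : (M : ℝ) ^ 2 * |∑ f ∈ Box (d + 1) H, Psh h P t0 S T F f| ≤ (M : ℝ) ^ 2 *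
      ((2 * H + 1) ^ (d + 1) * (Δ * K ^ 2) / M + 2 * (K0 * K ^ 2) * ((d + 1) * (2 * M * (1 + T0) ^ d)) * (2 * H + 1) ^ d) := by
    refine hcomb.trans (le_of_eq ?_)
    field_simp
  exact le_of_mul_le_mul_left h6 hM2


end Pool.Agent.T9h23.Li
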