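import Mathlib
import Pool.Agent.T9h23.Li.C1
import Pool.Agent.H373R2.T7.SupLiou

/-! Correlations at `2 d + 1` points of a random polynomial of degree `d`, one factor being the Liouville function. -/

set_option autoImplicit false

namespace Pool.Agent.T9h23.Li
open Finset Polynomial
open Pool.Agent.H807R2.Dav
open Pool.Agent.H373R2.T7
open Pool.Agent.T9h23.Cor

/-- the exponential sums over symmetric intervals are small -/
def SS (h : ℤ → ℝ) : Prop := ∀ U : ℕ, ∃ N0 : ℕ, ∀ N : ℕ, N0 ≤ N → ∀ α : ℝ,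
  ‖∑ u ∈ Icc (-(N : ℤ)) N, ((h u : ℝ) : ℂ) * ee ((u : ℝ) * α)‖ ≤ 2 * (N / Real.log N ^ U)

/-- the Liouville function of the absolute value, `0` at `0` -/
noncomputable def lam (u : ℤ) : ℝ := if u = 0 then 0 else (-1) ^ ArithmeticFunction.cardFactors u.natAbs

lemma lam_abs (u : ℤ) : |lam u| ≤ 1 := by
  unfold lam
  split_ifs
  · simp
  · rw [abs_pow, abs_neg, abs_one, one_pow]

lemma SS_lam : SS lam := by
  intro U
  obtain ⟨N0, h0⟩ := sup_liou U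
  refine ⟨N0, fun N hN α => ?_⟩
  have h3 := h0 N hN
  rw [sum_sym]
  have e1 : ((lam 0 : ℝ) : ℂ) * ee (((0 : ℤ) : ℝ) * α) = 0 := by simp [lam]
  rw [e1, zero_add]
  have e2 : ∑ n ∈ Icc 1 N, ((lam ((n : ℕ) : ℤ) : ℝ) : ℂ) * ee ((((n : ℕ) : ℤ) : ℝ) * α) =
      ∑ n ∈ Icc 1 N, liR n * ee ((n : ℝ) * α) := by
    refine sum_congr rfl fun n hn => ?_
    rw [mem_Icc] at hn
    unfold lam liR
    rw [if_neg (by omega), Int.natAbs_natCast]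
    push_cast
    rfl
  have e3 : ∑ n ∈ Icc 1 N, ((lam (-((n : ℕ) : ℤ)) : ℝ) : ℂ) * ee (((-((n : ℕ) : ℤ) : ℤ) : ℝ) * α) =
      ∑ n ∈ Icc 1 N, liR n * ee ((n : ℝ) * (-α)) := by
    refine sum_congr rfl fun n hn => ?_
    rw [mem_Icc] at hn
    have : ((-((n : ℕ) : ℤ) : ℤ) : ℝ) * α = (n : ℝ) * (-α) := by push_cast; ring
    rw [this]
    unfold lam liR
    rw [if_neg (by omega), Int.natAbs_neg, Int.natAbs_natCast]
    push_cast
    rfl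
  rw [e2, e3]
  refine (norm_add_le _ _).trans ?_
  have := h3 α
  have := h3 (-α)
  linarith

theorem corr_h (h : ℤ → ℝ) (hb : ∀ u, |h u| ≤ 1) (hs : SS h) (d A B1 U : ℕ) : ∃ H0 : ℕ, ∀ H : ℕ, H0 ≤ H →
    ∀ (T0 : ℕ) (P : ℤ → ℤ), (T0 : ℝ) ≤ Real.log H ^ A → (∀ t : ℤ, |t| ≤ T0 → |(P t : ℝ)| ≤ H * Real.log H ^ A) →
    ∀ (R : Finset ℤ) (t0 : ℤ), t0 ∉ R → R.card ≤ 2 * d → |t0| ≤ T0 → (∀ t ∈ R, |t| ≤ T0) →
    ∀ F : ℤ → ℤ → ℝ, (∀ t ∈ R, ∀ u : ℤ, |u| ≤ (H : ℤ) ^ 2 → |F t u| ≤ Real.log H ^ B1) →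
    |∑ f ∈ Box (d + 1) H, h (fv P f t0) * ∏ t ∈ R, F t (fv P f t)| ≤
      (2 * H + 1) ^ (d + 1) / Real.log H ^ U := by
  classical
  obtain ⟨C2, hC2⟩ : ∃ C, C = A * d + A + 1 := ⟨_, rfl⟩
  obtain ⟨C1, hC1⟩ : ∃ C, C = 2 * (B1 * d) + (A + 1) * d + U + 2 := ⟨_, rfl⟩
  obtain ⟨U', hU'⟩ : ∃ C, C = C2 + C1 + 2 * (B1 * d) + U + 1 := ⟨_, rfl⟩
  obtain ⟨N0, h0⟩ := hs U'
  obtain ⟨N2, h2⟩ := ev_L' (max 16 (24 * ((d : ℝ) + 1)))
  obtain ⟨N3, h3⟩ := ev_log' C2 4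
  obtain ⟨N4, h4⟩ := ev_log' C1 2
  refine ⟨max N0 (max (max N2 N3) (max N4 4)), fun H hH T0 P hT0 hP R t0 ht0 hR ht0T hRT F hF => ?_⟩
  have hN0 : N0 ≤ H := (le_max_left _ _).trans hH
  have hN2 : N2 ≤ H := (((le_max_left _ _).trans (le_max_left _ _)).trans (le_max_right _ _)).trans hH
  have hN3 : N3 ≤ H := (((le_max_right _ _).trans (le_max_left _ _)).trans (le_max_right _ _)).trans hH
  have hN4 : N4 ≤ H := (((le_max_left _ _).trans (le_max_right _ _)).trans (le_max_right _ _)).trans hH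
  have hH4 : 4 ≤ H := (((le_max_right _ _).trans (le_max_right _ _)).trans (le_max_right _ _)).trans hH
  have hHr : (4 : ℝ) ≤ H := by exact_mod_cast hH4
  have hH0 : (0 : ℝ) < H := by linarith
  have hsq : √(H : ℝ) ≤ H := by
    rw [Real.sqrt_le_left hH0.le]; nlinarith
  obtain ⟨L, hLd⟩ : ∃ L, L = Real.log H := ⟨_, rfl⟩
  rw [← hLd] at hT0 hP hF ⊢
  have hLm := h2 H hN2
  rw [← hLd] at hLm
  have hL16 : 16 ≤ L := (le_max_left _ _).trans hLm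
  have hL24 : 24 * ((d : ℝ) + 1) ≤ L := (le_max_right _ _).trans hLm
  have hL0 : 0 < L := by linarith
  have hL1 : 1 ≤ L := by linarith
  have h3' := (h3 H hN3).trans hsq
  have h4' := (h4 H hN4).trans hsq
  rw [← hLd] at h3' h4'
  have hd0 : (0 : ℝ) ≤ d := Nat.cast_nonneg d
  have hL2d : (2 * d + 3 : ℝ) ≤ L := by linarith
  -- `X`
  obtain ⟨X, hXd⟩ : ∃ X : ℕ, X = ⌈(H : ℝ) * L ^ C2⌉₊ := ⟨_, rfl⟩
  have hLC2 : 1 ≤ L ^ C2 := one_le_pow₀ hL1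
  have hX1 : (H : ℝ) * L ^ C2 ≤ X := by rw [hXd]; exact Nat.le_ceil _
  have hX2 : (X : ℝ) ≤ H * L ^ C2 + 1 := by rw [hXd]; exact (Nat.ceil_lt_add_one (by positivity)).le
  have hX3 : (X : ℝ) ≤ 2 * (H * L ^ C2) := by nlinarith
  have hX4 : (X : ℝ) ≤ H ^ 2 := by
    have : 2 * (H * L ^ C2) ≤ (H : ℝ) * H := by nlinarith
    nlinarith
  have hXH : (H : ℝ) ≤ X := by nlinarith
  have hXHn : H ≤ X := by exact_mod_cast hXH
  have hlog1 : L ≤ Real.log X := by rw [hLd]; exact Real.log_le_log hH0 hXH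
  have hlog2 : Real.log X ≤ 2 * L := by
    have : Real.log X ≤ Real.log ((H : ℝ) ^ 2) := Real.log_le_log (by linarith) hX4
    rw [Real.log_pow, ← hLd] at this
    exact_mod_cast this
  have hsup := h0 X (hN0.trans hXHn)
  -- `M`
  obtain ⟨M, hMd⟩ : ∃ M : ℕ, M = ⌊(H : ℝ) / L ^ C1⌋₊ := ⟨_, rfl⟩
  have hLC1 : 0 < L ^ C1 := by positivity
  have hx2 : 2 ≤ (H : ℝ) / L ^ C1 := by
    rw [le_div_iff₀ hLC1]; exact h4'
  have hM1 : (M : ℝ) ≤ H / L ^ C1 := by rw [hMd]; exact Nat.floor_le (by positivity)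
  have hM2 : (H : ℝ) / L ^ C1 < M + 1 := by rw [hMd]; exact Nat.lt_floor_add_one _
  have hMpos : (1 : ℝ) < M + 1 - 0 := by linarith
  have hM1' : 1 ≤ M := by
    by_contra hcon
    have : M = 0 := by omega
    rw [this] at hM2
    push_cast at hM2
    linarith
  have hMr : (1 : ℝ) ≤ M := by exact_mod_cast hM1'
  have hM3 : (H : ℝ) / L ^ C1 ≤ 2 * M := by linarith
  have hT1 : (1 + (T0 : ℝ)) ^ d ≤ L ^ ((A + 1) * d) := by
    have h5 : 1 + (T0 : ℝ) ≤ L ^ (A + 1) := by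
      have h6 : 1 ≤ L ^ A := one_le_pow₀ hL1
      calc 1 + (T0 : ℝ) ≤ L ^ A + L ^ A := by linarith
        _ = 2 * L ^ A := by ring
        _ ≤ L * L ^ A := by gcongr; linarith
        _ = L ^ (A + 1) := by rw [pow_succ]; ring
    calc (1 + (T0 : ℝ)) ^ d ≤ (L ^ (A + 1)) ^ d := pow_le_pow_left₀ (by positivity) h5 _
      _ = L ^ ((A + 1) * d) := (pow_mul _ _ _).symm
  have hMH : 2 * M * (1 + T0) ^ d ≤ H := by
    have h5 : 2 * (M : ℝ) * (1 + T0) ^ d ≤ H := by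
      calc 2 * (M : ℝ) * (1 + T0) ^ d ≤ 2 * (H / L ^ C1) * L ^ ((A + 1) * d) := by gcongr
        _ = H * (2 * L ^ ((A + 1) * d) / L ^ C1) := by ring
        _ ≤ H * 1 := by
            apply mul_le_mul_of_nonneg_left _ hH0.le
            rw [div_le_one hLC1]
            calc 2 * L ^ ((A + 1) * d) ≤ L * L ^ ((A + 1) * d) := by gcongr; linarith
              _ = L ^ ((A + 1) * d + 1) := by rw [pow_succ]; ring
              _ ≤ L ^ C1 := pow_le_pow_right₀ hL1 (by omega)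
        _ = H := mul_one _
    exact_mod_cast h5
  -- values
  have hval : ∀ f : Fin (d + 1) → ℤ, (∀ i, |f i| ≤ 2 * (H : ℤ)) → ∀ t : ℤ, |t| ≤ T0 → |((fv P f t : ℤ) : ℝ)| ≤ H * L ^ C2 := by
    intro f hf t ht
    rw [hC2]
    exact fv_le H L A hL2d T0 hT0 P hP f hf t ht
  have hvalX : ∀ f : Fin (d + 1) → ℤ, (∀ i, |f i| ≤ 2 * (H : ℤ)) → ∀ t : ℤ, |t| ≤ T0 → |fv P f t| ≤ X := by
    intro f hf t ht
    have h5 := (hval f hf t ht).trans hX1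
    have h6 : ((|fv P f t| : ℤ) : ℝ) ≤ ((X : ℤ) : ℝ) := by push_cast; exact h5
    exact_mod_cast h6
  have hvalH : ∀ f : Fin (d + 1) → ℤ, (∀ i, |f i| ≤ 2 * (H : ℤ)) → ∀ t : ℤ, |t| ≤ T0 → |fv P f t| ≤ (H : ℤ) ^ 2 := by
    intro f hf t ht
    have h5 := ((hval f hf t ht).trans hX1).trans hX4
    have h6 : ((|fv P f t| : ℤ) : ℝ) ≤ (((H : ℤ) ^ 2 : ℤ) : ℝ) := by push_cast; exact h5
    exact_mod_cast h6
  obtain ⟨S, T, hS, hT, hSc, hTc, hprod⟩ := split_set R d hR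
  have hpb : ∀ S' : Finset ℤ, S' ⊆ R → S'.card ≤ d → ∀ f : Fin (d + 1) → ℤ, (∀ i, |f i| ≤ 2 * (H : ℤ)) →
      |∏ t ∈ S', F t (fv P f t)| ≤ L ^ (B1 * d) := by
    intro S' hS' hc f hf
    exact prod_bound hL1 B1 d hc fun t ht => hF t (hS' ht) _ (hvalH f hf t (hRT t (hS' ht)))
  have hLam : ∀ f : Fin (d + 1) → ℤ, (∀ i, |f i| ≤ 2 * (H : ℤ)) → |h (fv P f t0)| ≤ 3 * L := by
    intro f _
    exact (hb _).trans (by linarith)
  have hmain := coreH h H M T0 X hM1' (L ^ (B1 * d)) (3 * L) (2 * (X / Real.log X ^ U')) (by positivity) P t0 S T hSc hTc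
    (fun h' => ht0 (hS h')) (fun h' => ht0 (hT h')) (fun s hs => hRT s (hS hs)) (fun s hs => hRT s (hT hs)) F hMH
    (fun f hf => hvalX f hf t0 ht0T) (hpb S hS hSc) (hpb T hT hTc) hLam hsup
  have hPs : ∀ f ∈ Box (d + 1) H, h (fv P f t0) * ∏ t ∈ R, F t (fv P f t) = Psh h P t0 S T F f := by
    intro f _
    unfold Psh
    rw [hprod]
  rw [sum_congr rfl hPs]
  refine hmain.trans ?_
  refine num (H : ℝ) M L X (X / Real.log X ^ U') (L ^ (B1 * d)) T0 d C1 C2 B1 U U' ((A + 1) * d) hL16 hL24 hH0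
    (by linarith) hM1 hM3 hX3 ?_ rfl hT1 (Nat.cast_nonneg _) hC1 hU'
  gcongr


end Pool.Agent.T9h23.Li
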