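import Mathlib
import Pool.Agent.T9h23.Li.C2
import Pool.Agent.T9h23.Li.B2
import Pool.Agent.T9h23.Cor.Sys

/-! High moments of sums of products of the Liouville function at the values of random polynomials. -/

set_option autoImplicit false

namespace Pool.Agent.T9h23.Li
open Finset Polynomial
open Pool.Agent.H807R2.Dav
open Pool.Agent.H373R2.T7
open Pool.Agent.T9h23.Cor

lemma lam_cases (u : ℤ) : lam u = 0 ∨ lam u = 1 ∨ lam u = -1 := by
  unfold lam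
  split_ifs
  · exact Or.inl rfl
  · exact Or.inr (neg_one_pow_eq_or ℝ _)

lemma lam_odd (u : ℤ) {a : ℕ} (ha : ¬ Even a) : lam u ^ a = lam u := by
  obtain ⟨b, rfl⟩ := Nat.not_even_iff_odd.1 ha
  rcases lam_cases u with h | h | h
  · rw [h, zero_pow (by omega)]
  · rw [h, one_pow]
  · rw [h, Odd.neg_one_pow ⟨b, rfl⟩]

/-- the value at the point `p` -/
noncomputable def Xp {r : ℕ} {dd : Fin r → ℕ} (P : Fin r → ℤ → ℤ) (p : Fin r × ℤ) (f : (j : Fin r) → (Fin (dd j + 1) → ℤ)) : ℝ :=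
  lam (fv (P p.1) (f p.1) p.2)

/-- the points of `M` for the index `j` -/
def Pj {r : ℕ} (M : Finset (Fin r × ℤ)) (j : Fin r) : Finset ℤ := (M.filter (fun p => p.1 = j)).image (fun p => p.2)

lemma mem_Pj {r : ℕ} {M : Finset (Fin r × ℤ)} {j : Fin r} {t : ℤ} : t ∈ Pj M j ↔ (j, t) ∈ M := by
  unfold Pj
  rw [mem_image]
  constructor
  · rintro ⟨p, hp, rfl⟩
    rw [mem_filter] at hp
    rw [← hp.2]
    exact hp.1
  · intro h
    exact ⟨(j, t), by rw [mem_filter]; exact ⟨h, rfl⟩, rfl⟩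

lemma prod_Pj {r : ℕ} (M : Finset (Fin r × ℤ)) (G : Fin r × ℤ → ℝ) : ∏ p ∈ M, G p = ∏ j, ∏ t ∈ Pj M j, G (j, t) := by
  rw [← prod_fiberwise M (fun p => p.1)]
  refine prod_congr rfl fun j _ => ?_
  unfold Pj
  rw [prod_image]
  · refine prod_congr rfl fun p hp => ?_
    rw [← (mem_filter.1 hp).2]
  · intro p hp q hq h
    rw [mem_coe, mem_filter] at hp hq
    exact Prod.ext (hp.2.trans hq.2.symm) h

theorem odd_corr (r : ℕ) (dd : Fin r → ℕ) (R A U : ℕ) : ∃ H0 : ℕ, ∀ H : ℕ, H0 ≤ H →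
    ∀ (T0 : ℕ) (P : Fin r → ℤ → ℤ), (T0 : ℝ) ≤ Real.log H ^ A → (∀ j, ∀ t : ℤ, |t| ≤ T0 → |(P j t : ℝ)| ≤ H * Real.log H ^ A) →
    ∀ S : Fin (2 * R) → Finset (Fin r × ℤ), (∀ l j, R * (Pj (S l) j).card ≤ dd j) → (∀ l, ∀ p ∈ S l, |p.2| ≤ (T0 : ℤ)) →
    (∃ m, ¬ Even (univ.filter (fun l => m ∈ S l)).card) →
    |∑ f ∈ Om dd H, ∏ l, ∏ p ∈ S l, Xp P p f| ≤ NN dd H / Real.log H ^ U := by
  classical
  choose n0 h0 using fun j => corr_h lam lam_abs SS_lam (dd j) A 0 U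
  obtain ⟨n1, h1⟩ := ev_L' 1
  refine ⟨max (∑ j, n0 j) n1, fun H hH T0 P hT0 hP S hS1 hS2 hm => ?_⟩
  have hn0 : ∑ j, n0 j ≤ H := (le_max_left _ _).trans hH
  have hL1 := h1 H ((le_max_right _ _).trans hH)
  obtain ⟨m, hm⟩ := hm
  obtain ⟨M, hM⟩ : ∃ M : Finset (Fin r × ℤ), M = univ.biUnion S := ⟨_, rfl⟩
  obtain ⟨a, ha⟩ : ∃ a : Fin r × ℤ → ℕ, a = fun p => (univ.filter (fun l => p ∈ S l)).card := ⟨_, rfl⟩
  have hmM : m ∈ M := by
    rw [hM, mem_biUnion]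
    by_contra hcon
    push Not at hcon
    apply hm
    have : univ.filter (fun l => m ∈ S l) = ∅ := by
      apply filter_eq_empty_iff.2
      intro l _
      exact hcon l (mem_univ l)
    rw [this]
    simp
  have e1 : ∀ f ∈ Om dd H, ∏ l, ∏ p ∈ S l, Xp P p f = ∏ j, ∏ t ∈ Pj M j, lam (fv (P j) (f j) t) ^ a (j, t) := by
    intro f _
    have e2 : ∀ l, ∏ p ∈ S l, Xp P p f = ∏ p ∈ M, if p ∈ S l then Xp P p f else 1 := by
      intro l
      rw [prod_ite_mem, inter_eq_right.2]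
      rw [hM]
      exact subset_biUnion_of_mem S (mem_univ l)
    rw [prod_congr rfl (fun l _ => e2 l), prod_comm, prod_Pj]
    refine prod_congr rfl fun j _ => prod_congr rfl fun t _ => ?_
    rw [prod_ite, prod_const_one, mul_one, prod_const, ha]
    rfl
  rw [sum_congr rfl e1, sum_Om dd H (fun j g => ∏ t ∈ Pj M j, lam (fv (P j) g t) ^ a (j, t)), abs_prod]
  have hcard : ∀ j, (Pj M j).card ≤ 2 * dd j := by
    intro j
    have h2 : Pj M j ⊆ univ.biUnion (fun l => Pj (S l) j) := by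
      intro t ht
      rw [mem_Pj, hM, mem_biUnion] at ht
      obtain ⟨l, hl, h⟩ := ht
      rw [mem_biUnion]
      exact ⟨l, hl, mem_Pj.2 h⟩
    refine (card_le_card h2).trans (card_biUnion_le.trans ?_)
    rcases Nat.eq_zero_or_pos R with hR | hR
    · subst hR
      simp
    · have h3 : R * ∑ l : Fin (2 * R), (Pj (S l) j).card ≤ R * (2 * dd j) := by
        rw [mul_sum]
        calc ∑ l : Fin (2 * R), R * (Pj (S l) j).card ≤ ∑ _l : Fin (2 * R), dd j := sum_le_sum fun l _ => hS1 l j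
          _ = R * (2 * dd j) := by rw [sum_const, card_univ, Fintype.card_fin, smul_eq_mul]; ring
      exact Nat.le_of_mul_le_mul_left h3 hR
  have hT : ∀ j, ∀ t ∈ Pj M j, |t| ≤ (T0 : ℤ) := by
    intro j t ht
    rw [mem_Pj, hM, mem_biUnion] at ht
    obtain ⟨l, _, h⟩ := ht
    exact hS2 l _ h
  have hlam : ∀ (u : ℤ) (b : ℕ), |lam u ^ b| ≤ 1 := fun u b => by
    rw [abs_pow]
    exact pow_le_one₀ (abs_nonneg _) (lam_abs u)
  have htriv : ∀ j, |∑ g ∈ Box (dd j + 1) H, ∏ t ∈ Pj M j, lam (fv (P j) g t) ^ a (j, t)| ≤ (2 * (H : ℝ) + 1) ^ (dd j + 1) := by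
    intro j
    refine (abs_sum_le_sum_abs _ _).trans ?_
    calc ∑ g ∈ Box (dd j + 1) H, |∏ t ∈ Pj M j, lam (fv (P j) g t) ^ a (j, t)| ≤ ∑ _g ∈ Box (dd j + 1) H, (1 : ℝ) := by
          apply sum_le_sum
          intro g _
          rw [abs_prod]
          exact prod_le_one (fun _ _ => abs_nonneg _) fun t _ => hlam _ _
      _ = _ := by
          rw [sum_const, nsmul_eq_mul, card_Box, mul_one]
          push_cast
          rfl
  have hmain : |∑ g ∈ Box (dd m.1 + 1) H, ∏ t ∈ Pj M m.1, lam (fv (P m.1) g t) ^ a (m.1, t)| ≤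
      (2 * (H : ℝ) + 1) ^ (dd m.1 + 1) / Real.log H ^ U := by
    have hm2 : m.2 ∈ Pj M m.1 := mem_Pj.2 hmM
    have hj : n0 m.1 ≤ ∑ j, n0 j := single_le_sum (f := n0) (fun _ _ => Nat.zero_le _) (mem_univ _)
    have h5 := h0 m.1 H (hj.trans hn0) T0 (P m.1) hT0 (hP m.1) ((Pj M m.1).erase m.2) m.2 (notMem_erase _ _)
      ((card_le_card (erase_subset _ _)).trans (hcard m.1)) (hT _ _ hm2) (fun t ht => hT _ _ (mem_of_mem_erase ht))
      (fun t u => lam u ^ a (m.1, t)) (fun t _ u _ => by rw [pow_zero]; exact hlam _ _)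
    refine le_trans (le_of_eq ?_) h5
    congr 1
    refine sum_congr rfl fun g _ => ?_
    rw [← mul_prod_erase _ _ hm2]
    congr 1
    rw [lam_odd]
    rw [ha]
    exact hm
  have h7 : ∏ j, |∑ g ∈ Box (dd j + 1) H, ∏ t ∈ Pj M j, lam (fv (P j) g t) ^ a (j, t)| ≤
      ∏ j, ((2 * (H : ℝ) + 1) ^ (dd j + 1) * if j = m.1 then 1 / Real.log H ^ U else 1) := by
    apply prod_le_prod (fun _ _ => abs_nonneg _)
    intro j _
    split_ifs with h
    · rw [h, mul_one_div]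
      exact hmain
    · rw [mul_one]
      exact htriv j
  refine h7.trans (le_of_eq ?_)
  rw [prod_mul_distrib, prod_ite_eq' univ m.1, if_pos (mem_univ _)]
  unfold NN
  rw [mul_one_div]

/-- **the moments** -/
theorem mom (r : ℕ) (dd : Fin r → ℕ) (R A U : ℕ) (hR : 1 ≤ R) : ∃ H0 : ℕ, ∀ H : ℕ, H0 ≤ H →
    ∀ (T0 : ℕ) (P : Fin r → ℤ → ℤ), (T0 : ℝ) ≤ Real.log H ^ A → (∀ j, ∀ t : ℤ, |t| ≤ T0 → |(P j t : ℝ)| ≤ H * Real.log H ^ A) →
    ∀ (ι : Type) (I : Finset ι) (S : ι → Finset (Fin r × ℤ)), (∀ i ∈ I, ∀ j, R * (Pj (S i) j).card ≤ dd j) →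
    (∀ i ∈ I, ∀ p ∈ S i, |p.2| ≤ (T0 : ℤ)) → ∀ k : ℕ, (∀ i ∈ I, (S i).card ≤ k) → ∀ (c : ι → ℝ) (K : ℝ),
    (∀ i ∈ I, ((I.filter (fun j => S j = S i)).card : ℝ) ≤ K) →
    ∑ f ∈ Om dd H, (∑ i ∈ I, c i * ∏ p ∈ S i, Xp P p f) ^ (2 * R) ≤
      NN dd H * (((2 * R - 1 : ℝ) ^ k * (K * ∑ i ∈ I, c i ^ 2)) ^ R + (∑ i ∈ I, |c i|) ^ (2 * R) / Real.log H ^ U) := by
  classical
  obtain ⟨n0, h0⟩ := odd_corr r dd R A U
  obtain ⟨n1, h1⟩ := ev_L' 1
  refine ⟨max n0 n1, fun H hH T0 P hT0 hP ι I S hS1 hS2 k hk c K hK => ?_⟩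
  have hn0 : n0 ≤ H := (le_max_left _ _).trans hH
  have hL1 := h1 H ((le_max_right _ _).trans hH)
  have hL0 : 0 < Real.log H := by linarith
  have h2 := mom_abs (Om dd H) (fun p f => Xp P p f) (fun p f _ => lam_abs _) I S k R hR hk (NN dd H / Real.log H ^ U)
    (div_nonneg (NN_pos dd H).le (by positivity))
    (fun v hv hm => h0 H hn0 T0 P hT0 hP (fun l => S (v l)) (fun l j => hS1 _ (hv l) j) (fun l p hp => hS2 _ (hv l) p hp) hm)
    c K (fun i hi => by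
      have h3 := hK i hi
      convert h3)
  refine h2.trans (le_of_eq ?_)
  rw [card_Om]
  ring

end Pool.Agent.T9h23.Li
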