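import Mathlib

/-! Sums over initial segments by dyadic intervals. -/

set_option autoImplicit false

namespace Pool.Agent.T9h23.Li
open Finset

lemma chain_aux (a : ℕ → ℝ) (B : ℝ) (m : ℕ) : ∀ q : ℕ,
    (∀ j q' : ℕ, j ≤ m → 2 ^ m * q ≤ 2 ^ j * q' → 2 ^ j * (q' + 1) ≤ 2 ^ m * (q + 1) →
      |∑ n ∈ Ioc (2 ^ j * q') (2 ^ j * (q' + 1)), a n| ≤ B) →
    ∀ y : ℕ, 2 ^ m * q ≤ y → y ≤ 2 ^ m * (q + 1) → |∑ n ∈ Ioc (2 ^ m * q) y, a n| ≤ (m + 1) * B := by
  induction m with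
  | zero =>
    intro q h y hy1 hy2
    have hB := h 0 q le_rfl le_rfl le_rfl
    rw [pow_zero, one_mul] at hy1 hy2 hB
    simp only [pow_zero, one_mul] at hB ⊢
    have hB0 : 0 ≤ B := (abs_nonneg _).trans hB
    push_cast
    rw [zero_add, one_mul]
    rcases Nat.lt_or_ge y (q + 1) with h1 | h1
    · have : y = q := by omega
      rw [this, Ioc_self, sum_empty, abs_zero]
      exact hB0
    · have : y = q + 1 := by omega
      rw [this]
      exact hB
  | succ m ih =>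
    intro q h y hy1 hy2
    have e1 : 2 ^ (m + 1) * q = 2 ^ m * (2 * q) := by ring
    have e2 : 2 ^ (m + 1) * (q + 1) = 2 ^ m * (2 * q + 1 + 1) := by ring
    have hfull := h m (2 * q) (Nat.le_succ _) (le_of_eq e1) (by rw [e2]; exact Nat.mul_le_mul_left _ (by omega))
    have hB0 : 0 ≤ B := (abs_nonneg _).trans hfull
    rcases le_total y (2 ^ m * (2 * q + 1)) with h1 | h1
    · have h2 := ih (2 * q) (fun j q' hj a1 a2 => h j q' (by omega) (by rw [e1]; exact a1)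
        (by rw [e2]; exact a2.trans (Nat.mul_le_mul_left _ (by omega)))) y (by rw [← e1]; exact hy1) h1
      rw [e1]
      refine h2.trans ?_
      push_cast
      nlinarith
    · have h2 := ih (2 * q + 1) (fun j q' hj a1 a2 => h j q' (by omega) (by rw [e1]; exact (Nat.mul_le_mul_left _ (by omega)).trans a1)
        (by rw [e2]; exact a2)) y h1 (by rw [← e2]; exact hy2)
      have e3 : ∑ n ∈ Ioc (2 ^ (m + 1) * q) y, a n =
          ∑ n ∈ Ioc (2 ^ m * (2 * q)) (2 ^ m * (2 * q + 1)), a n + ∑ n ∈ Ioc (2 ^ m * (2 * q + 1)) y, a n := by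
        rw [e1, sum_Ioc_consecutive a (Nat.mul_le_mul_left _ (by omega)) h1]
      rw [e3]
      refine (abs_add_le _ _).trans ((add_le_add hfull h2).trans ?_)
      push_cast
      linarith

lemma chain (a : ℕ → ℝ) (B : ℝ) (m : ℕ)
    (h : ∀ j ≤ m, ∀ q < 2 ^ (m - j), |∑ n ∈ Ioc (2 ^ j * q) (2 ^ j * (q + 1)), a n| ≤ B) (x : ℕ) (hx : x ≤ 2 ^ m) :
    |∑ n ∈ Icc 1 x, a n| ≤ (m + 1) * B := by
  have h1 := chain_aux a B m 0 (fun j q hj _ h2 => h j hj q (by
    have e : 2 ^ m = 2 ^ j * 2 ^ (m - j) := by rw [← pow_add]; congr 1; omega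
    rw [zero_add, mul_one, e] at h2
    have := Nat.le_of_mul_le_mul_left h2 (by positivity)
    omega)) x (by simp) (by simpa using hx)
  have e : Ioc (2 ^ m * 0) x = Icc 1 x := by
    ext n
    rw [mem_Ioc, mem_Icc, mul_zero]
    omega
  rwa [e] at h1

/-- the maximal inequality -/
lemma maximal {Ω : Type*} (Om : Finset Ω) (a : ℕ → Ω → ℝ) (R m : ℕ) (hR : 1 ≤ R) (N C B : ℝ) (hN : 0 ≤ N) (hC : 0 ≤ C) (hB : 0 < B)
    (h : ∀ u v : ℕ, u ≤ v → v ≤ 2 ^ m → ∑ f ∈ Om, (∑ n ∈ Ioc u v, a n f) ^ (2 * R) ≤ N * (C * (v - u : ℝ)) ^ R) :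
    ((open Classical in Om.filter (fun f => ∃ x : ℕ, x ≤ 2 ^ m ∧ (m + 1) * B < |∑ n ∈ Icc 1 x, a n f|)).card : ℝ) ≤
      N * ((m + 1) * (C * 2 ^ m) ^ R / B ^ (2 * R)) := by
  classical
  have hsub : Om.filter (fun f => ∃ x : ℕ, x ≤ 2 ^ m ∧ (m + 1) * B < |∑ n ∈ Icc 1 x, a n f|) ⊆
      (range (m + 1)).biUnion (fun j => (range (2 ^ (m - j))).biUnion (fun q =>
        Om.filter (fun f => B < |∑ n ∈ Ioc (2 ^ j * q) (2 ^ j * (q + 1)), a n f|))) := by
    intro f hf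
    rw [mem_filter] at hf
    obtain ⟨hf, x, hx, hx2⟩ := hf
    by_contra hcon
    apply absurd hx2 (not_lt.2 _)
    apply chain (fun n => a n f) B m _ x hx
    intro j hj q hq
    by_contra hcon2
    apply hcon
    rw [mem_biUnion]
    refine ⟨j, by rw [mem_range]; omega, ?_⟩
    rw [mem_biUnion]
    refine ⟨q, by rw [mem_range]; exact hq, ?_⟩
    rw [mem_filter]
    exact ⟨hf, not_le.1 hcon2⟩
  have hone : ∀ j ∈ range (m + 1), ∀ q ∈ range (2 ^ (m - j)),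
      ((Om.filter (fun f => B < |∑ n ∈ Ioc (2 ^ j * q) (2 ^ j * (q + 1)), a n f|)).card : ℝ) ≤ N * (C * 2 ^ j) ^ R / B ^ (2 * R) := by
    intro j hj q hq
    rw [mem_range] at hj hq
    rw [le_div_iff₀ (by positivity)]
    have hv : 2 ^ j * (q + 1) ≤ 2 ^ m := by
      have e : 2 ^ m = 2 ^ j * 2 ^ (m - j) := by rw [← pow_add]; congr 1; omega
      rw [e]
      exact Nat.mul_le_mul_left _ (by omega)
    have h1 := h (2 ^ j * q) (2 ^ j * (q + 1)) (Nat.mul_le_mul_left _ (by omega)) hv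
    have e2 : (((2 ^ j * (q + 1) : ℕ)) : ℝ) - ((2 ^ j * q : ℕ) : ℝ) = 2 ^ j := by push_cast; ring
    rw [e2] at h1
    refine le_trans ?_ h1
    calc ((Om.filter (fun f => B < |∑ n ∈ Ioc (2 ^ j * q) (2 ^ j * (q + 1)), a n f|)).card : ℝ) * B ^ (2 * R)
        = ∑ _f ∈ Om.filter (fun f => B < |∑ n ∈ Ioc (2 ^ j * q) (2 ^ j * (q + 1)), a n f|), B ^ (2 * R) := by
          rw [sum_const, nsmul_eq_mul]
      _ ≤ ∑ f ∈ Om.filter (fun f => B < |∑ n ∈ Ioc (2 ^ j * q) (2 ^ j * (q + 1)), a n f|),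
          (∑ n ∈ Ioc (2 ^ j * q) (2 ^ j * (q + 1)), a n f) ^ (2 * R) := by
          apply sum_le_sum
          intro f hf
          have h2 := (mem_filter.1 hf).2
          rw [← Even.pow_abs ⟨R, by ring⟩ (∑ n ∈ Ioc (2 ^ j * q) (2 ^ j * (q + 1)), a n f)]
          exact pow_le_pow_left₀ hB.le h2.le _
      _ ≤ _ := by
          apply sum_le_sum_of_subset_of_nonneg (filter_subset _ _)
          intro f _ _
          exact Even.pow_nonneg ⟨R, by ring⟩ _
  have h3 : ((open Classical in Om.filter (fun f => ∃ x : ℕ, x ≤ 2 ^ m ∧ (m + 1) * B < |∑ n ∈ Icc 1 x, a n f|)).card : ℝ) ≤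
      ∑ j ∈ range (m + 1), ∑ q ∈ range (2 ^ (m - j)), N * (C * 2 ^ j) ^ R / B ^ (2 * R) := by
    have h4 := (card_le_card hsub).trans (card_biUnion_le.trans (sum_le_sum fun j _ => card_biUnion_le))
    refine le_trans (Nat.cast_le.2 h4) ?_
    push_cast
    exact sum_le_sum fun j hj => sum_le_sum fun q hq => hone j hj q hq
  refine h3.trans ?_
  have h5 : ∀ j ∈ range (m + 1), ∑ q ∈ range (2 ^ (m - j)), N * (C * 2 ^ j) ^ R / B ^ (2 * R) ≤ N * (C * 2 ^ m) ^ R / B ^ (2 * R) := by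
    intro j hj
    rw [mem_range] at hj
    rw [sum_const, card_range, nsmul_eq_mul]
    push_cast
    have e : (2 : ℝ) ^ m = 2 ^ (m - j) * 2 ^ j := by rw [← pow_add]; congr 1; omega
    have h6 : (2 : ℝ) ^ (m - j) * (2 ^ j) ^ R ≤ (2 ^ m) ^ R := by
      rw [e, mul_pow]
      apply mul_le_mul_of_nonneg_right _ (by positivity)
      exact le_self_pow₀ (one_le_pow₀ (by norm_num)) (by omega)
    rw [mul_pow, mul_pow]
    calc (2 : ℝ) ^ (m - j) * (N * (C ^ R * (2 ^ j) ^ R) / B ^ (2 * R)) = (N * C ^ R / B ^ (2 * R)) * (2 ^ (m - j) * (2 ^ j) ^ R) := by ring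
      _ ≤ (N * C ^ R / B ^ (2 * R)) * (2 ^ m) ^ R := mul_le_mul_of_nonneg_left h6 (by positivity)
      _ = _ := by ring
  refine (sum_le_sum h5).trans (le_of_eq ?_)
  rw [sum_const, card_range, nsmul_eq_mul]
  push_cast
  ring

end Pool.Agent.T9h23.Li
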