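import Mathlib
import Pool.Agent.T9h23.Li.C3
import Pool.Agent.T9h23.Li.D1
import Pool.Agent.T9h23.BH.A2

/-! Moments of the sums of the Liouville function at the values of systems of compositions. -/

set_option autoImplicit false

namespace Pool.Agent.T9h23.Li
open Finset Polynomial
open Pool.Agent.H373R2.T7
open Pool.Agent.T9h23.Cor
open Pool.Agent.T9h23.BH

/-- the points for `n` -/
noncomputable def Sn {r : ℕ} (G : Fin r → Finset ℤ[X]) (n : ℕ) : Finset (Fin r × ℤ) :=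
  univ.biUnion (fun j => (TT G n j).image (fun t => (j, t)))

lemma mem_Sn {r : ℕ} {G : Fin r → Finset ℤ[X]} {n : ℕ} {p : Fin r × ℤ} : p ∈ Sn G n ↔ p.2 ∈ TT G n p.1 := by
  unfold Sn
  rw [mem_biUnion]
  constructor
  · rintro ⟨j, _, h⟩
    rw [mem_image] at h
    obtain ⟨t, ht, rfl⟩ := h
    exact ht
  · intro h
    exact ⟨p.1, mem_univ _, by rw [mem_image]; exact ⟨p.2, h, rfl⟩⟩

lemma Pj_Sn {r : ℕ} (G : Fin r → Finset ℤ[X]) (n : ℕ) (j : Fin r) : Pj (Sn G n) j = TT G n j := by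
  ext t
  rw [mem_Pj, mem_Sn]

lemma card_Sn {r : ℕ} (G : Fin r → Finset ℤ[X]) (n : ℕ) : (Sn G n).card ≤ ∑ j, (G j).card := by
  unfold Sn
  refine card_biUnion_le.trans (sum_le_sum fun j _ => ?_)
  exact card_image_le.trans (card_TT G n j)

lemma prod_Sn {r : ℕ} {dd : Fin r → ℕ} (G : Fin r → Finset ℤ[X]) (n : ℕ) (P : Fin r → ℤ → ℤ) (f : (j : Fin r) → (Fin (dd j + 1) → ℤ)) :
    ∏ p ∈ Sn G n, Xp P p f = MM lam P f (TT G n) := by
  rw [prod_Pj]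
  unfold MM
  refine prod_congr rfl fun j _ => ?_
  rw [Pj_Sn]
  rfl

/-- the constant of the moment bound -/
noncomputable def KC {r : ℕ} (dd : Fin r → ℕ) (D R : ℕ) : ℝ := (2 * R - 1 : ℝ) ^ (∑ j, dd j) * CG dd D + 1

lemma KC_one {r : ℕ} (dd : Fin r → ℕ) (D R : ℕ) (hR : 1 ≤ R) : 1 ≤ KC dd D R := by
  have hR' : (1 : ℝ) ≤ R := by exact_mod_cast hR
  unfold KC
  have : 0 ≤ (2 * R - 1 : ℝ) ^ (∑ j, dd j) * CG dd D := mul_nonneg (pow_nonneg (by linarith) _) (Nat.cast_nonneg _)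
  linarith

theorem momG (r : ℕ) (dd : Fin r → ℕ) (D A B R : ℕ) (hR : 1 ≤ R) : ∃ H0 : ℕ, ∀ H : ℕ, H0 ≤ H →
    ∀ (P : Fin r → ℤ[X]) (G : Fin r → Finset ℤ[X]), GOK dd D G → Small H A D P G → (∀ j, R * (G j).card ≤ dd j) →
    (∃ j, (G j).Nonempty) → ∀ I : Finset ℕ, (∀ n ∈ I, 1 ≤ n ∧ (n : ℝ) ≤ Real.log H ^ B) → ∀ c : ℕ → ℝ, (∀ n, |c n| ≤ 1) →
    ∑ f ∈ Om dd H, (∑ n ∈ I, c n * MM lam (fun j t => (P j).eval t) f (TT G n)) ^ (2 * R) ≤
      NN dd H * (KC dd D R * I.card) ^ R := by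
  classical
  have hR' : (1 : ℝ) ≤ R := by exact_mod_cast hR
  obtain ⟨A', n0, h0⟩ := pts D A B
  obtain ⟨n1, h1⟩ := mom r dd R A' (B * R) hR
  obtain ⟨n2, h2⟩ := ev_L' 1
  refine ⟨max n0 (max n1 n2), fun H hH P G hG hS hRG hne I hI c hc => ?_⟩
  have hn0 : n0 ≤ H := (le_max_left _ _).trans hH
  have hn1 : n1 ≤ H := ((le_max_left _ _).trans (le_max_right _ _)).trans hH
  have hL1 := h2 H (((le_max_right _ _).trans (le_max_right _ _)).trans hH)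
  obtain ⟨L, hLd⟩ : ∃ L, L = Real.log H := ⟨_, rfl⟩
  obtain ⟨T0, hT0, hT1⟩ := h0 H hn0
  obtain ⟨hP, hT⟩ := hT1 r dd P G hG hS
  have hkk : (∑ j, (G j).card) ≤ ∑ j, dd j := sum_le_sum fun j _ => hG.card j
  have hm := h1 H hn1 T0 (fun j t => (P j).eval t) hT0 hP ℕ I (Sn G)
    (fun n _ j => by
      rw [Pj_Sn]
      exact (Nat.mul_le_mul_left _ (card_TT G n j)).trans (hRG j))
    (fun n hn p hp => hT n (hI n hn).2 p.1 p.2 (mem_Sn.1 hp)) (∑ j, dd j) (fun n _ => (card_Sn G n).trans hkk) c (CG dd D)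
    (fun n hn => by
      have hx : ∀ n' ∈ I, n' ≤ ⌊Real.log H ^ B⌋₊ := fun n' hn' => Nat.le_floor (hI n' hn').2
      have h3 := pairs_card hG ⌊Real.log H ^ B⌋₊ n
      have h4 : (I.filter (fun j => Sn G j = Sn G n)).card ≤
          ((Icc 1 ⌊Real.log H ^ B⌋₊).filter (fun n' : ℕ => ∃ j, ¬ Disjoint (TT G n j) (TT G n' j))).card := by
        apply card_le_card
        intro n' hn'
        rw [mem_filter] at hn' ⊢
        rw [mem_Icc]
        refine ⟨⟨(hI n' hn'.1).1, hx n' hn'.1⟩, ?_⟩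
        obtain ⟨j, g, hg⟩ := hne
        refine ⟨j, ?_⟩
        rw [not_disjoint_iff]
        refine ⟨g.eval (n : ℤ), mem_image_of_mem _ hg, ?_⟩
        have h5 : (j, g.eval (n : ℤ)) ∈ Sn G n := mem_Sn.2 (mem_image_of_mem (fun g : ℤ[X] => g.eval (n : ℤ)) hg)
        rw [← hn'.2] at h5
        exact mem_Sn.1 h5
      exact_mod_cast h4.trans h3)
  have e1 : ∀ f ∈ Om dd H, (∑ n ∈ I, c n * MM lam (fun j t => (P j).eval t) f (TT G n)) ^ (2 * R) =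
      (∑ n ∈ I, c n * ∏ p ∈ Sn G n, Xp (fun j t => (P j).eval t) p f) ^ (2 * R) := by
    intro f _
    congr 1
    refine sum_congr rfl fun n _ => ?_
    rw [prod_Sn]
  rw [sum_congr rfl e1]
  refine hm.trans ?_
  apply mul_le_mul_of_nonneg_left _ (NN_pos dd H).le
  rw [← hLd] at hL1 ⊢
  have hL0 : 0 < L := by linarith
  have hIB : (I.card : ℝ) ≤ L ^ B := by
    have h3 : I ⊆ Icc 1 ⌊L ^ B⌋₊ := by
      intro n hn
      rw [mem_Icc]
      refine ⟨(hI n hn).1, Nat.le_floor ?_⟩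
      rw [hLd]
      exact (hI n hn).2
    have h4 := card_le_card h3
    rw [Nat.card_Icc, Nat.add_sub_cancel] at h4
    have h5 : (I.card : ℝ) ≤ (⌊L ^ B⌋₊ : ℝ) := by exact_mod_cast h4
    exact h5.trans (Nat.floor_le (by positivity))
  obtain ⟨N, hN⟩ : ∃ N : ℝ, N = I.card := ⟨_, rfl⟩
  have hN0 : 0 ≤ N := by rw [hN]; exact Nat.cast_nonneg _
  have hc2 : ∑ n ∈ I, c n ^ 2 ≤ N := by
    rw [hN]
    calc ∑ n ∈ I, c n ^ 2 ≤ ∑ _n ∈ I, (1 : ℝ) := by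
          apply sum_le_sum
          intro n _
          rw [← sq_abs]
          exact pow_le_one₀ (abs_nonneg _) (hc n)
      _ = _ := by simp
  have hc1 : ∑ n ∈ I, |c n| ≤ N := by
    rw [hN]
    calc ∑ n ∈ I, |c n| ≤ ∑ _n ∈ I, (1 : ℝ) := sum_le_sum fun n _ => hc n
      _ = _ := by simp
  rw [← hN] at hIB ⊢
  obtain ⟨Q, hQ⟩ : ∃ Q : ℝ, Q = (2 * R - 1 : ℝ) ^ (∑ j, dd j) * CG dd D := ⟨_, rfl⟩
  have hQ0 : 0 ≤ Q := by rw [hQ]; exact mul_nonneg (pow_nonneg (by linarith) _) (Nat.cast_nonneg _)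
  have h6 : ((2 * R - 1 : ℝ) ^ (∑ j, dd j) * (CG dd D * ∑ n ∈ I, c n ^ 2)) ^ R ≤ (Q * N) ^ R := by
    apply pow_le_pow_left₀
    · exact mul_nonneg (pow_nonneg (by linarith) _) (mul_nonneg (Nat.cast_nonneg _) (sum_nonneg fun _ _ => by positivity))
    · rw [← mul_assoc, ← hQ]
      exact mul_le_mul_of_nonneg_left hc2 hQ0
  have h7 : (∑ n ∈ I, |c n|) ^ (2 * R) / L ^ (B * R) ≤ N ^ R := by
    rw [div_le_iff₀ (by positivity), pow_mul L]
    calc (∑ n ∈ I, |c n|) ^ (2 * R) ≤ N ^ (2 * R) := pow_le_pow_left₀ (sum_nonneg fun _ _ => abs_nonneg _) hc1 _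
      _ = N ^ R * N ^ R := by rw [two_mul, pow_add]
      _ ≤ N ^ R * (L ^ B) ^ R := by gcongr
  have h8 : (Q * N) ^ R + N ^ R ≤ ((Q + 1) * N) ^ R := by
    rw [mul_pow, mul_pow]
    have h9 : Q ^ R + 1 ≤ (Q + 1) ^ R := by
      obtain ⟨R', rfl⟩ : ∃ R', R = R' + 1 := ⟨R - 1, by omega⟩
      rw [pow_succ, pow_succ]
      have h10 : Q ^ R' ≤ (Q + 1) ^ R' := pow_le_pow_left₀ hQ0 (by linarith) _
      have h11 : 1 ≤ (Q + 1) ^ R' := one_le_pow₀ (by linarith)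
      nlinarith
    have h12 : 0 ≤ N ^ R := by positivity
    nlinarith
  unfold KC
  rw [← hQ]
  linarith

end Pool.Agent.T9h23.Li
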