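import Mathlib
import Pool.Agent.T9h23.Li.D2

/-! Square root cancellation in the sums of the Liouville function at the values of almost all systems of compositions. -/

set_option autoImplicit false

namespace Pool.Agent.T9h23.Li
open Finset Polynomial
open Pool.Agent.H373R2.T7
open Pool.Agent.T9h23.Cor
open Pool.Agent.T9h23.BH

lemma lam_mul (a b : ℤ) : lam (a * b) = lam a * lam b := by
  unfold lam
  by_cases ha : a = 0
  · simp [ha]
  by_cases hb : b = 0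
  · simp [hb]
  rw [if_neg (mul_ne_zero ha hb), if_neg ha, if_neg hb, Int.natAbs_mul,
    ArithmeticFunction.cardFactors_mul (by simpa using ha) (by simpa using hb), pow_add]

lemma lam_one : lam 1 = 1 := by simp [lam]

lemma lam_prod {ι : Type*} (s : Finset ι) (g : ι → ℤ) : lam (∏ i ∈ s, g i) = ∏ i ∈ s, lam (g i) := by
  classical
  induction s using Finset.induction_on with
  | empty => simp [lam_one]
  | insert a s ha ih => rw [prod_insert ha, prod_insert ha, lam_mul, ih]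

lemma lam_qq {r : ℕ} {dd : Fin r → ℕ} (G : Fin r → Finset ℤ[X]) (P : Fin r → ℤ[X]) (f : (j : Fin r) → (Fin (dd j + 1) → ℤ)) (n : ℤ) :
    lam ((qq G P f).eval n) = ∏ j, ∏ g ∈ G j, lam (((hpol (P j) (f j)).comp g).eval n) := by
  unfold qq
  rw [eval_prod, lam_prod]
  refine prod_congr rfl fun j _ => ?_
  rw [eval_prod, lam_prod]

lemma lin_exp (t K : ℝ) (ht : 1 < t) : ∃ M : ℕ, ∀ m : ℕ, M ≤ m → ((m : ℝ) + 1) * K ≤ t ^ m := by
  have h := tendsto_pow_const_div_const_pow_of_one_lt 1 ht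
  have h1 := (h.eventually (gt_mem_nhds (show (0 : ℝ) < 1 / (2 * (|K| + 1)) by positivity)))
  obtain ⟨M, hM⟩ := Filter.eventually_atTop.1 h1
  refine ⟨M + 1, fun m hm => ?_⟩
  have h2 := hM m (by omega)
  rw [pow_one, div_lt_iff₀ (by positivity)] at h2
  have hm1 : (1 : ℝ) ≤ m := by exact_mod_cast (by omega : 1 ≤ m)
  have h3 : (m : ℝ) * (2 * (|K| + 1)) < t ^ m := by
    rw [one_div, inv_mul_eq_div, lt_div_iff₀ (by positivity)] at h2
    exact h2
  have h4 : ((m : ℝ) + 1) * K ≤ (2 * m) * (|K| + 1) := by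
    have : K ≤ |K| + 1 := by linarith [le_abs_self K]
    calc ((m : ℝ) + 1) * K ≤ (m + 1) * (|K| + 1) := by gcongr
      _ ≤ (2 * m) * (|K| + 1) := by
          apply mul_le_mul_of_nonneg_right _ (by positivity)
          linarith
  linarith

/-- the difference between the two sums is bounded -/
lemma sum_close {r : ℕ} {dd : Fin r → ℕ} {D : ℕ} {G : Fin r → Finset ℤ[X]} (hG : GOK dd D G) (P : Fin r → ℤ[X])
    (f : (j : Fin r) → (Fin (dd j + 1) → ℤ)) (w : ℕ → ℝ) (hw : ∀ n, |w n| ≤ 1) (x : ℕ) :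
    |∑ n ∈ Icc 1 x, w n * lam ((qq G P f).eval (n : ℤ)) -
      ∑ n ∈ Icc 1 x, w n * MM lam (fun j t => (P j).eval t) f (TT G n)| ≤ 2 * CG dd D := by
  classical
  rw [← sum_sub_distrib]
  have h1 : ∀ n ∈ Icc 1 x, |w n * lam ((qq G P f).eval (n : ℤ)) - w n * MM lam (fun j t => (P j).eval t) f (TT G n)| ≤
      if n ∈ Co G x then 2 else 0 := by
    intro n hn
    split_ifs with h
    · have a1 : |lam ((qq G P f).eval (n : ℤ))| ≤ 1 := lam_abs _
      have a2 : |MM lam (fun j t => (P j).eval t) f (TT G n)| ≤ 1 := by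
        unfold MM
        rw [abs_prod]
        apply prod_le_one (fun _ _ => abs_nonneg _)
        intro j _
        rw [abs_prod]
        exact prod_le_one (fun _ _ => abs_nonneg _) fun t _ => lam_abs _
      rw [← mul_sub, abs_mul]
      calc |w n| * |lam ((qq G P f).eval (n : ℤ)) - MM lam (fun j t => (P j).eval t) f (TT G n)| ≤ 1 * (1 + 1) := by
            apply mul_le_mul (hw n) _ (abs_nonneg _) (by norm_num)
            exact (abs_sub _ _).trans (add_le_add a1 a2)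
        _ = 2 := by norm_num
    · rw [lam_qq, MM_TT lam P f G hn h, sub_self, abs_zero]
  refine (abs_sum_le_sum_abs _ _).trans ((sum_le_sum h1).trans ?_)
  rw [← sum_filter, sum_const, nsmul_eq_mul]
  have h2 : (((Icc 1 x).filter (fun n => n ∈ Co G x)).card : ℝ) ≤ CG dd D := by
    have h3 : (Icc 1 x).filter (fun n => n ∈ Co G x) ⊆ Co G x := fun n hn => (mem_filter.1 hn).2
    exact_mod_cast (card_le_card h3).trans (card_Co hG x)
  linarith

open Classical in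
theorem finF (r : ℕ) (dd : Fin r → ℕ) (D R : ℕ) (hR : 1 ≤ R) (ε : ℝ) (hε : 0 < ε) (hε1 : ε ≤ 1) : ∃ X0 : ℝ, 1 ≤ X0 ∧
    ∀ A : ℕ, ∃ H0 : ℕ, ∀ H : ℕ, H0 ≤ H →
    ∀ (P : Fin r → ℤ[X]) (G : Fin r → Finset ℤ[X]), GOK dd D G → Small H A D P G → (∀ j, R * (G j).card ≤ dd j) →
    (∃ j, (G j).Nonempty) → ∀ w : ℕ → ℝ, (∀ n, |w n| ≤ 1) → ∀ x0 : ℝ, X0 ≤ x0 →
    (((Om dd H).filter (fun f => ¬ ∀ x : ℕ, x0 ≤ x → (x : ℝ) ≤ Real.log H ^ A →
      |∑ n ∈ Icc 1 x, w n * lam ((qq G P f).eval (n : ℤ))| ≤ (x : ℝ) ^ (1 / 2 + ε))).card : ℝ) ≤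
      NN dd H / x0 ^ (R * ε) := by
  have hR' : (1 : ℝ) ≤ R := by exact_mod_cast hR
  obtain ⟨t, ht⟩ : ∃ t : ℝ, t = (2 : ℝ) ^ (ε / 4) := ⟨_, rfl⟩
  have ht1 : 1 < t := by rw [ht]; exact Real.one_lt_rpow (by norm_num) (by positivity)
  have ht0 : 0 < t := by linarith
  have ht2 : t ≤ 2 := by
    rw [ht]
    calc (2 : ℝ) ^ (ε / 4) ≤ 2 ^ (1 : ℝ) := Real.rpow_le_rpow_of_exponent_le (by norm_num) (by linarith)
      _ = 2 := by norm_num
  have ht4 : t ^ 4 = (2 : ℝ) ^ ε := by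
    rw [ht, ← Real.rpow_natCast, ← Real.rpow_mul (by norm_num)]
    congr 1
    push_cast
    ring
  obtain ⟨C, hC⟩ : ∃ C, C = KC dd D R := ⟨_, rfl⟩
  have hC1 : 1 ≤ C := by rw [hC]; exact KC_one dd D R hR
  obtain ⟨q, hq⟩ : ∃ q : ℝ, q = (t ^ (5 * R))⁻¹ := ⟨_, rfl⟩
  have htR : 1 < t ^ (5 * R) := one_lt_pow₀ ht1 (by omega)
  have hq0 : 0 < q := by rw [hq]; positivity
  have hq1 : q < 1 := by rw [hq]; exact inv_lt_one_of_one_lt₀ htR
  have h1q : 0 < 1 - q := by linarith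
  obtain ⟨M1, hM1⟩ := lin_exp (t ^ R) (C ^ R / (1 - q)) (one_lt_pow₀ ht1 (by omega))
  obtain ⟨M2, hM2⟩ := lin_exp t (8 + 4 * CG dd D) ht1
  refine ⟨2 ^ (M1 + M2), one_le_pow₀ (by norm_num), fun A => ?_⟩
  obtain ⟨H0, h0⟩ := momG r dd D A (A + 1) R hR
  obtain ⟨n1, h1⟩ := ev_L' 2
  refine ⟨max H0 n1, fun H hH P G hG hS hRG hne w hw x0 hx0 => ?_⟩
  have hH0 : H0 ≤ H := (le_max_left _ _).trans hH
  have hL2 := h1 H ((le_max_right _ _).trans hH)
  obtain ⟨L, hLd⟩ : ∃ L, L = Real.log H := ⟨_, rfl⟩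
  rw [← hLd] at hL2 ⊢
  have hL0 : 0 < L := by linarith
  have hL1 : 1 ≤ L := by linarith
  have hx01 : 1 ≤ x0 := (one_le_pow₀ (by norm_num : (1 : ℝ) ≤ 2)).trans hx0
  have hx0p : 0 < x0 := by linarith
  -- the scales
  obtain ⟨m0, hm0⟩ : ∃ m0, m0 = Nat.log 2 ⌊x0⌋₊ + 1 := ⟨_, rfl⟩
  obtain ⟨M, hM⟩ : ∃ M, M = Nat.log 2 ⌊L ^ A⌋₊ + 1 := ⟨_, rfl⟩
  have hfl : 2 ^ (M1 + M2) ≤ ⌊x0⌋₊ := by
    apply Nat.le_floor
    push_cast
    exact hx0
  have hm0' : M1 + M2 < m0 := by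
    rw [hm0, Nat.lt_succ_iff]
    exact (Nat.le_log_iff_pow_le (by norm_num) (by have := Nat.pos_of_ne_zero (pow_ne_zero (M1 + M2) (two_ne_zero : (2 : ℕ) ≠ 0)); omega)).2 hfl
  have hm0x : x0 < 2 ^ m0 := by
    have h2 : ⌊x0⌋₊ < 2 ^ m0 := by rw [hm0]; exact Nat.lt_pow_succ_log_self (by norm_num) _
    have h3 : x0 < ⌊x0⌋₊ + 1 := Nat.lt_floor_add_one x0
    have h4 : ((⌊x0⌋₊ + 1 : ℕ) : ℝ) ≤ ((2 ^ m0 : ℕ) : ℝ) := by exact_mod_cast h2
    push_cast at h4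
    linarith
  have hfA : 1 ≤ ⌊L ^ A⌋₊ := Nat.le_floor (by push_cast; exact one_le_pow₀ hL1)
  have hMA : (2 : ℝ) ^ M ≤ L ^ (A + 1) := by
    have h2 : 2 ^ Nat.log 2 ⌊L ^ A⌋₊ ≤ ⌊L ^ A⌋₊ := Nat.pow_log_le_self 2 (by omega)
    have h3 : ((2 ^ Nat.log 2 ⌊L ^ A⌋₊ : ℕ) : ℝ) ≤ L ^ A := (Nat.cast_le.2 h2).trans (Nat.floor_le (by positivity))
    push_cast at h3
    calc (2 : ℝ) ^ M = 2 ^ Nat.log 2 ⌊L ^ A⌋₊ * 2 := by rw [hM, pow_succ]
      _ ≤ L ^ A * L := by gcongr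
      _ = L ^ (A + 1) := (pow_succ _ _).symm
  -- the bounds
  obtain ⟨Bm, hBm⟩ : ∃ Bm : ℕ → ℝ, Bm = fun m => √(2 ^ m) * t ^ (3 * m) := ⟨_, rfl⟩
  have hB0 : ∀ m, 0 < Bm m := fun m => by rw [hBm]; positivity
  have hB2 : ∀ m, Bm m ^ (2 * R) = (2 ^ m) ^ R * t ^ (6 * m * R) := by
    intro m
    rw [hBm]
    simp only
    rw [mul_pow, pow_mul (√(2 ^ m)) 2 R, Real.sq_sqrt (by positivity), ← pow_mul t]
    congr 2
    ring
  obtain ⟨a, ha⟩ : ∃ a : ℕ → ((j : Fin r) → (Fin (dd j + 1) → ℤ)) → ℝ,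
      a = fun n f => w n * MM lam (fun j t => (P j).eval t) f (TT G n) := ⟨_, rfl⟩
  have hmax : ∀ m ∈ Ico m0 (M + 1), (((Om dd H).filter (fun f => ∃ x : ℕ, x ≤ 2 ^ m ∧ (m + 1) * Bm m < |∑ n ∈ Icc 1 x, a n f|)).card : ℝ) ≤
      NN dd H * ((1 - q) * q ^ m) := by
    intro m hm
    rw [mem_Ico] at hm
    have h2 := maximal (Om dd H) a R m hR (NN dd H) C (Bm m) (NN_pos dd H).le (by linarith) (hB0 m) (by
      intro u v huv hv
      have h3 := h0 H hH0 P G hG hS hRG hne (Ioc u v) (fun n hn => by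
        rw [mem_Ioc] at hn
        refine ⟨by omega, ?_⟩
        have h4 : ((n : ℕ) : ℝ) ≤ ((2 ^ m : ℕ) : ℝ) := by exact_mod_cast hn.2.trans hv
        push_cast at h4
        rw [← hLd]
        exact (h4.trans (pow_le_pow_right₀ (by norm_num) (by omega))).trans hMA) w hw
      rw [Nat.card_Ioc, Nat.cast_sub huv, ← hC] at h3
      rw [ha]
      exact h3)
    refine h2.trans ?_
    apply mul_le_mul_of_nonneg_left _ (NN_pos dd H).le
    rw [hB2, mul_pow]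
    have h3 := hM1 m (by omega)
    have e1 : ((m : ℝ) + 1) * (C ^ R * (2 ^ m) ^ R) / ((2 ^ m) ^ R * t ^ (6 * m * R)) = ((m + 1) * C ^ R) / t ^ (6 * m * R) := by
      field_simp
    rw [e1, div_le_iff₀ (by positivity)]
    have e2 : (1 - q) * q ^ m * t ^ (6 * m * R) = (1 - q) * (t ^ R) ^ m := by
      rw [hq, inv_pow, ← pow_mul, ← pow_mul, mul_assoc]
      congr 1
      rw [inv_mul_eq_iff_eq_mul₀ (by positivity), ← pow_add]
      congr 1
      ring
    rw [e2]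
    calc ((m : ℝ) + 1) * C ^ R = (1 - q) * ((m + 1) * (C ^ R / (1 - q))) := by field_simp
      _ ≤ _ := mul_le_mul_of_nonneg_left h3 h1q.le
  -- the inclusion
  have hsub : (Om dd H).filter (fun f => ¬ ∀ x : ℕ, x0 ≤ x → (x : ℝ) ≤ L ^ A →
      |∑ n ∈ Icc 1 x, w n * lam ((qq G P f).eval (n : ℤ))| ≤ (x : ℝ) ^ (1 / 2 + ε)) ⊆
      (Ico m0 (M + 1)).biUnion (fun m => (Om dd H).filter (fun f => ∃ x : ℕ, x ≤ 2 ^ m ∧ (m + 1) * Bm m < |∑ n ∈ Icc 1 x, a n f|)) := by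
    intro f hf
    rw [mem_filter] at hf
    obtain ⟨hfO, hf⟩ := hf
    by_contra hcon
    apply hf
    intro x hx1 hx2
    have hxr : 1 ≤ (x : ℝ) := hx01.trans hx1
    have hx0' : x ≠ 0 := by
      intro h
      rw [h] at hxr
      norm_num at hxr
    obtain ⟨m, hm⟩ : ∃ m, m = Nat.log 2 x + 1 := ⟨_, rfl⟩
    have hxm : x < 2 ^ m := by rw [hm]; exact Nat.lt_pow_succ_log_self (by norm_num) _
    have hxm2 : 2 ^ Nat.log 2 x ≤ x := Nat.pow_log_le_self 2 hx0'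
    have hm1 : m0 ≤ m := by
      rw [hm, hm0]
      apply Nat.succ_le_succ
      apply Nat.log_mono_right
      exact_mod_cast (Nat.floor_le hx0p.le).trans hx1
    have hm2 : m ≤ M := by
      rw [hm, hM]
      apply Nat.succ_le_succ
      apply Nat.log_mono_right
      exact Nat.le_floor hx2
    have h2 : |∑ n ∈ Icc 1 x, a n f| ≤ (m + 1) * Bm m := by
      by_contra hcon2
      apply hcon
      rw [mem_biUnion]
      refine ⟨m, by rw [mem_Ico]; omega, ?_⟩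
      rw [mem_filter]
      exact ⟨hfO, x, hxm.le, not_le.1 hcon2⟩
    have h3 := sum_close hG P f w hw x
    rw [ha] at h2
    simp only at h2
    have h4 : |∑ n ∈ Icc 1 x, w n * lam ((qq G P f).eval (n : ℤ))| ≤ (m + 1) * Bm m + 2 * CG dd D := by
      have h5 := abs_sub_abs_le_abs_sub (∑ n ∈ Icc 1 x, w n * lam ((qq G P f).eval (n : ℤ)))
        (∑ n ∈ Icc 1 x, w n * MM lam (fun j t => (P j).eval t) f (TT G n))
      linarith
    refine h4.trans ?_
    have hx0r : 0 < (x : ℝ) := by linarith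
    have h2m : (2 : ℝ) ^ m ≤ 2 * x := by
      have h5 : (((2 ^ Nat.log 2 x : ℕ)) : ℝ) ≤ x := by exact_mod_cast hxm2
      push_cast at h5
      rw [hm, pow_succ]
      linarith
    have hsq : √((2 : ℝ) ^ m) ≤ 2 * √(x : ℝ) := by
      calc √((2 : ℝ) ^ m) ≤ √(2 ^ 2 * x) := Real.sqrt_le_sqrt (by linarith)
        _ = 2 * √(x : ℝ) := by rw [Real.sqrt_mul (by norm_num), Real.sqrt_sq (by norm_num)]
    have ht3 : t ^ (3 * m) ≤ 2 * (x : ℝ) ^ (3 * ε / 4) := by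
      have e1 : t ^ (3 * m) = ((2 : ℝ) ^ m) ^ (3 * ε / 4) := by
        rw [ht, ← Real.rpow_natCast, ← Real.rpow_natCast (2 : ℝ) m, ← Real.rpow_mul (by norm_num), ← Real.rpow_mul (by norm_num)]
        congr 1
        push_cast
        ring
      rw [e1]
      calc ((2 : ℝ) ^ m) ^ (3 * ε / 4) ≤ (2 * x) ^ (3 * ε / 4) := Real.rpow_le_rpow (by positivity) h2m (by positivity)
        _ = 2 ^ (3 * ε / 4) * (x : ℝ) ^ (3 * ε / 4) := Real.mul_rpow (by norm_num) hx0r.le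
        _ ≤ 2 * (x : ℝ) ^ (3 * ε / 4) := by
            apply mul_le_mul_of_nonneg_right _ (by positivity)
            calc (2 : ℝ) ^ (3 * ε / 4) ≤ 2 ^ (1 : ℝ) := Real.rpow_le_rpow_of_exponent_le (by norm_num) (by linarith)
              _ = 2 := by norm_num
    have htm : t ^ m ≤ 2 * (x : ℝ) ^ (ε / 4) := by
      have e1 : t ^ m = ((2 : ℝ) ^ m) ^ (ε / 4) := by
        rw [ht, ← Real.rpow_natCast, ← Real.rpow_natCast (2 : ℝ) m, ← Real.rpow_mul (by norm_num), ← Real.rpow_mul (by norm_num)]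
        congr 1
        ring
      rw [e1]
      calc ((2 : ℝ) ^ m) ^ (ε / 4) ≤ (2 * x) ^ (ε / 4) := Real.rpow_le_rpow (by positivity) h2m (by positivity)
        _ = 2 ^ (ε / 4) * (x : ℝ) ^ (ε / 4) := Real.mul_rpow (by norm_num) hx0r.le
        _ ≤ 2 * (x : ℝ) ^ (ε / 4) := by
            apply mul_le_mul_of_nonneg_right _ (by positivity)
            rw [← ht]
            exact ht2
    have h6 := (hM2 m (by omega)).trans htm
    have hCG0 : (0 : ℝ) ≤ CG dd D := Nat.cast_nonneg _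
    have hm0r : (0 : ℝ) ≤ m := Nat.cast_nonneg m
    obtain ⟨s, hs⟩ : ∃ s : ℝ, s = √(x : ℝ) * (x : ℝ) ^ (3 * ε / 4) := ⟨_, rfl⟩
    have hs1 : 1 ≤ s := by
      rw [hs]
      have a1 : 1 ≤ √(x : ℝ) := by rw [Real.one_le_sqrt]; exact hxr
      have a2 : 1 ≤ (x : ℝ) ^ (3 * ε / 4) := Real.one_le_rpow hxr (by positivity)
      nlinarith
    have h7 : Bm m ≤ 4 * s := by
      rw [hBm, hs]
      simp only
      calc √((2 : ℝ) ^ m) * t ^ (3 * m) ≤ (2 * √(x : ℝ)) * (2 * (x : ℝ) ^ (3 * ε / 4)) :=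
            mul_le_mul hsq ht3 (by positivity) (by positivity)
        _ = _ := by ring
    have e5 : (x : ℝ) ^ (1 / 2 + ε) = s * (x : ℝ) ^ (ε / 4) := by
      rw [hs, Real.sqrt_eq_rpow, ← Real.rpow_add hx0r, ← Real.rpow_add hx0r]
      congr 1
      ring
    rw [e5]
    calc ((m : ℝ) + 1) * Bm m + 2 * CG dd D ≤ (m + 1) * (4 * s) + 2 * CG dd D * s := by
          apply add_le_add
          · gcongr
          · exact le_mul_of_one_le_right (by positivity) hs1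
      _ = s * ((m + 1) * 4 + 2 * CG dd D) := by ring
      _ ≤ s * (x : ℝ) ^ (ε / 4) := by
          apply mul_le_mul_of_nonneg_left _ (by linarith)
          nlinarith
  refine le_trans (Nat.cast_le.2 ((card_le_card hsub).trans card_biUnion_le)) ?_
  push_cast
  refine (sum_le_sum hmax).trans ?_
  rw [← mul_sum, ← mul_sum, div_eq_mul_inv]
  apply mul_le_mul_of_nonneg_left _ (NN_pos dd H).le
  have h8 := geom_sum_Ico_le_of_lt_one (m := m0) (n := M + 1) hq0.le hq1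
  calc (1 - q) * ∑ i ∈ Ico m0 (M + 1), q ^ i ≤ (1 - q) * (q ^ m0 / (1 - q)) := mul_le_mul_of_nonneg_left h8 h1q.le
    _ = q ^ m0 := by field_simp
    _ ≤ (x0 ^ ((R : ℝ) * ε))⁻¹ := by
        rw [hq, inv_pow]
        apply inv_anti₀ (by positivity)
        calc x0 ^ ((R : ℝ) * ε) ≤ (2 ^ m0) ^ ((R : ℝ) * ε) := Real.rpow_le_rpow hx0p.le hm0x.le (by positivity)
          _ = (t ^ (4 * R)) ^ m0 := by
              rw [pow_mul, ht4]
              have g1 : ((2 : ℝ) ^ m0) ^ ((R : ℝ) * ε) = (2 : ℝ) ^ ((m0 : ℝ) * (R * ε)) := by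
                rw [← Real.rpow_natCast, ← Real.rpow_mul (by norm_num)]
              have g2 : (((2 : ℝ) ^ ε) ^ R) ^ m0 = (2 : ℝ) ^ ((m0 : ℝ) * (R * ε)) := by
                rw [← pow_mul, ← Real.rpow_natCast, ← Real.rpow_mul (by norm_num)]
                congr 1
                push_cast
                ring
              rw [g1, g2]
          _ ≤ (t ^ (5 * R)) ^ m0 := by
              apply pow_le_pow_left₀ (by positivity)
              exact pow_le_pow_right₀ ht1.le (by omega)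

end Pool.Agent.T9h23.Li
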