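import Mathlib
import Pool.Agent.T9h23.Li.D3

/-! The number of systems of inner polynomials and of phases. -/

set_option autoImplicit false

namespace Pool.Agent.T9h23.Li
open Finset Polynomial
open Pool.Agent.H373R2.T7
open Pool.Agent.H807R2.Dav
open Pool.Agent.T9h23.Cor
open Pool.Agent.T9h23.BH

/-- the polynomials of degree at most `D` with coefficients at most `m` -/
noncomputable def PN (D m : ℕ) : Finset ℤ[X] :=
  (Fintype.piFinset (fun _ : Fin (D + 1) => Icc (-(m : ℤ)) m)).image (fun b => ∑ i : Fin (D + 1), C (b i) * (X : ℤ[X]) ^ (i : ℕ))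

lemma mem_PN {D m : ℕ} {g : ℤ[X]} (h2 : g.natDegree ≤ D) (hc : ∀ i, |g.coeff i| ≤ (m : ℤ)) : g ∈ PN D m := by
  unfold PN
  rw [mem_image]
  refine ⟨fun i => g.coeff i, ?_, ?_⟩
  · rw [Fintype.mem_piFinset]
    intro i
    rw [mem_Icc]
    exact abs_le.1 (hc i)
  · rw [Fin.sum_univ_eq_sum_range (fun i => C (g.coeff i) * (X : ℤ[X]) ^ i) (D + 1)]
    exact (g.as_sum_range_C_mul_X_pow' (Nat.lt_succ_of_le h2)).symm

lemma card_PN (D m : ℕ) : (PN D m).card ≤ (2 * m + 1) ^ (D + 1) := by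
  unfold PN
  refine card_image_le.trans (le_of_eq ?_)
  rw [Fintype.card_piFinset, prod_const, card_univ, Fintype.card_fin, card_Icc']

/-- the sets of at most `k` of them -/
noncomputable def FN (k D m : ℕ) : Finset (Finset ℤ[X]) := (range (k + 1)).biUnion (fun j => powersetCard j (PN D m))

lemma card_FN (k D m : ℕ) : (FN k D m).card ≤ (k + 1) * ((2 * m + 1) ^ (D + 1) + 1) ^ k := by
  unfold FN
  refine card_biUnion_le.trans ?_
  calc ∑ j ∈ range (k + 1), (powersetCard j (PN D m)).card ≤ ∑ _j ∈ range (k + 1), ((2 * m + 1) ^ (D + 1) + 1) ^ k := by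
        apply sum_le_sum
        intro j hj
        rw [mem_range] at hj
        rw [card_powersetCard]
        calc (PN D m).card.choose j ≤ (PN D m).card ^ j := Nat.choose_le_pow _ _
          _ ≤ ((2 * m + 1) ^ (D + 1) + 1) ^ j := Nat.pow_le_pow_left ((card_PN D m).trans (Nat.le_succ _)) _
          _ ≤ ((2 * m + 1) ^ (D + 1) + 1) ^ k := Nat.pow_le_pow_right (Nat.succ_pos _) (by omega)
    _ = _ := by rw [sum_const, card_range, smul_eq_mul]

/-- the systems of inner polynomials -/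
noncomputable def GN (r k D m : ℕ) : Finset (Fin r → Finset ℤ[X]) := Fintype.piFinset (fun _ => FN k D m)

lemma mem_GN {r k D : ℕ} {M : ℝ} {G : Fin r → Finset ℤ[X]} (hk : ∀ j, (G j).card ≤ k) (hD : ∀ j, ∀ g ∈ G j, g.natDegree ≤ D)
    (hM : ∀ j, ∀ g ∈ G j, ∀ i, |(g.coeff i : ℝ)| ≤ M) : G ∈ GN r k D ⌊M⌋₊ := by
  unfold GN
  rw [Fintype.mem_piFinset]
  intro j
  unfold FN
  rw [mem_biUnion]
  refine ⟨(G j).card, by rw [mem_range]; have := hk j; omega, ?_⟩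
  rw [mem_powersetCard]
  refine ⟨fun g hg => ?_, rfl⟩
  apply mem_PN (hD j g hg)
  intro i
  have h1 := hM j g hg i
  have h2 : ((g.coeff i).natAbs : ℝ) ≤ M := by rwa [Nat.cast_natAbs, Int.cast_abs]
  have h3 := Nat.le_floor h2
  rw [Int.abs_eq_natAbs]
  exact_mod_cast h3

theorem GN_le (r k D A : ℕ) : ∃ H0 : ℕ, ∀ H : ℕ, H0 ≤ H →
    ((GN r k D ⌊Real.log H ^ A⌋₊).card : ℝ) ≤ Real.log H ^ (r * k * (D + 1) * A + 1) := by
  obtain ⟨n0, h0⟩ := ev_L' (max 1 (((k + 1) * ((3 : ℝ) ^ (D + 1) + 1) ^ k) ^ r))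
  refine ⟨n0, fun H hH => ?_⟩
  have a0 := h0 H hH
  obtain ⟨L, hLd⟩ : ∃ L, L = Real.log H := ⟨_, rfl⟩
  rw [← hLd] at a0 ⊢
  have hL1 : 1 ≤ L := (le_max_left _ _).trans a0
  have a1 : ((k + 1) * ((3 : ℝ) ^ (D + 1) + 1) ^ k) ^ r ≤ L := (le_max_right _ _).trans a0
  have hL0 : 0 < L := by linarith
  obtain ⟨m, hm⟩ : ∃ m : ℕ, m = ⌊L ^ A⌋₊ := ⟨_, rfl⟩
  have hmL : (m : ℝ) ≤ L ^ A := by rw [hm]; exact Nat.floor_le (by positivity)
  rw [← hm]
  have hLA : 1 ≤ L ^ A := one_le_pow₀ hL1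
  have h2 : (2 * (m : ℝ) + 1) ^ (D + 1) ≤ 3 ^ (D + 1) * L ^ (A * (D + 1)) := by
    calc (2 * (m : ℝ) + 1) ^ (D + 1) ≤ (3 * L ^ A) ^ (D + 1) := pow_le_pow_left₀ (by positivity) (by linarith) _
      _ = _ := by rw [mul_pow, ← pow_mul]
  have hLAD : 1 ≤ L ^ (A * (D + 1)) := one_le_pow₀ hL1
  have h3 : (2 * (m : ℝ) + 1) ^ (D + 1) + 1 ≤ (3 ^ (D + 1) + 1) * L ^ (A * (D + 1)) := by linarith
  have h5 : ((FN k D m).card : ℝ) ≤ (k + 1) * ((2 * (m : ℝ) + 1) ^ (D + 1) + 1) ^ k := by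
    exact_mod_cast card_FN k D m
  have h6 : ((FN k D m).card : ℝ) ≤ ((k + 1) * ((3 : ℝ) ^ (D + 1) + 1) ^ k) * L ^ (A * (D + 1) * k) := by
    refine h5.trans ?_
    calc ((k : ℝ) + 1) * ((2 * (m : ℝ) + 1) ^ (D + 1) + 1) ^ k ≤ (k + 1) * ((3 ^ (D + 1) + 1) * L ^ (A * (D + 1))) ^ k := by gcongr
      _ = _ := by rw [mul_pow, ← pow_mul]; ring
  unfold GN
  rw [Fintype.card_piFinset, prod_const, card_univ, Fintype.card_fin]
  push_cast
  calc ((FN k D m).card : ℝ) ^ r ≤ (((k + 1) * ((3 : ℝ) ^ (D + 1) + 1) ^ k) * L ^ (A * (D + 1) * k)) ^ r :=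
        pow_le_pow_left₀ (Nat.cast_nonneg _) h6 _
    _ = ((k + 1) * ((3 : ℝ) ^ (D + 1) + 1) ^ k) ^ r * L ^ (A * (D + 1) * k * r) := by rw [mul_pow, ← pow_mul]
    _ ≤ L * L ^ (A * (D + 1) * k * r) := by gcongr
    _ = L ^ (r * k * (D + 1) * A + 1) := by rw [← pow_succ']; congr 1; ring

/-- the phase of the grid -/
noncomputable def gph (E Q : ℕ) (b : Fin (E + 1) → ℕ) (n : ℕ) : ℝ := ∑ i, (b i : ℝ) / Q * (n : ℝ) ^ (i : ℕ)

/-- every real polynomial is close to a phase of the grid, modulo the integers -/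
lemma phase_near (E Q : ℕ) (hQ : 1 ≤ Q) (q : ℝ[X]) (hq : q.natDegree ≤ E) :
    ∃ b ∈ Fintype.piFinset (fun _ : Fin (E + 1) => range Q), ∀ n : ℕ, 1 ≤ n →
      ‖ee (q.eval (n : ℝ)) - ee (gph E Q b n)‖ ≤ 2 * Real.pi * ((E + 1) * (n : ℝ) ^ E / Q) := by
  have hQ0 : (0 : ℝ) < Q := by exact_mod_cast hQ
  refine ⟨fun i => ⌊Int.fract (q.coeff i) * Q⌋₊, ?_, fun n hn => ?_⟩
  · rw [Fintype.mem_piFinset]
    intro i
    rw [mem_range, Nat.floor_lt (by have := Int.fract_nonneg (q.coeff i); positivity)]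
    have := Int.fract_lt_one (q.coeff i)
    nlinarith
  have hn1 : (1 : ℝ) ≤ n := by exact_mod_cast hn
  have e1 : q.eval (n : ℝ) = ((∑ i : Fin (E + 1), ⌊q.coeff i⌋ * (n : ℤ) ^ (i : ℕ) : ℤ) : ℝ) +
      ∑ i : Fin (E + 1), Int.fract (q.coeff i) * (n : ℝ) ^ (i : ℕ) := by
    rw [eval_eq_sum_range' (Nat.lt_succ_of_le hq), ← Fin.sum_univ_eq_sum_range (fun i => q.coeff i * (n : ℝ) ^ i) (E + 1)]
    push_cast
    rw [← sum_add_distrib]
    refine sum_congr rfl fun i _ => ?_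
    rw [← add_mul, Int.floor_add_fract]
  have e2 : ee (q.eval (n : ℝ)) = ee (∑ i : Fin (E + 1), Int.fract (q.coeff i) * (n : ℝ) ^ (i : ℕ)) := by
    rw [e1, ee_add, ee_int, one_mul]
  rw [e2]
  have hb : ∀ u v : ℝ, ‖ee u - ee v‖ ≤ 2 * Real.pi * |u - v| := by
    intro u v
    have h1 : ee u - ee v = ee v * (ee (u - v) - 1) := by
      rw [mul_sub, ← ee_add, mul_one]
      congr 2
      ring
    rw [h1, norm_mul, norm_ee, one_mul]
    have h2 := Real.norm_exp_I_mul_ofReal_sub_one_le (x := 2 * Real.pi * (u - v))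
    have h3 : ee (u - v) = Complex.exp (Complex.I * ((2 * Real.pi * (u - v) : ℝ) : ℂ)) := by
      unfold ee
      congr 1
      push_cast
      ring
    rw [h3]
    refine h2.trans (le_of_eq ?_)
    rw [Real.norm_eq_abs, abs_mul, abs_of_pos (by positivity : (0 : ℝ) < 2 * Real.pi)]
  refine (hb _ _).trans ?_
  apply mul_le_mul_of_nonneg_left _ (by positivity)
  unfold gph
  rw [← sum_sub_distrib]
  refine (abs_sum_le_sum_abs _ _).trans ?_
  calc ∑ i : Fin (E + 1), |Int.fract (q.coeff i) * (n : ℝ) ^ (i : ℕ) - (⌊Int.fract (q.coeff i) * Q⌋₊ : ℝ) / Q * (n : ℝ) ^ (i : ℕ)|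
      ≤ ∑ _i : Fin (E + 1), (n : ℝ) ^ E / Q := by
        apply sum_le_sum
        intro i _
        rw [← sub_mul, abs_mul, abs_of_nonneg (by positivity : (0 : ℝ) ≤ (n : ℝ) ^ (i : ℕ))]
        have h1 : (⌊Int.fract (q.coeff i) * Q⌋₊ : ℝ) ≤ Int.fract (q.coeff i) * Q :=
          Nat.floor_le (by have := Int.fract_nonneg (q.coeff i); positivity)
        have h2 : Int.fract (q.coeff i) * Q < ⌊Int.fract (q.coeff i) * Q⌋₊ + 1 := Nat.lt_floor_add_one _
        have h3 : |Int.fract (q.coeff i) - (⌊Int.fract (q.coeff i) * Q⌋₊ : ℝ) / Q| ≤ 1 / Q := by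
          rw [abs_le]
          constructor
          · have : (⌊Int.fract (q.coeff i) * Q⌋₊ : ℝ) / Q ≤ Int.fract (q.coeff i) := by rw [div_le_iff₀ hQ0]; exact h1
            have h4 : 0 ≤ 1 / (Q : ℝ) := by positivity
            linarith
          · rw [sub_le_iff_le_add, ← add_div, le_div_iff₀ hQ0]
            linarith
        have h5 : (n : ℝ) ^ (i : ℕ) ≤ (n : ℝ) ^ E := pow_le_pow_right₀ hn1 (by have := i.2; omega)
        calc _ ≤ 1 / (Q : ℝ) * (n : ℝ) ^ E := mul_le_mul h3 h5 (by positivity) (by positivity)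
          _ = _ := by ring
    _ = _ := by
        rw [sum_const, card_univ, Fintype.card_fin, nsmul_eq_mul]
        push_cast
        ring

end Pool.Agent.T9h23.Li
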