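import Mathlib
import Pool.Agent.T9h23.Li.E1

/-! All systems of inner polynomials, all phases and all lengths at once. -/

set_option autoImplicit false

namespace Pool.Agent.T9h23.Li
open Finset Polynomial
open Pool.Agent.H373R2.T7
open Pool.Agent.H807R2.Dav
open Pool.Agent.T9h23.Cor
open Pool.Agent.T9h23.BH

lemma ee_re (θ : ℝ) : (ee θ).re = Real.cos (2 * Real.pi * θ) := by
  rw [ee_eq, Complex.exp_ofReal_mul_I_re]

lemma ee_im (θ : ℝ) : (ee θ).im = Real.sin (2 * Real.pi * θ) := by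
  rw [ee_eq, Complex.exp_ofReal_mul_I_im]

/-- real and imaginary parts of a sum with phases -/
lemma norm_phase_sum (s : Finset ℕ) (θ : ℕ → ℝ) (y : ℕ → ℝ) :
    ‖∑ n ∈ s, ee (θ n) * ((y n : ℝ) : ℂ)‖ ≤
      |∑ n ∈ s, Real.cos (2 * Real.pi * θ n) * y n| + |∑ n ∈ s, Real.sin (2 * Real.pi * θ n) * y n| := by
  refine (Complex.norm_le_abs_re_add_abs_im _).trans (le_of_eq ?_)
  rw [Complex.re_sum, Complex.im_sum]
  congr 2
  · refine sum_congr rfl fun n _ => ?_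
    rw [Complex.re_mul_ofReal, ee_re]
  · refine sum_congr rfl fun n _ => ?_
    rw [Complex.im_mul_ofReal, ee_im]

/-- the exponent of the number of tests -/
def kap (r k D E A : ℕ) : ℕ := r * k * (D + 1) * A + A + (E + 1) * (A * (E + 1) + 2) + 2

/-- the admissible systems -/
structure AdmG {r : ℕ} (dd : Fin r → ℕ) (k D H A : ℕ) (P : Fin r → ℤ[X]) (G : Fin r → Finset ℤ[X]) : Prop where
  ok : GOK dd D G
  small : Small H A D P G
  card : ∀ j, (G j).card ≤ k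
  ne : ∃ j, (G j).Nonempty

open Classical in
theorem one_test (r : ℕ) (dd : Fin r → ℕ) (k D A R : ℕ) (hR : 1 ≤ R) (hd : ∀ j, R * k ≤ dd j) : ∃ H0 : ℕ, ∀ H : ℕ, H0 ≤ H →
    ∀ (P : Fin r → ℤ[X]) (G : Fin r → Finset ℤ[X]), AdmG dd k D H A P G → ∀ x : ℕ, 1 ≤ x → (x : ℝ) ≤ Real.log H ^ A →
    ∀ c : ℕ → ℝ, (∀ n, |c n| ≤ 1) → ∀ Y : ℝ, 0 < Y →
    (((Om dd H).filter (fun f => √(x : ℝ) * Y < |∑ n ∈ Icc 1 x, c n * MM lam (fun j t => (P j).eval t) f (TT G n)|)).card : ℝ) ≤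
      NN dd H * (KC dd D R ^ R / Y ^ (2 * R)) := by
  obtain ⟨H0, h0⟩ := momG r dd D A A R hR
  refine ⟨H0, fun H hH P G hG x hx1 hx2 c hc Y hY => ?_⟩
  have h1 := h0 H hH P G hG.ok hG.small (fun j => (Nat.mul_le_mul_left _ (hG.card j)).trans (hd j)) hG.ne (Icc 1 x)
    (fun n hn => by
      rw [mem_Icc] at hn
      refine ⟨hn.1, ?_⟩
      have : (n : ℝ) ≤ x := by exact_mod_cast hn.2
      linarith) c hc
  rw [Nat.card_Icc, Nat.add_sub_cancel] at h1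
  have hx0 : (0 : ℝ) < x := by exact_mod_cast hx1
  have hs : 0 < √(x : ℝ) * Y := by positivity
  obtain ⟨N, hN⟩ : ∃ N : ℕ, N = ((Om dd H).filter (fun f => √(x : ℝ) * Y <
    |∑ n ∈ Icc 1 x, c n * MM lam (fun j t => (P j).eval t) f (TT G n)|)).card := ⟨_, rfl⟩
  have h2 : (N : ℝ) * (√(x : ℝ) * Y) ^ (2 * R) ≤ NN dd H * (KC dd D R * x) ^ R := by
    refine le_trans ?_ h1
    calc (N : ℝ) * (√(x : ℝ) * Y) ^ (2 * R)
        = ∑ _f ∈ (Om dd H).filter (fun f => √(x : ℝ) * Y < |∑ n ∈ Icc 1 x, c n * MM lam (fun j t => (P j).eval t) f (TT G n)|),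
          (√(x : ℝ) * Y) ^ (2 * R) := by
          rw [sum_const, nsmul_eq_mul, hN]
      _ ≤ ∑ f ∈ (Om dd H).filter (fun f => √(x : ℝ) * Y < |∑ n ∈ Icc 1 x, c n * MM lam (fun j t => (P j).eval t) f (TT G n)|),
          (∑ n ∈ Icc 1 x, c n * MM lam (fun j t => (P j).eval t) f (TT G n)) ^ (2 * R) := by
          apply sum_le_sum
          intro f hf
          have h2 := (mem_filter.1 hf).2
          rw [← Even.pow_abs ⟨R, by ring⟩ (∑ n ∈ Icc 1 x, c n * MM lam (fun j t => (P j).eval t) f (TT G n))]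
          exact pow_le_pow_left₀ hs.le h2.le _
      _ ≤ _ := by
          apply sum_le_sum_of_subset_of_nonneg (filter_subset _ _)
          intro f _ _
          exact Even.pow_nonneg ⟨R, by ring⟩ _
  have e1 : (√(x : ℝ) * Y) ^ (2 * R) = (x : ℝ) ^ R * Y ^ (2 * R) := by
    rw [mul_pow, pow_mul (√(x : ℝ)), Real.sq_sqrt hx0.le]
  rw [e1, mul_pow] at h2
  rw [← hN]
  have hxR : 0 < (x : ℝ) ^ R := by positivity
  have hYR : 0 < Y ^ (2 * R) := by positivity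
  rw [← mul_div_assoc, le_div_iff₀ hYR]
  have h3 : (x : ℝ) ^ R * (N * Y ^ (2 * R)) ≤ (x : ℝ) ^ R * (NN dd H * KC dd D R ^ R) := by linarith
  exact le_of_mul_le_mul_left h3 hxR

open Classical in
theorem uniF (r k D Dm E R A : ℕ) (dd : Fin r → ℕ) (hR : 1 ≤ R) (hd : ∀ j, R * k ≤ dd j) (ε c : ℝ) (hc0 : 0 ≤ c)
    (hc : (kap r k D E A : ℝ) + c < 2 * R * ε) : ∃ H0 : ℕ, ∀ H : ℕ, H0 ≤ H → ∀ P : Fin r → ℤ[X],
    (((Om dd H).filter (fun f => ¬ ∀ G : Fin r → Finset ℤ[X], AdmG dd k Dm H A P G → (∀ j, ∀ g ∈ G j, g.natDegree ≤ D) →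
      ∀ q : ℝ[X], q.natDegree ≤ E → ∀ x : ℕ, (x : ℝ) ≤ Real.log H ^ A →
      ‖∑ n ∈ Icc 1 x, ee (q.eval (n : ℝ)) * ((lam ((qq G P f).eval (n : ℤ)) : ℝ) : ℂ)‖ ≤ √(x : ℝ) * Real.log H ^ ε)).card : ℝ) ≤
      NN dd H / Real.log H ^ c := by
  have hR' : (1 : ℝ) ≤ R := by exact_mod_cast hR
  obtain ⟨ε', hε'⟩ : ∃ ε' : ℝ, ε' = ((kap r k D E A : ℝ) + c) / (2 * R) := ⟨_, rfl⟩
  have hε'R : 2 * R * ε' = (kap r k D E A : ℝ) + c := by rw [hε']; field_simp
  have hεε : 0 < ε - ε' := by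
    have : 2 * R * ε' < 2 * R * ε := by rw [hε'R]; exact hc
    have := lt_of_mul_lt_mul_left this (by positivity)
    linarith
  obtain ⟨n0, h0⟩ := one_test r dd k Dm A R hR hd
  obtain ⟨n1, h1⟩ := GN_le r k D A
  obtain ⟨n2, h2⟩ := ev_L' (2 * Real.pi * (E + 1) + 2 * KC dd Dm R ^ R + 2)
  obtain ⟨n3, h3⟩ := ev_rpow (4 * CG dd Dm + 3) (ε - ε') hεε
  refine ⟨max (max n0 n1) (max n2 n3), fun H hH P => ?_⟩
  have hn0 : n0 ≤ H := ((le_max_left _ _).trans (le_max_left _ _)).trans hH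
  have hn1 : n1 ≤ H := ((le_max_right _ _).trans (le_max_left _ _)).trans hH
  have a2 := h2 H (((le_max_left _ _).trans (le_max_right _ _)).trans hH)
  have a3 := h3 H (((le_max_right _ _).trans (le_max_right _ _)).trans hH)
  have a0 := fun G => h0 H hn0 P G
  have a1 := h1 H hn1
  obtain ⟨L, hLd⟩ : ∃ L, L = Real.log H := ⟨_, rfl⟩
  rw [← hLd] at a0 a1 a2 a3 ⊢
  have hKC : 1 ≤ KC dd Dm R := KC_one dd Dm R hR
  have hKR : 1 ≤ KC dd Dm R ^ R := one_le_pow₀ hKC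
  have hpi : 0 < 2 * Real.pi * ((E : ℝ) + 1) := by positivity
  have hL2 : 2 ≤ L := by linarith
  have hL1 : 1 ≤ L := by linarith
  have hL0 : 0 < L := by linarith
  obtain ⟨Q, hQ⟩ : ∃ Q : ℕ, Q = ⌈L ^ (A * (E + 1) + 1)⌉₊ := ⟨_, rfl⟩
  have hQ1 : L ^ (A * (E + 1) + 1) ≤ Q := by rw [hQ]; exact Nat.le_ceil _
  have hQp : 1 ≤ Q := by
    have : (1 : ℝ) ≤ Q := (one_le_pow₀ hL1).trans hQ1
    exact_mod_cast this
  have hQ2 : (Q : ℝ) ≤ L ^ (A * (E + 1) + 2) := by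
    have h4 : (Q : ℝ) ≤ L ^ (A * (E + 1) + 1) + 1 := by rw [hQ]; exact (Nat.ceil_lt_add_one (by positivity)).le
    have h5 : 1 ≤ L ^ (A * (E + 1) + 1) := one_le_pow₀ hL1
    calc (Q : ℝ) ≤ 2 * L ^ (A * (E + 1) + 1) := by linarith
      _ ≤ L * L ^ (A * (E + 1) + 1) := by gcongr
      _ = _ := by rw [← pow_succ']
  obtain ⟨m, hm⟩ : ∃ m : ℕ, m = ⌊L ^ A⌋₊ := ⟨_, rfl⟩
  have hmL : (m : ℝ) ≤ L ^ A := by rw [hm]; exact Nat.floor_le (by positivity)
  rw [← hm] at a1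
  obtain ⟨Y, hY⟩ : ∃ Y : ℝ, Y = L ^ ε' := ⟨_, rfl⟩
  have hY0 : 0 < Y := by rw [hY]; positivity
  obtain ⟨GG, hGG⟩ : ∃ GG, GG = (GN r k D m).filter (fun G => AdmG dd k Dm H A P G) := ⟨_, rfl⟩
  obtain ⟨BB, hBB⟩ : ∃ BB, BB = Fintype.piFinset (fun _ : Fin (E + 1) => range Q) := ⟨_, rfl⟩
  obtain ⟨F1, hF1⟩ : ∃ F1 : (Fin r → Finset ℤ[X]) → ℕ → (Fin (E + 1) → ℕ) → Finset ((j : Fin r) → (Fin (dd j + 1) → ℤ)),
    F1 = fun G (x : ℕ) b => (Om dd H).filter (fun f => √(x : ℝ) * Y <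
      |∑ n ∈ Icc 1 x, Real.cos (2 * Real.pi * gph E Q b n) * MM lam (fun j t => (P j).eval t) f (TT G n)|) := ⟨_, rfl⟩
  obtain ⟨F2, hF2⟩ : ∃ F2 : (Fin r → Finset ℤ[X]) → ℕ → (Fin (E + 1) → ℕ) → Finset ((j : Fin r) → (Fin (dd j + 1) → ℤ)),
    F2 = fun G (x : ℕ) b => (Om dd H).filter (fun f => √(x : ℝ) * Y <
      |∑ n ∈ Icc 1 x, Real.sin (2 * Real.pi * gph E Q b n) * MM lam (fun j t => (P j).eval t) f (TT G n)|) := ⟨_, rfl⟩
  have hsub : (Om dd H).filter (fun f => ¬ ∀ G : Fin r → Finset ℤ[X], AdmG dd k Dm H A P G → (∀ j, ∀ g ∈ G j, g.natDegree ≤ D) →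
      ∀ q : ℝ[X], q.natDegree ≤ E → ∀ x : ℕ, (x : ℝ) ≤ L ^ A →
      ‖∑ n ∈ Icc 1 x, ee (q.eval (n : ℝ)) * ((lam ((qq G P f).eval (n : ℤ)) : ℝ) : ℂ)‖ ≤ √(x : ℝ) * L ^ ε) ⊆
      GG.biUnion (fun G => (Icc 1 m).biUnion (fun x => BB.biUnion (fun b => F1 G x b ∪ F2 G x b))) := by
    intro f hf
    rw [mem_filter] at hf
    obtain ⟨hfO, hf⟩ := hf
    by_contra hcon
    apply hf
    intro G hG hGD q hq x hx
    rcases Nat.eq_zero_or_pos x with h00 | hx1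
    · subst h00
      simp
    have hxr : (1 : ℝ) ≤ x := by exact_mod_cast hx1
    have hGm : G ∈ GG := by
      rw [hGG, mem_filter]
      refine ⟨?_, hG⟩
      rw [hm]
      exact mem_GN hG.card hGD (fun j g hg i => by rw [hLd]; exact hG.small.coefG j g hg i)
    have hxm : x ∈ Icc 1 m := by
      rw [mem_Icc, hm]
      exact ⟨hx1, Nat.le_floor hx⟩
    obtain ⟨b, hb, hnear⟩ := phase_near E Q hQp q hq
    have hb' : b ∈ BB := by rw [hBB]; exact hb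
    have hnot : f ∉ F1 G x b ∧ f ∉ F2 G x b := by
      constructor
      · intro h
        apply hcon
        rw [mem_biUnion]
        refine ⟨G, hGm, ?_⟩
        rw [mem_biUnion]
        refine ⟨x, hxm, ?_⟩
        rw [mem_biUnion]
        exact ⟨b, hb', mem_union_left _ h⟩
      · intro h
        apply hcon
        rw [mem_biUnion]
        refine ⟨G, hGm, ?_⟩
        rw [mem_biUnion]
        refine ⟨x, hxm, ?_⟩
        rw [mem_biUnion]
        exact ⟨b, hb', mem_union_right _ h⟩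
    have b1 : |∑ n ∈ Icc 1 x, Real.cos (2 * Real.pi * gph E Q b n) * MM lam (fun j t => (P j).eval t) f (TT G n)| ≤ √(x : ℝ) * Y := by
      by_contra h
      apply hnot.1
      rw [hF1, mem_filter]
      exact ⟨hfO, not_le.1 h⟩
    have b2 : |∑ n ∈ Icc 1 x, Real.sin (2 * Real.pi * gph E Q b n) * MM lam (fun j t => (P j).eval t) f (TT G n)| ≤ √(x : ℝ) * Y := by
      by_contra h
      apply hnot.2
      rw [hF2, mem_filter]
      exact ⟨hfO, not_le.1 h⟩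
    have s1 := sum_close hG.ok P f (fun n => Real.cos (2 * Real.pi * gph E Q b n)) (fun n => Real.abs_cos_le_one _) x
    have s2 := sum_close hG.ok P f (fun n => Real.sin (2 * Real.pi * gph E Q b n)) (fun n => Real.abs_sin_le_one _) x
    have hCG0 : (0 : ℝ) ≤ CG dd Dm := Nat.cast_nonneg _
    have t1 : |∑ n ∈ Icc 1 x, Real.cos (2 * Real.pi * gph E Q b n) * lam ((qq G P f).eval (n : ℤ))| ≤ √(x : ℝ) * Y + 2 * CG dd Dm := by
      have := abs_sub_abs_le_abs_sub (∑ n ∈ Icc 1 x, Real.cos (2 * Real.pi * gph E Q b n) * lam ((qq G P f).eval (n : ℤ)))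
        (∑ n ∈ Icc 1 x, Real.cos (2 * Real.pi * gph E Q b n) * MM lam (fun j t => (P j).eval t) f (TT G n))
      linarith
    have t2 : |∑ n ∈ Icc 1 x, Real.sin (2 * Real.pi * gph E Q b n) * lam ((qq G P f).eval (n : ℤ))| ≤ √(x : ℝ) * Y + 2 * CG dd Dm := by
      have := abs_sub_abs_le_abs_sub (∑ n ∈ Icc 1 x, Real.sin (2 * Real.pi * gph E Q b n) * lam ((qq G P f).eval (n : ℤ)))
        (∑ n ∈ Icc 1 x, Real.sin (2 * Real.pi * gph E Q b n) * MM lam (fun j t => (P j).eval t) f (TT G n))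
      linarith
    have t3 := (norm_phase_sum (Icc 1 x) (gph E Q b) (fun n => lam ((qq G P f).eval (n : ℤ)))).trans (add_le_add t1 t2)
    -- the difference of the phases
    have t4 : ‖∑ n ∈ Icc 1 x, ee (q.eval (n : ℝ)) * ((lam ((qq G P f).eval (n : ℤ)) : ℝ) : ℂ) -
        ∑ n ∈ Icc 1 x, ee (gph E Q b n) * ((lam ((qq G P f).eval (n : ℤ)) : ℝ) : ℂ)‖ ≤ 1 := by
      rw [← sum_sub_distrib]
      refine (norm_sum_le _ _).trans ?_
      calc ∑ n ∈ Icc 1 x, ‖ee (q.eval (n : ℝ)) * ((lam ((qq G P f).eval (n : ℤ)) : ℝ) : ℂ) -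
            ee (gph E Q b n) * ((lam ((qq G P f).eval (n : ℤ)) : ℝ) : ℂ)‖ ≤ ∑ _n ∈ Icc 1 x, 2 * Real.pi * ((E + 1) * (x : ℝ) ^ E / Q) := by
            apply sum_le_sum
            intro n hn
            rw [mem_Icc] at hn
            rw [← sub_mul, norm_mul, Complex.norm_real, Real.norm_eq_abs]
            have h4 : (n : ℝ) ≤ x := by exact_mod_cast hn.2
            calc ‖ee (q.eval (n : ℝ)) - ee (gph E Q b n)‖ * |lam ((qq G P f).eval (n : ℤ))|
                ≤ (2 * Real.pi * ((E + 1) * (n : ℝ) ^ E / Q)) * 1 :=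
                  mul_le_mul (hnear n hn.1) (lam_abs _) (abs_nonneg _) (by positivity)
              _ = 2 * Real.pi * ((E + 1) * (n : ℝ) ^ E / Q) := mul_one _
              _ ≤ _ := by gcongr
        _ = 2 * Real.pi * (E + 1) * (x : ℝ) ^ (E + 1) / Q := by
            rw [sum_const, Nat.card_Icc, Nat.add_sub_cancel, nsmul_eq_mul]
            ring
        _ ≤ 1 := by
            have hQr : (0 : ℝ) < Q := by exact_mod_cast hQp
            rw [div_le_one hQr]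
            refine le_trans ?_ hQ1
            have h4 : (x : ℝ) ^ (E + 1) ≤ L ^ (A * (E + 1)) := by
              rw [pow_mul]
              exact pow_le_pow_left₀ (by positivity) hx _
            calc 2 * Real.pi * (E + 1) * (x : ℝ) ^ (E + 1) ≤ L * L ^ (A * (E + 1)) := by
                  apply mul_le_mul _ h4 (by positivity) hL0.le
                  linarith
              _ = _ := by rw [← pow_succ']
    have t5 : ‖∑ n ∈ Icc 1 x, ee (q.eval (n : ℝ)) * ((lam ((qq G P f).eval (n : ℤ)) : ℝ) : ℂ)‖ ≤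
        1 + (√(x : ℝ) * Y + 2 * CG dd Dm + (√(x : ℝ) * Y + 2 * CG dd Dm)) := by
      have := norm_sub_norm_le (∑ n ∈ Icc 1 x, ee (q.eval (n : ℝ)) * ((lam ((qq G P f).eval (n : ℤ)) : ℝ) : ℂ))
        (∑ n ∈ Icc 1 x, ee (gph E Q b n) * ((lam ((qq G P f).eval (n : ℤ)) : ℝ) : ℂ))
      linarith
    refine t5.trans ?_
    have hs1 : 1 ≤ √(x : ℝ) := by rw [Real.one_le_sqrt]; exact hxr
    have e9 : L ^ ε = Y * L ^ (ε - ε') := by
      rw [hY, ← Real.rpow_add hL0]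
      congr 1
      ring
    have hY1 : 1 ≤ Y := by
      rw [hY]
      apply Real.one_le_rpow hL1
      rw [hε']
      positivity
    rw [e9]
    calc 1 + (√(x : ℝ) * Y + 2 * CG dd Dm + (√(x : ℝ) * Y + 2 * CG dd Dm))
        = 2 * (√(x : ℝ) * Y) + (4 * CG dd Dm + 1) * 1 := by ring
      _ ≤ 2 * (√(x : ℝ) * Y) + (4 * CG dd Dm + 1) * (√(x : ℝ) * Y) := by
          have : 1 ≤ √(x : ℝ) * Y := by nlinarith
          gcongr
      _ = √(x : ℝ) * (Y * (4 * CG dd Dm + 3)) := by ring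
      _ ≤ √(x : ℝ) * (Y * L ^ (ε - ε')) := by gcongr
  -- the count
  have hYR : Y ^ (2 * R) = L ^ ((kap r k D E A : ℝ) + c) := by
    rw [hY, ← Real.rpow_natCast, ← Real.rpow_mul hL0.le, ← hε'R]
    congr 1
    push_cast
    ring
  obtain ⟨Z, hZ⟩ : ∃ Z : ℝ, Z = NN dd H * (KC dd Dm R ^ R / Y ^ (2 * R)) := ⟨_, rfl⟩
  have hZ0 : 0 ≤ Z := by
    rw [hZ]
    have := (NN_pos dd H).le
    positivity
  have hone : ∀ G ∈ GG, ∀ x ∈ Icc 1 m, ∀ b ∈ BB, ((F1 G x b ∪ F2 G x b).card : ℝ) ≤ 2 * Z := by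
    intro G hG x hx b _
    rw [hGG, mem_filter] at hG
    rw [mem_Icc] at hx
    have hxm : (x : ℝ) ≤ L ^ A := by
      have : (x : ℝ) ≤ m := by exact_mod_cast hx.2
      linarith
    have c1 := a0 G hG.2 x hx.1 hxm (fun n => Real.cos (2 * Real.pi * gph E Q b n)) (fun n => Real.abs_cos_le_one _) Y hY0
    have c2 := a0 G hG.2 x hx.1 hxm (fun n => Real.sin (2 * Real.pi * gph E Q b n)) (fun n => Real.abs_sin_le_one _) Y hY0
    have h4 : ((F1 G x b ∪ F2 G x b).card : ℝ) ≤ (F1 G x b).card + (F2 G x b).card := by exact_mod_cast card_union_le _ _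
    refine h4.trans ?_
    rw [hF1, hF2, hZ]
    simp only
    linarith
  have hcount : ((GG.biUnion (fun G => (Icc 1 m).biUnion (fun x => BB.biUnion (fun b => F1 G x b ∪ F2 G x b)))).card : ℝ) ≤
      GG.card * (m * (BB.card * (2 * Z))) := by
    have h4 : ((GG.biUnion (fun G => (Icc 1 m).biUnion (fun x => BB.biUnion (fun b => F1 G x b ∪ F2 G x b)))).card : ℝ) ≤
        ∑ G ∈ GG, ∑ x ∈ Icc 1 m, ∑ b ∈ BB, ((F1 G x b ∪ F2 G x b).card : ℝ) := by
      have h5 := card_biUnion_le (s := GG) (t := fun G => (Icc 1 m).biUnion (fun x => BB.biUnion (fun b => F1 G x b ∪ F2 G x b)))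
      have h6 : ∑ G ∈ GG, ((Icc 1 m).biUnion (fun x => BB.biUnion (fun b => F1 G x b ∪ F2 G x b))).card ≤
          ∑ G ∈ GG, ∑ x ∈ Icc 1 m, ∑ b ∈ BB, (F1 G x b ∪ F2 G x b).card :=
        sum_le_sum fun G _ => card_biUnion_le.trans (sum_le_sum fun x _ => card_biUnion_le)
      exact_mod_cast h5.trans h6
    refine h4.trans ?_
    calc ∑ G ∈ GG, ∑ x ∈ Icc 1 m, ∑ b ∈ BB, ((F1 G x b ∪ F2 G x b).card : ℝ)
        ≤ ∑ _G ∈ GG, ∑ _x ∈ Icc 1 m, ∑ _b ∈ BB, (2 * Z) :=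
          sum_le_sum fun G hG => sum_le_sum fun x hx => sum_le_sum fun b hb => hone G hG x hx b hb
      _ = _ := by
          rw [sum_const, sum_const, sum_const, Nat.card_Icc, Nat.add_sub_cancel]
          simp only [nsmul_eq_mul]
  refine (Nat.cast_le.2 (card_le_card hsub)).trans (hcount.trans ?_)
  have g1 : (GG.card : ℝ) ≤ L ^ (r * k * (D + 1) * A + 1) := by
    have : GG.card ≤ (GN r k D m).card := by rw [hGG]; exact card_filter_le _ _
    have h4 : (GG.card : ℝ) ≤ ((GN r k D m).card : ℝ) := by exact_mod_cast this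
    linarith
  have g2 : (BB.card : ℝ) ≤ L ^ ((E + 1) * (A * (E + 1) + 2)) := by
    rw [hBB, Fintype.card_piFinset, prod_const, card_univ, Fintype.card_fin, card_range]
    push_cast
    calc (Q : ℝ) ^ (E + 1) ≤ (L ^ (A * (E + 1) + 2)) ^ (E + 1) := pow_le_pow_left₀ (Nat.cast_nonneg _) hQ2 _
      _ = _ := by rw [← pow_mul]; congr 1; ring
  have g3 : 2 * KC dd Dm R ^ R ≤ L := by linarith
  have hNN := (NN_pos dd H).le
  have hkap : L ^ (r * k * (D + 1) * A + 1) * (L ^ A * (L ^ ((E + 1) * (A * (E + 1) + 2)) * L)) = L ^ (kap r k D E A : ℝ) := by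
    rw [Real.rpow_natCast, ← pow_succ, ← pow_add, ← pow_add]
    congr 1
    unfold kap
    ring
  calc (GG.card : ℝ) * (m * (BB.card * (2 * Z)))
      = (GG.card * (m * (BB.card * (2 * KC dd Dm R ^ R)))) * (NN dd H / Y ^ (2 * R)) := by rw [hZ]; ring
    _ ≤ (L ^ (r * k * (D + 1) * A + 1) * (L ^ A * (L ^ ((E + 1) * (A * (E + 1) + 2)) * L))) * (NN dd H / Y ^ (2 * R)) := by
        apply mul_le_mul_of_nonneg_right _ (by positivity)
        apply mul_le_mul g1 _ (by positivity) (by positivity)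
        apply mul_le_mul hmL _ (by positivity) (by positivity)
        exact mul_le_mul g2 g3 (by positivity) (by positivity)
    _ = NN dd H / L ^ c := by
        rw [hkap, hYR, Real.rpow_add hL0]
        have h5 : L ^ (kap r k D E A : ℝ) ≠ 0 := (Real.rpow_pos_of_pos hL0 _).ne'
        have h6 : L ^ c ≠ 0 := (Real.rpow_pos_of_pos hL0 _).ne'
        field_simp

end Pool.Agent.T9h23.Li
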