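import Mathlib
import Pool.Agent.T9h23.Li.C2

/-! Correlations at `2 d + 1` points of a random polynomial of degree `d`: a function with small exponential sums at one
value, and two arbitrary functions of the values at two sets of at most `d` points. -/

set_option autoImplicit false

namespace Pool.Agent.T9h23.Li
open Finset Polynomial
open Pool.Agent.H807R2.Dav
open Pool.Agent.H373R2.T7
open Pool.Agent.T9h23.Cor

/-- the product of the factors -/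
noncomputable def Psg {n : ℕ} (h : ℤ → ℝ) (P : ℤ → ℤ) (t0 : ℤ) (F1 F2 : (Fin n → ℤ) → ℝ) (f : Fin n → ℤ) : ℝ :=
  h (fv P f t0) * (F1 f * F2 f)

theorem coreG {d : ℕ} (h : ℤ → ℝ) (H M T0 X : ℕ) (hM1 : 1 ≤ M) (K K0 Δ : ℝ) (hK : 0 ≤ K) (P : ℤ → ℤ) (t0 : ℤ) (S T : Finset ℤ)
    (hS : S.card ≤ d) (hT : T.card ≤ d) (h0S : t0 ∉ S) (h0T : t0 ∉ T)
    (hS0 : ∀ s ∈ S, |s| ≤ (T0 : ℤ)) (hT0 : ∀ s ∈ T, |s| ≤ (T0 : ℤ)) (F1 F2 : (Fin (d + 1) → ℤ) → ℝ)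
    (hF1 : ∀ f f' : Fin (d + 1) → ℤ, (∀ t ∈ S, fv P f t = fv P f' t) → F1 f = F1 f')
    (hF2 : ∀ f f' : Fin (d + 1) → ℤ, (∀ t ∈ T, fv P f t = fv P f' t) → F2 f = F2 f')
    (hM : 2 * M * (1 + T0) ^ d ≤ H)
    (hX : ∀ f : Fin (d + 1) → ℤ, (∀ i, |f i| ≤ 2 * (H : ℤ)) → |fv P f t0| ≤ X)
    (hFS : ∀ f : Fin (d + 1) → ℤ, |F1 f| ≤ K)
    (hFT : ∀ f : Fin (d + 1) → ℤ, |F2 f| ≤ K)
    (hL : ∀ f : Fin (d + 1) → ℤ, (∀ i, |f i| ≤ 2 * (H : ℤ)) → |h (fv P f t0)| ≤ K0)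
    (hΔ : ∀ θ : ℝ, ‖∑ u ∈ Icc (-(X : ℤ)) X, ((h u : ℝ) : ℂ) * ee ((u : ℝ) * θ)‖ ≤ Δ) :
    |∑ f ∈ Box (d + 1) H, Psg h P t0 F1 F2 f| ≤
      (2 * H + 1) ^ (d + 1) * (Δ * K ^ 2) / M + 2 * (K0 * K ^ 2) * ((d + 1) * (2 * M * (1 + T0) ^ d)) * (2 * H + 1) ^ d := by
  have hsv : ∀ a b : ℕ, a ≤ M → b ≤ M → ∀ i, |sv d S T a b i| ≤ (H : ℤ) := by
    intro a b ha hb i
    refine (sv_le hS hT T0 hS0 hT0 M a b ha hb i).trans ?_
    exact_mod_cast hM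
  have hBB : ∀ f : Fin (d + 1) → ℤ, (∀ i, |f i| ≤ 2 * (H : ℤ)) → |Psg h P t0 F1 F2 f| ≤ K0 * K ^ 2 := by
    intro f hf
    unfold Psg
    rw [abs_mul, abs_mul, pow_two]
    have h1 : 0 ≤ K0 := (abs_nonneg _).trans (hL f hf)
    exact mul_le_mul (hL f hf) (mul_le_mul (hFS f) (hFT f) (abs_nonneg _) hK) (by positivity) h1
  have hsum : ∀ a b : ℕ, a ≤ M → b ≤ M →
      |∑ f ∈ Box (d + 1) H, Psg h P t0 F1 F2 (f + sv d S T a b) - ∑ f ∈ Box (d + 1) H, Psg h P t0 F1 F2 f| ≤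
      2 * (K0 * K ^ 2) * ((d + 1) * (2 * M * (1 + T0) ^ d)) * (2 * H + 1) ^ d := by
    intro a b ha hb
    refine (shift_sum H (sv d S T a b) (hsv a b ha hb) _ _ hBB).trans ?_
    have h1 : ((∑ i, (sv d S T a b i).natAbs : ℕ) : ℝ) ≤ (d + 1) * (2 * M * (1 + T0) ^ d) := by
      push_cast
      have h2 : ∀ i ∈ (univ : Finset (Fin (d + 1))), (((sv d S T a b i).natAbs : ℕ) : ℝ) ≤ 2 * M * (1 + T0) ^ d := by
        intro i _
        have h3 := sv_le hS hT T0 hS0 hT0 M a b ha hb i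
        rw [Nat.cast_natAbs]
        exact_mod_cast h3
      refine (sum_le_sum h2).trans (le_of_eq ?_)
      rw [sum_const, card_univ, Fintype.card_fin, nsmul_eq_mul]
      push_cast
      ring
    have h4 : 0 ≤ K0 * K ^ 2 := (abs_nonneg _).trans (hBB 0 (fun i => by simp))
    gcongr
  -- the double sum
  have hdouble : ∀ f ∈ Box (d + 1) H, |∑ a ∈ Icc 1 M, ∑ b ∈ Icc 1 M, Psg h P t0 F1 F2 (f + sv d S T a b)| ≤ Δ * (M * K ^ 2) := by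
    intro f hf
    rw [mem_Box] at hf
    have hbig : ∀ a b : ℕ, a ≤ M → b ≤ M → ∀ i, |(f + sv d S T a b) i| ≤ 2 * (H : ℤ) := by
      intro a b ha hb i
      rw [Pi.add_apply]
      have := hsv a b ha hb i
      have := hf i
      exact (abs_add_le _ _).trans (by linarith)
    have h1 := doubleH h X M Δ K hK hΔ (fv P f t0) ((wp S).eval t0) ((wp T).eval t0) (wp_eval_ne h0S) (wp_eval_ne h0T)
      (fun a => F2 (f + sv d S T a 0)) (fun b => F1 (f + sv d S T 0 b))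
      (fun a _ => hFT _)
      (fun b _ => hFS _)
      (fun a ha b hb => by
        rw [← fv_sv hS hT]
        exact hX _ (hbig a b (mem_Icc.1 ha).2 (mem_Icc.1 hb).2))
    refine le_trans (le_of_eq ?_) h1
    congr 1
    refine sum_congr rfl fun a _ => sum_congr rfl fun b _ => ?_
    unfold Psg
    have e1 : F2 (f + sv d S T a b) = F2 (f + sv d S T a 0) := by
      apply hF2
      intro t ht
      rw [fv_sv hS hT, fv_sv hS hT, wp_eval_mem ht]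
      simp
    have e2 : F1 (f + sv d S T a b) = F1 (f + sv d S T 0 b) := by
      apply hF1
      intro t ht
      rw [fv_sv hS hT, fv_sv hS hT, wp_eval_mem ht]
      simp
    rw [e1, e2, fv_sv hS hT P f a b t0]
    ring
  have hM0 : (0 : ℝ) < M := by exact_mod_cast hM1
  -- combine
  have hcomb : (M : ℝ) ^ 2 * |∑ f ∈ Box (d + 1) H, Psg h P t0 F1 F2 f| ≤
      (2 * H + 1) ^ (d + 1) * (Δ * (M * K ^ 2)) +
        (M : ℝ) ^ 2 * (2 * (K0 * K ^ 2) * ((d + 1) * (2 * M * (1 + T0) ^ d)) * (2 * H + 1) ^ d) := by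
    have h1 : (M : ℝ) ^ 2 * ∑ f ∈ Box (d + 1) H, Psg h P t0 F1 F2 f =
        ∑ a ∈ Icc 1 M, ∑ b ∈ Icc 1 M, ∑ f ∈ Box (d + 1) H, Psg h P t0 F1 F2 f := by
      rw [sum_const, sum_const, Nat.card_Icc, Nat.add_sub_cancel, nsmul_eq_mul, nsmul_eq_mul]
      ring
    have h2 : (M : ℝ) ^ 2 * ∑ f ∈ Box (d + 1) H, Psg h P t0 F1 F2 f =
        ∑ f ∈ Box (d + 1) H, ∑ a ∈ Icc 1 M, ∑ b ∈ Icc 1 M, Psg h P t0 F1 F2 (f + sv d S T a b) -
        ∑ a ∈ Icc 1 M, ∑ b ∈ Icc 1 M, (∑ f ∈ Box (d + 1) H, Psg h P t0 F1 F2 (f + sv d S T a b) -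
          ∑ f ∈ Box (d + 1) H, Psg h P t0 F1 F2 f) := by
      rw [h1]
      simp only [sum_sub_distrib]
      have h3 : ∑ f ∈ Box (d + 1) H, ∑ a ∈ Icc 1 M, ∑ b ∈ Icc 1 M, Psg h P t0 F1 F2 (f + sv d S T a b) =
          ∑ a ∈ Icc 1 M, ∑ b ∈ Icc 1 M, ∑ f ∈ Box (d + 1) H, Psg h P t0 F1 F2 (f + sv d S T a b) := by
        rw [sum_comm]
        refine sum_congr rfl fun a _ => ?_
        rw [sum_comm]
      rw [h3]
      ring
    have h4 : (M : ℝ) ^ 2 * |∑ f ∈ Box (d + 1) H, Psg h P t0 F1 F2 f| =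
        |(M : ℝ) ^ 2 * ∑ f ∈ Box (d + 1) H, Psg h P t0 F1 F2 f| := by
      rw [abs_mul, abs_of_nonneg (by positivity : (0 : ℝ) ≤ (M : ℝ) ^ 2)]
    rw [h4, h2]
    refine (abs_sub _ _).trans (add_le_add ?_ ?_)
    · refine (abs_sum_le_sum_abs _ _).trans ((sum_le_sum hdouble).trans (le_of_eq ?_))
      rw [sum_const, card_Box, nsmul_eq_mul]
      push_cast
      ring
    · refine (abs_sum_le_sum_abs _ _).trans ?_
      have h5 : ∀ a ∈ Icc 1 M, |∑ b ∈ Icc 1 M, (∑ f ∈ Box (d + 1) H, Psg h P t0 F1 F2 (f + sv d S T a b) -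
          ∑ f ∈ Box (d + 1) H, Psg h P t0 F1 F2 f)| ≤
          M * (2 * (K0 * K ^ 2) * ((d + 1) * (2 * M * (1 + T0) ^ d)) * (2 * H + 1) ^ d) := by
        intro a ha
        refine (abs_sum_le_sum_abs _ _).trans ?_
        refine (sum_le_sum fun b hb => hsum a b (mem_Icc.1 ha).2 (mem_Icc.1 hb).2).trans (le_of_eq ?_)
        rw [sum_const, Nat.card_Icc, Nat.add_sub_cancel, nsmul_eq_mul]
      refine (sum_le_sum h5).trans (le_of_eq ?_)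
      rw [sum_const, Nat.card_Icc, Nat.add_sub_cancel, nsmul_eq_mul]
      ring
  have hM2 : (0 : ℝ) < (M : ℝ) ^ 2 := by positivity
  have h6 : (M : ℝ) ^ 2 * |∑ f ∈ Box (d + 1) H, Psg h P t0 F1 F2 f| ≤ (M : ℝ) ^ 2 *
      ((2 * H + 1) ^ (d + 1) * (Δ * K ^ 2) / M + 2 * (K0 * K ^ 2) * ((d + 1) * (2 * M * (1 + T0) ^ d)) * (2 * H + 1) ^ d) := by
    refine hcomb.trans (le_of_eq ?_)
    field_simp
  exact le_of_mul_le_mul_left h6 hM2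



theorem corr_g (h : ℤ → ℝ) (hb : ∀ u, |h u| ≤ 1) (hs : SS h) (d A U : ℕ) : ∃ H0 : ℕ, ∀ H : ℕ, H0 ≤ H →
    ∀ (T0 : ℕ) (P : ℤ → ℤ), (T0 : ℝ) ≤ Real.log H ^ A → (∀ t : ℤ, |t| ≤ T0 → |(P t : ℝ)| ≤ H * Real.log H ^ A) →
    ∀ (S T : Finset ℤ) (t0 : ℤ), t0 ∉ S → t0 ∉ T → S.card ≤ d → T.card ≤ d → |t0| ≤ T0 → (∀ t ∈ S, |t| ≤ T0) →
    (∀ t ∈ T, |t| ≤ T0) → ∀ F1 F2 : (Fin (d + 1) → ℤ) → ℝ,
    (∀ f f' : Fin (d + 1) → ℤ, (∀ t ∈ S, fv P f t = fv P f' t) → F1 f = F1 f') →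
    (∀ f f' : Fin (d + 1) → ℤ, (∀ t ∈ T, fv P f t = fv P f' t) → F2 f = F2 f') →
    (∀ f, |F1 f| ≤ 1) → (∀ f, |F2 f| ≤ 1) →
    |∑ f ∈ Box (d + 1) H, Psg h P t0 F1 F2 f| ≤ (2 * H + 1) ^ (d + 1) / Real.log H ^ U := by
  classical
  obtain ⟨B1, hB1⟩ : ∃ B1 : ℕ, B1 = 0 := ⟨_, rfl⟩
  obtain ⟨C2, hC2⟩ : ∃ C, C = A * d + A + 1 := ⟨_, rfl⟩
  obtain ⟨C1, hC1⟩ : ∃ C, C = 2 * (B1 * d) + (A + 1) * d + U + 2 := ⟨_, rfl⟩
  obtain ⟨U', hU'⟩ : ∃ C, C = C2 + C1 + 2 * (B1 * d) + U + 1 := ⟨_, rfl⟩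
  obtain ⟨N0, h0⟩ := hs U'
  obtain ⟨N2, h2⟩ := ev_L' (max 16 (24 * ((d : ℝ) + 1)))
  obtain ⟨N3, h3⟩ := ev_log' C2 4
  obtain ⟨N4, h4⟩ := ev_log' C1 2
  refine ⟨max N0 (max (max N2 N3) (max N4 4)), fun H hH T0 P hT0 hP S T t0 h0S h0T hSc hTc ht0T hST hTT F1 F2 hF1 hF2 hF1b hF2b => ?_⟩
  have hN0 : N0 ≤ H := (le_max_left _ _).trans hH
  have hN2 : N2 ≤ H := (((le_max_left _ _).trans (le_max_left _ _)).trans (le_max_right _ _)).trans hH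
  have hN3 : N3 ≤ H := (((le_max_right _ _).trans (le_max_left _ _)).trans (le_max_right _ _)).trans hH
  have hN4 : N4 ≤ H := (((le_max_left _ _).trans (le_max_right _ _)).trans (le_max_right _ _)).trans hH
  have hH4 : 4 ≤ H := (((le_max_right _ _).trans (le_max_right _ _)).trans (le_max_right _ _)).trans hH
  have hHr : (4 : ℝ) ≤ H := by exact_mod_cast hH4
  have hH0 : (0 : ℝ) < H := by linarith
  have hsq : √(H : ℝ) ≤ H := by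
    rw [Real.sqrt_le_left hH0.le]; nlinarith
  obtain ⟨L, hLd⟩ : ∃ L, L = Real.log H := ⟨_, rfl⟩
  rw [← hLd] at hT0 hP ⊢
  have hLm := h2 H hN2
  rw [← hLd] at hLm
  have hL16 : 16 ≤ L := (le_max_left _ _).trans hLm
  have hL24 : 24 * ((d : ℝ) + 1) ≤ L := (le_max_right _ _).trans hLm
  have hL0 : 0 < L := by linarith
  have hL1 : 1 ≤ L := by linarith
  have h3' := (h3 H hN3).trans hsq
  have h4' := (h4 H hN4).trans hsq
  rw [← hLd] at h3' h4'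
  have hd0 : (0 : ℝ) ≤ d := Nat.cast_nonneg d
  have hL2d : (2 * d + 3 : ℝ) ≤ L := by linarith
  -- `X`
  obtain ⟨X, hXd⟩ : ∃ X : ℕ, X = ⌈(H : ℝ) * L ^ C2⌉₊ := ⟨_, rfl⟩
  have hLC2 : 1 ≤ L ^ C2 := one_le_pow₀ hL1
  have hX1 : (H : ℝ) * L ^ C2 ≤ X := by rw [hXd]; exact Nat.le_ceil _
  have hX2 : (X : ℝ) ≤ H * L ^ C2 + 1 := by rw [hXd]; exact (Nat.ceil_lt_add_one (by positivity)).le
  have hX3 : (X : ℝ) ≤ 2 * (H * L ^ C2) := by nlinarith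
  have hX4 : (X : ℝ) ≤ H ^ 2 := by
    have : 2 * (H * L ^ C2) ≤ (H : ℝ) * H := by nlinarith
    nlinarith
  have hXH : (H : ℝ) ≤ X := by nlinarith
  have hXHn : H ≤ X := by exact_mod_cast hXH
  have hlog1 : L ≤ Real.log X := by rw [hLd]; exact Real.log_le_log hH0 hXH
  have hlog2 : Real.log X ≤ 2 * L := by
    have : Real.log X ≤ Real.log ((H : ℝ) ^ 2) := Real.log_le_log (by linarith) hX4
    rw [Real.log_pow, ← hLd] at this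
    exact_mod_cast this
  have hsup := h0 X (hN0.trans hXHn)
  -- `M`
  obtain ⟨M, hMd⟩ : ∃ M : ℕ, M = ⌊(H : ℝ) / L ^ C1⌋₊ := ⟨_, rfl⟩
  have hLC1 : 0 < L ^ C1 := by positivity
  have hx2 : 2 ≤ (H : ℝ) / L ^ C1 := by
    rw [le_div_iff₀ hLC1]; exact h4'
  have hM1 : (M : ℝ) ≤ H / L ^ C1 := by rw [hMd]; exact Nat.floor_le (by positivity)
  have hM2 : (H : ℝ) / L ^ C1 < M + 1 := by rw [hMd]; exact Nat.lt_floor_add_one _
  have hMpos : (1 : ℝ) < M + 1 - 0 := by linarith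
  have hM1' : 1 ≤ M := by
    by_contra hcon
    have : M = 0 := by omega
    rw [this] at hM2
    push_cast at hM2
    linarith
  have hMr : (1 : ℝ) ≤ M := by exact_mod_cast hM1'
  have hM3 : (H : ℝ) / L ^ C1 ≤ 2 * M := by linarith
  have hT1 : (1 + (T0 : ℝ)) ^ d ≤ L ^ ((A + 1) * d) := by
    have h5 : 1 + (T0 : ℝ) ≤ L ^ (A + 1) := by
      have h6 : 1 ≤ L ^ A := one_le_pow₀ hL1
      calc 1 + (T0 : ℝ) ≤ L ^ A + L ^ A := by linarith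
        _ = 2 * L ^ A := by ring
        _ ≤ L * L ^ A := by gcongr; linarith
        _ = L ^ (A + 1) := by rw [pow_succ]; ring
    calc (1 + (T0 : ℝ)) ^ d ≤ (L ^ (A + 1)) ^ d := pow_le_pow_left₀ (by positivity) h5 _
      _ = L ^ ((A + 1) * d) := (pow_mul _ _ _).symm
  have hMH : 2 * M * (1 + T0) ^ d ≤ H := by
    have h5 : 2 * (M : ℝ) * (1 + T0) ^ d ≤ H := by
      calc 2 * (M : ℝ) * (1 + T0) ^ d ≤ 2 * (H / L ^ C1) * L ^ ((A + 1) * d) := by gcongr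
        _ = H * (2 * L ^ ((A + 1) * d) / L ^ C1) := by ring
        _ ≤ H * 1 := by
            apply mul_le_mul_of_nonneg_left _ hH0.le
            rw [div_le_one hLC1]
            calc 2 * L ^ ((A + 1) * d) ≤ L * L ^ ((A + 1) * d) := by gcongr; linarith
              _ = L ^ ((A + 1) * d + 1) := by rw [pow_succ]; ring
              _ ≤ L ^ C1 := pow_le_pow_right₀ hL1 (by omega)
        _ = H := mul_one _
    exact_mod_cast h5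
  -- values
  have hval : ∀ f : Fin (d + 1) → ℤ, (∀ i, |f i| ≤ 2 * (H : ℤ)) → ∀ t : ℤ, |t| ≤ T0 → |((fv P f t : ℤ) : ℝ)| ≤ H * L ^ C2 := by
    intro f hf t ht
    rw [hC2]
    exact fv_le H L A hL2d T0 hT0 P hP f hf t ht
  have hvalX : ∀ f : Fin (d + 1) → ℤ, (∀ i, |f i| ≤ 2 * (H : ℤ)) → ∀ t : ℤ, |t| ≤ T0 → |fv P f t| ≤ X := by
    intro f hf t ht
    have h5 := (hval f hf t ht).trans hX1
    have h6 : ((|fv P f t| : ℤ) : ℝ) ≤ ((X : ℤ) : ℝ) := by push_cast; exact h5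
    exact_mod_cast h6
  have hvalH : ∀ f : Fin (d + 1) → ℤ, (∀ i, |f i| ≤ 2 * (H : ℤ)) → ∀ t : ℤ, |t| ≤ T0 → |fv P f t| ≤ (H : ℤ) ^ 2 := by
    intro f hf t ht
    have h5 := ((hval f hf t ht).trans hX1).trans hX4
    have h6 : ((|fv P f t| : ℤ) : ℝ) ≤ (((H : ℤ) ^ 2 : ℤ) : ℝ) := by push_cast; exact h5
    exact_mod_cast h6
  have hLam : ∀ f : Fin (d + 1) → ℤ, (∀ i, |f i| ≤ 2 * (H : ℤ)) → |h (fv P f t0)| ≤ 3 * L := by
    intro f _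
    exact (hb _).trans (by linarith)
  have hone : (1 : ℝ) ≤ L ^ (B1 * d) := by rw [hB1, zero_mul, pow_zero]
  have hmain := coreG h H M T0 X hM1' (L ^ (B1 * d)) (3 * L) (2 * (X / Real.log X ^ U')) (by positivity) P t0 S T hSc hTc
    h0S h0T hST hTT F1 F2 hF1 hF2 hMH
    (fun f hf => hvalX f hf t0 ht0T) (fun f => (hF1b f).trans hone) (fun f => (hF2b f).trans hone) hLam hsup
  refine hmain.trans ?_
  refine num (H : ℝ) M L X (X / Real.log X ^ U') (L ^ (B1 * d)) T0 d C1 C2 B1 U U' ((A + 1) * d) hL16 hL24 hH0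
    (by linarith) hM1 hM3 hX3 ?_ rfl hT1 (Nat.cast_nonneg _) hC1 hU'
  gcongr


end Pool.Agent.T9h23.Li
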