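import Mathlib
import Pool.Agent.T9h23.Li.F1
import Pool.Agent.T9h23.Li.C3
import Pool.Agent.T9h23.BH.A4

/-! Pairs: the Liouville function at one value times an arbitrary function of the other values. -/

set_option autoImplicit false

namespace Pool.Agent.T9h23.Li
open Finset Polynomial
open Pool.Agent.H373R2.T7
open Pool.Agent.T9h23.Cor
open Pool.Agent.T9h23.BH

/-- changing one coordinate -/
lemma sum_update {ι : Type*} [Fintype ι] [DecidableEq ι] {κ : ι → Type*} [∀ i, DecidableEq (κ i)] (s : (i : ι) → Finset (κ i)) (i0 : ι)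
    (F : ((i : ι) → κ i) → ℝ) :
    ∑ f ∈ Fintype.piFinset s, ∑ g ∈ s i0, F (Function.update f i0 g) = (s i0).card * ∑ f ∈ Fintype.piFinset s, F f := by
  have h1 : ∑ f ∈ Fintype.piFinset s, ∑ g ∈ s i0, F (Function.update f i0 g) =
      ∑ q ∈ Fintype.piFinset s ×ˢ s i0, F (Function.update q.1 i0 q.2) := by
    rw [sum_product]
  have h2 : ∑ q ∈ Fintype.piFinset s ×ˢ s i0, F (Function.update q.1 i0 q.2) = ∑ q ∈ Fintype.piFinset s ×ˢ s i0, F q.1 := by
    apply sum_nbij' (fun q => (Function.update q.1 i0 q.2, q.1 i0)) (fun q => (Function.update q.1 i0 q.2, q.1 i0))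
    · intro q hq
      rw [mem_product, Fintype.mem_piFinset] at hq ⊢
      refine ⟨fun i => ?_, hq.1 i0⟩
      by_cases h : i = i0
      · subst h
        simp [hq.2]
      · simp only [Function.update_of_ne h]
        exact hq.1 i
    · intro q hq
      rw [mem_product, Fintype.mem_piFinset] at hq ⊢
      refine ⟨fun i => ?_, hq.1 i0⟩
      by_cases h : i = i0
      · subst h
        simp [hq.2]
      · simp only [Function.update_of_ne h]
        exact hq.1 i
    · intro q _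
      simp
    · intro q _
      simp
    · intro q _
      rfl
  rw [h1, h2, sum_product_right]
  simp only [sum_const, nsmul_eq_mul]

/-- the table of the values at `n` -/
noncomputable def vals {r : ℕ} {dd : Fin r → ℕ} (P : Fin r → ℤ[X]) (f : (j : Fin r) → (Fin (dd j + 1) → ℤ)) (n : ℕ) :
    Fin r → ℤ[X] → ℤ := fun j g => fv (fun t => (P j).eval t) (f j) (g.eval (n : ℤ))

/-- the Liouville function at the value with the index `(j0, g0)` times an arbitrary function of the values -/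
noncomputable def XX {r : ℕ} {dd : Fin r → ℕ} (P : Fin r → ℤ[X]) (j0 : Fin r) (g0 : ℤ[X]) (Φ : ℕ → (Fin r → ℤ[X] → ℤ) → ℝ)
    (f : (j : Fin r) → (Fin (dd j + 1) → ℤ)) (n : ℕ) : ℝ :=
  lam (vals P f n j0 g0) * Φ n (vals P f n)

/-- `Φ n` does not depend on the value with the index `(j0, g0)`, and is nonzero only if the values with the indices in
`G'` are primes -/
structure PhiOK {r : ℕ} (G G' : Fin r → Finset ℤ[X]) (j0 : Fin r) (g0 : ℤ[X]) (Φ : ℕ → (Fin r → ℤ[X] → ℤ) → ℝ) : Prop where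
  bd : ∀ n v, |Φ n v| ≤ 1
  dep : ∀ n v v', (∀ j, ∀ g ∈ G j, ¬ (j = j0 ∧ g = g0) → v j g = v' j g) → Φ n v = Φ n v'
  pr : ∀ n v, Φ n v ≠ 0 → ∀ j, ∀ g ∈ G' j, (v j g).natAbs.Prime

theorem pairD (r : ℕ) (dd : Fin r → ℕ) (A U : ℕ) : ∃ H0 : ℕ, ∀ H : ℕ, H0 ≤ H →
    ∀ (T0 : ℕ) (P : Fin r → ℤ[X]), (T0 : ℝ) ≤ Real.log H ^ A →
    (∀ j, ∀ t : ℤ, |t| ≤ T0 → |(((P j).eval t : ℤ) : ℝ)| ≤ H * Real.log H ^ A) →
    ∀ (D : ℕ) (G G' : Fin r → Finset ℤ[X]), GOK dd D G → ∀ (j0 : Fin r) (g0 : ℤ[X]), g0 ∈ G j0 →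
    ∀ Φ : ℕ → (Fin r → ℤ[X] → ℤ) → ℝ, PhiOK G G' j0 g0 Φ → ∀ n m : ℕ,
    (∀ t ∈ TT G n j0, |t| ≤ (T0 : ℤ)) → (∀ t ∈ TT G m j0, |t| ≤ (T0 : ℤ)) →
    Disjoint (TT G n j0) (TT G m j0) → (∀ g ∈ G j0, g ≠ g0 → g.eval (n : ℤ) ≠ g0.eval (n : ℤ)) →
    |∑ f ∈ Om dd H, XX P j0 g0 Φ f n * XX P j0 g0 Φ f m| ≤ NN dd H / Real.log H ^ U := by
  classical
  choose n0 h0 using fun j => corr_g lam lam_abs SS_lam (dd j) A U
  refine ⟨∑ j, n0 j, fun H hH T0 P hT0 hP D G G' hG j0 g0 hg0 Φ hΦ n m hn hm hdis hne => ?_⟩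
  have hj : n0 j0 ≤ H := (single_le_sum (f := n0) (fun _ _ => Nat.zero_le _) (mem_univ j0)).trans hH
  obtain ⟨S, hS⟩ : ∃ S, S = ((G j0).erase g0).image (fun g => g.eval (n : ℤ)) := ⟨_, rfl⟩
  obtain ⟨T, hT⟩ : ∃ T, T = TT G m j0 := ⟨_, rfl⟩
  have hcard := hG.card j0
  have hSc : S.card ≤ dd j0 := by
    rw [hS]
    exact (card_image_le.trans (card_le_card (erase_subset _ _))).trans hcard
  have hTc : T.card ≤ dd j0 := by
    rw [hT]
    exact (card_TT G m j0).trans hcard
  have ht0n : g0.eval (n : ℤ) ∈ TT G n j0 := mem_image_of_mem (fun g : ℤ[X] => g.eval (n : ℤ)) hg0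
  have ht0S : g0.eval (n : ℤ) ∉ S := by
    rw [hS, mem_image]
    rintro ⟨g, hg, h⟩
    rw [mem_erase] at hg
    exact hne g hg.2 hg.1 h
  have ht0T : g0.eval (n : ℤ) ∉ T := by
    rw [hT]
    exact disjoint_left.1 hdis ht0n
  have hSsub : ∀ t ∈ S, |t| ≤ (T0 : ℤ) := by
    intro t ht
    rw [hS, mem_image] at ht
    obtain ⟨g, hg, rfl⟩ := ht
    exact hn _ (mem_image_of_mem (fun g : ℤ[X] => g.eval (n : ℤ)) (mem_of_mem_erase hg))
  have hTsub : ∀ t ∈ T, |t| ≤ (T0 : ℤ) := by
    intro t ht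
    rw [hT] at ht
    exact hm t ht
  have hbox : (0 : ℝ) < (2 * (H : ℝ) + 1) ^ (dd j0 + 1) := by positivity
  have hin : ∀ f ∈ Om dd H, |∑ a ∈ Box (dd j0 + 1) H, XX P j0 g0 Φ (Function.update f j0 a) n *
      XX P j0 g0 Φ (Function.update f j0 a) m| ≤ (2 * (H : ℝ) + 1) ^ (dd j0 + 1) / Real.log H ^ U := by
    intro f _
    have h2 := h0 j0 H hj T0 (fun t => (P j0).eval t) hT0 (hP j0) S T (g0.eval (n : ℤ)) ht0S ht0T hSc hTc
      (hn _ ht0n) hSsub hTsub (fun a => Φ n (vals P (Function.update f j0 a) n))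
      (fun a => lam (fv (fun t => (P j0).eval t) a (g0.eval (m : ℤ))) * Φ m (vals P (Function.update f j0 a) m))
      (fun a a' haa => by
        apply hΦ.dep
        intro j g hg hjg
        unfold vals
        by_cases hjj : j = j0
        · subst hjj
          simp only [Function.update_self]
          apply haa
          rw [hS, mem_image]
          refine ⟨g, ?_, rfl⟩
          rw [mem_erase]
          exact ⟨fun h => hjg ⟨rfl, h⟩, hg⟩
        · simp only [Function.update_of_ne hjj])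
      (fun a a' haa => by
        have e1 : fv (fun t => (P j0).eval t) a (g0.eval (m : ℤ)) = fv (fun t => (P j0).eval t) a' (g0.eval (m : ℤ)) := by
          apply haa
          rw [hT]
          exact mem_image_of_mem (fun g : ℤ[X] => g.eval (m : ℤ)) hg0
        have e2 : Φ m (vals P (Function.update f j0 a) m) = Φ m (vals P (Function.update f j0 a') m) := by
          apply hΦ.dep
          intro j g hg _
          unfold vals
          by_cases hjj : j = j0
          · subst hjj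
            simp only [Function.update_self]
            apply haa
            rw [hT]
            exact mem_image_of_mem (fun g : ℤ[X] => g.eval (m : ℤ)) hg
          · simp only [Function.update_of_ne hjj]
        rw [e1, e2])
      (fun a => hΦ.bd _ _)
      (fun a => by
        rw [abs_mul]
        exact mul_le_one₀ (lam_abs _) (abs_nonneg _) (hΦ.bd _ _))
    refine le_trans (le_of_eq ?_) h2
    congr 1
    refine sum_congr rfl fun a _ => ?_
    unfold XX Psg
    have e3 : vals P (Function.update f j0 a) n j0 g0 = fv (fun t => (P j0).eval t) a (g0.eval (n : ℤ)) := by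
      unfold vals
      simp only [Function.update_self]
    have e4 : vals P (Function.update f j0 a) m j0 g0 = fv (fun t => (P j0).eval t) a (g0.eval (m : ℤ)) := by
      unfold vals
      simp only [Function.update_self]
    rw [e3, e4]
    ring
  have hsum := sum_update (fun j => Box (dd j + 1) H) j0 (fun f => XX P j0 g0 Φ f n * XX P j0 g0 Φ f m)
  rw [card_Box] at hsum
  push_cast at hsum
  have h3 : (2 * (H : ℝ) + 1) ^ (dd j0 + 1) * |∑ f ∈ Om dd H, XX P j0 g0 Φ f n * XX P j0 g0 Φ f m| ≤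
      (2 * (H : ℝ) + 1) ^ (dd j0 + 1) * (NN dd H / Real.log H ^ U) := by
    calc (2 * (H : ℝ) + 1) ^ (dd j0 + 1) * |∑ f ∈ Om dd H, XX P j0 g0 Φ f n * XX P j0 g0 Φ f m|
        = |(2 * (H : ℝ) + 1) ^ (dd j0 + 1) * ∑ f ∈ Om dd H, XX P j0 g0 Φ f n * XX P j0 g0 Φ f m| := by
          rw [abs_mul, abs_of_pos hbox]
      _ = |∑ f ∈ Om dd H, ∑ a ∈ Box (dd j0 + 1) H, XX P j0 g0 Φ (Function.update f j0 a) n *
            XX P j0 g0 Φ (Function.update f j0 a) m| := by
          unfold Om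
          rw [← hsum]
      _ ≤ ∑ f ∈ Om dd H, (2 * (H : ℝ) + 1) ^ (dd j0 + 1) / Real.log H ^ U :=
          (abs_sum_le_sum_abs _ _).trans (sum_le_sum hin)
      _ = _ := by
          rw [sum_const, nsmul_eq_mul, card_Om]
          ring
  exact le_of_mul_le_mul_left h3 hbox

end Pool.Agent.T9h23.Li
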