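import Mathlib
import Pool.Agent.T9h23.Li.F2

/-! The probability that several values are primes: an upper bound. -/

set_option autoImplicit false

namespace Pool.Agent.T9h23.Li
open Finset Polynomial
open Pool.Agent.H373R2.T7
open Pool.Agent.T9h23.Cor
open Pool.Agent.T9h23.BH

lemma box_small {d : ℕ} (H : ℕ) (P : ℤ → ℤ) (t : ℤ) (Y : ℝ) (hY : 0 ≤ Y) :
    (open Classical in ((((Box (d + 1) H).filter (fun a => |((fv P a t : ℤ) : ℝ)| < Y)).card : ℕ) : ℝ)) ≤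
      (2 * H + 1) ^ d * (2 * Y + 1) := by
  classical
  rw [card_filter]
  push_cast
  rw [sum_Box_insert H (0 : Fin (d + 1))]
  have h1 : ∀ b ∈ Box d H, ∑ x ∈ Icc (-(H : ℤ)) H, (if |((fv P ((0 : Fin (d + 1)).insertNth x b) t : ℤ) : ℝ)| < Y then (1 : ℝ) else 0) ≤
      2 * Y + 1 := by
    intro b _
    have h2 := card_small H (cb P b t) Y hY
    rw [card_filter] at h2
    push_cast at h2
    refine le_trans (le_of_eq ?_) h2
    refine sum_congr rfl fun x _ => ?_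
    rw [fv_insert]
    push_cast
    rfl
  refine (sum_le_sum h1).trans (le_of_eq ?_)
  rw [sum_const, nsmul_eq_mul, card_Box]
  push_cast
  ring

lemma prime_Lam (u : ℤ) (hu : u.natAbs.Prime) (H : ℕ) (hH : 1 ≤ H) (hL : 0 < Real.log H) (h : √(H : ℝ) ≤ |(u : ℝ)|) :
    1 ≤ 2 / Real.log H * Lam u := by
  have e1 : Lam u = Real.log u.natAbs := by
    unfold Lam
    rw [ArithmeticFunction.vonMangoldt_apply_prime hu]
  have e2 : ((u.natAbs : ℕ) : ℝ) = |(u : ℝ)| := by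
    rw [Nat.cast_natAbs]
    push_cast
    rfl
  have hH0 : (0 : ℝ) < H := by exact_mod_cast hH
  have h2 : Real.log H / 2 ≤ Real.log |(u : ℝ)| := by
    rw [← Real.log_sqrt hH0.le]
    exact Real.log_le_log (Real.sqrt_pos.2 hH0) h
  rw [e1, e2, div_mul_eq_mul_div, le_div_iff₀ hL]
  linarith

theorem primOne (d A : ℕ) (e' : ℝ) (he' : 0 < e') : ∃ H0 : ℕ, ∀ H : ℕ, H0 ≤ H →
    ∀ (T0 : ℕ) (P : ℤ → ℤ), (T0 : ℝ) ≤ Real.log H ^ A → (∀ t : ℤ, |t| ≤ T0 → |(P t : ℝ)| ≤ H * Real.log H ^ A) →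
    ∀ R : Finset ℤ, R.card ≤ d → (∀ t ∈ R, |t| ≤ (T0 : ℤ)) →
    (open Classical in ((((Box (d + 1) H).filter (fun a => ∀ t ∈ R, (fv P a t).natAbs.Prime)).card : ℕ) : ℝ)) ≤
      (2 * H + 1) ^ (d + 1) * (Real.log H ^ e' / Real.log H ^ R.card) := by
  classical
  rcases Nat.eq_zero_or_pos d with hd | hd
  · obtain ⟨n1, h1⟩ := ev_L' 1
    refine ⟨n1, fun H hH T0 P hT0 hP R hR hRT => ?_⟩
    have hL1 := h1 H hH
    have hR0 : R.card = 0 := by omega
    rw [hR0, pow_zero, div_one]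
    have h2 : (((Box (d + 1) H).filter (fun a => ∀ t ∈ R, (fv P a t).natAbs.Prime)).card : ℝ) ≤ (2 * H + 1) ^ (d + 1) := by
      have h3 := card_le_card (filter_subset (fun a => ∀ t ∈ R, (fv P a t).natAbs.Prime) (Box (d + 1) H))
      rw [card_Box] at h3
      exact_mod_cast h3
    refine h2.trans (le_mul_of_one_le_right (by positivity) ?_)
    exact Real.one_le_rpow hL1 he'.le
  obtain ⟨n0, h0⟩ := corr_upper d A 2 hd 1 (e' / 2) one_pos (by positivity)
  obtain ⟨n1, h1⟩ := ev_L' 3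
  obtain ⟨n2, h2⟩ := ev_rpow (2 ^ (d + 1)) (e' / 2) (by positivity)
  obtain ⟨n3, h3⟩ := ev_log' d (4 * d)
  refine ⟨max (max n0 n1) (max (max n2 n3) 4), fun H hH T0 P hT0 hP R hR hRT => ?_⟩
  have hn0 : n0 ≤ H := ((le_max_left _ _).trans (le_max_left _ _)).trans hH
  have hn1 : n1 ≤ H := ((le_max_right _ _).trans (le_max_left _ _)).trans hH
  have hn2 : n2 ≤ H := (((le_max_left _ _).trans (le_max_left _ _)).trans (le_max_right _ _)).trans hH
  have hn3 : n3 ≤ H := (((le_max_right _ _).trans (le_max_left _ _)).trans (le_max_right _ _)).trans hH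
  have hH4 : 4 ≤ H := ((le_max_right _ _).trans (le_max_right _ _)).trans hH
  have hH0 : (0 : ℝ) < H := by exact_mod_cast (by omega : 0 < H)
  have hH4r : (4 : ℝ) ≤ H := by exact_mod_cast hH4
  have hL := h1 H hn1
  have a2 := h2 H hn2
  have a3 := h3 H hn3
  obtain ⟨L, hLd⟩ : ∃ L, L = Real.log H := ⟨_, rfl⟩
  rw [← hLd] at hL a2 a3 ⊢
  have hL0 : 0 < L := by linarith
  have hL1 : 1 ≤ L := by linarith
  -- the level
  obtain ⟨y, hy⟩ : ∃ y : ℕ, y = ⌈L⌉₊ := ⟨_, rfl⟩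
  have hy1 : Real.log H ^ (1 : ℝ) ≤ y := by rw [Real.rpow_one, ← hLd, hy]; exact Nat.le_ceil _
  have hy2 : (y : ℝ) ≤ Real.log H ^ 2 := by
    rw [← hLd, hy]
    have := (Nat.ceil_lt_add_one hL0.le).le
    nlinarith
  have hc := h0 H hn0 y hy1 hy2 T0 P hT0 hP R (by omega) hRT (fun _ => Lam) (fun _ _ => Or.inl rfl) ∅ (empty_subset _)
  simp only [prod_empty, mul_one, card_empty, pow_zero, one_mul] at hc
  rw [← hLd] at hc
  have hpt : ∀ a ∈ Box (d + 1) H, (if ∀ t ∈ R, (fv P a t).natAbs.Prime then (1 : ℝ) else 0) ≤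
      (2 / L) ^ R.card * ∏ t ∈ R, Lam (fv P a t) + ∑ t ∈ R, (if |((fv P a t : ℤ) : ℝ)| < √(H : ℝ) then (1 : ℝ) else 0) := by
    intro a _
    have hnn1 : 0 ≤ (2 / L) ^ R.card * ∏ t ∈ R, Lam (fv P a t) :=
      mul_nonneg (by positivity) (prod_nonneg fun _ _ => Lam_nonneg _)
    have hnn2 : 0 ≤ ∑ t ∈ R, (if |((fv P a t : ℤ) : ℝ)| < √(H : ℝ) then (1 : ℝ) else 0) :=
      sum_nonneg fun _ _ => by split_ifs <;> norm_num
    split_ifs with h
    · by_cases hs : ∃ t ∈ R, |((fv P a t : ℤ) : ℝ)| < √(H : ℝ)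
      · obtain ⟨t, ht, hs⟩ := hs
        have h4 : (1 : ℝ) ≤ ∑ t ∈ R, (if |((fv P a t : ℤ) : ℝ)| < √(H : ℝ) then (1 : ℝ) else 0) := by
          have h5 := single_le_sum (f := fun t => if |((fv P a t : ℤ) : ℝ)| < √(H : ℝ) then (1 : ℝ) else 0)
            (fun _ _ => by split_ifs <;> norm_num) ht
          rw [if_pos hs] at h5
          exact h5
        linarith
      · push Not at hs
        have h4 : 1 ≤ (2 / L) ^ R.card * ∏ t ∈ R, Lam (fv P a t) := by
          rw [← prod_const, ← prod_mul_distrib]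
          have h5 : ∀ t ∈ R, 1 ≤ 2 / L * Lam (fv P a t) := by
            intro t ht
            rw [hLd]
            exact prime_Lam _ (h t ht) H (by omega) (by rw [← hLd]; exact hL0) (hs t ht)
          calc (1 : ℝ) = ∏ _t ∈ R, (1 : ℝ) := by rw [prod_const_one]
            _ ≤ _ := prod_le_prod (fun _ _ => by norm_num) h5
        linarith
    · linarith
  rw [card_filter]
  push_cast
  refine (sum_le_sum hpt).trans ?_
  rw [sum_add_distrib, ← mul_sum, sum_comm]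
  have hsm : ∑ t ∈ R, ∑ a ∈ Box (d + 1) H, (if |((fv P a t : ℤ) : ℝ)| < √(H : ℝ) then (1 : ℝ) else 0) ≤
      d * ((2 * H + 1) ^ d * (2 * √(H : ℝ) + 1)) := by
    have h4 : ∀ t ∈ R, ∑ a ∈ Box (d + 1) H, (if |((fv P a t : ℤ) : ℝ)| < √(H : ℝ) then (1 : ℝ) else 0) ≤
        (2 * H + 1) ^ d * (2 * √(H : ℝ) + 1) := by
      intro t _
      have h5 := box_small (d := d) H P t (√(H : ℝ)) (Real.sqrt_nonneg _)
      rw [card_filter] at h5
      push_cast at h5
      exact h5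
    refine (sum_le_sum h4).trans ?_
    rw [sum_const, nsmul_eq_mul]
    apply mul_le_mul_of_nonneg_right _ (by positivity)
    exact_mod_cast hR
  refine (add_le_add (mul_le_mul_of_nonneg_left hc (by positivity)) hsm).trans ?_
  obtain ⟨N, hN⟩ : ∃ N : ℝ, N = 2 * H + 1 := ⟨_, rfl⟩
  rw [← hN]
  have hN0 : 0 < N := by rw [hN]; positivity
  have hsq : √(H : ℝ) * √(H : ℝ) = H := Real.mul_self_sqrt hH0.le
  have hsq0 : 0 < √(H : ℝ) := Real.sqrt_pos.2 hH0
  have hsq1 : 1 ≤ √(H : ℝ) := by rw [Real.one_le_sqrt]; linarith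
  obtain ⟨k, hk⟩ : ∃ k, k = R.card := ⟨_, rfl⟩
  rw [← hk] at hR ⊢
  have e1 : L ^ (e' / 2) * L ^ (e' / 2) = L ^ e' := by rw [← Real.rpow_add hL0]; congr 1; ring
  obtain ⟨E, hE⟩ : ∃ E, E = L ^ (e' / 2) := ⟨_, rfl⟩
  rw [← hE] at e1 a2 ⊢
  rw [← e1]
  have hE1 : 1 ≤ E := (one_le_pow₀ (by norm_num)).trans a2
  have hLk : 0 < L ^ k := by positivity
  have b1 : (2 / L) ^ k * (N ^ (d + 1) * E) ≤ N ^ (d + 1) * (1 / 2 * (E * E) / L ^ k) := by
    have : (2 : ℝ) ^ k * 2 ≤ E := by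
      calc (2 : ℝ) ^ k * 2 = 2 ^ (k + 1) := (pow_succ _ _).symm
        _ ≤ 2 ^ (d + 1) := pow_le_pow_right₀ (by norm_num) (by omega)
        _ ≤ E := a2
    calc (2 / L) ^ k * (N ^ (d + 1) * E) = N ^ (d + 1) * ((1 / 2 * ((2 ^ k * 2) * E)) / L ^ k) := by
          rw [div_pow]; ring
      _ ≤ _ := by gcongr
  have b2 : (d : ℝ) * (N ^ d * (2 * √(H : ℝ) + 1)) ≤ N ^ (d + 1) * (1 / 2 * (E * E) / L ^ k) := by
    have h4 : (d : ℝ) * (2 * √(H : ℝ) + 1) ≤ N * (1 / 2 * (E * E) / L ^ k) := by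
      rw [mul_div_assoc', le_div_iff₀ hLk]
      have h5 : L ^ k ≤ L ^ d := pow_le_pow_right₀ hL1 hR
      have h6 : (d : ℝ) * (2 * √(H : ℝ) + 1) * L ^ k ≤ d * (3 * √(H : ℝ)) * L ^ d := by
        gcongr
        linarith
      have h7 : (d : ℝ) * (3 * √(H : ℝ)) * L ^ d ≤ H := by
        have h8 : (4 * d : ℝ) * L ^ d ≤ √(H : ℝ) := a3
        have h9 : 0 ≤ (d : ℝ) * L ^ d := by positivity
        nlinarith
      have h8 : (H : ℝ) ≤ N * (1 / 2 * (E * E)) := by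
        have : 1 ≤ E * E := by nlinarith
        rw [hN]
        nlinarith
      linarith
    calc (d : ℝ) * (N ^ d * (2 * √(H : ℝ) + 1)) = N ^ d * (d * (2 * √(H : ℝ) + 1)) := by ring
      _ ≤ N ^ d * (N * (1 / 2 * (E * E) / L ^ k)) := by gcongr
      _ = _ := by rw [pow_succ]; ring
  refine (add_le_add b1 b2).trans (le_of_eq ?_)
  ring

theorem primAll (r : ℕ) (dd : Fin r → ℕ) (A : ℕ) (e' : ℝ) (he' : 0 < e') : ∃ H0 : ℕ, ∀ H : ℕ, H0 ≤ H →
    ∀ (T0 : ℕ) (P : Fin r → ℤ[X]), (T0 : ℝ) ≤ Real.log H ^ A →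
    (∀ j, ∀ t : ℤ, |t| ≤ T0 → |(((P j).eval t : ℤ) : ℝ)| ≤ H * Real.log H ^ A) →
    ∀ (G' : Fin r → Finset ℤ[X]), (∀ j, (G' j).card ≤ dd j) → ∀ n : ℕ, (∀ j, ∀ t ∈ TT G' n j, |t| ≤ (T0 : ℤ)) →
    (∀ j, ∀ g ∈ G' j, ∀ g' ∈ G' j, g ≠ g' → g.eval (n : ℤ) ≠ g'.eval (n : ℤ)) →
    (open Classical in (((Om dd H).filter (fun f => ∀ j, ∀ g ∈ G' j, (vals P f n j g).natAbs.Prime)).card : ℝ)) ≤
      NN dd H * (Real.log H ^ e' / Real.log H ^ kk G') := by
  classical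
  obtain ⟨e1, he1⟩ : ∃ e1 : ℝ, e1 = e' / (r + 1) := ⟨_, rfl⟩
  have he10 : 0 < e1 := by rw [he1]; positivity
  choose n0 h0 using fun j => primOne (dd j) A e1 he10
  obtain ⟨n1, h1⟩ := ev_L' 1
  refine ⟨max (∑ j, n0 j) n1, fun H hH T0 P hT0 hP G' hG' n hn hinj => ?_⟩
  have hL1 := h1 H ((le_max_right _ _).trans hH)
  have hL0 : 0 < Real.log H := by linarith
  have e2 : (((Om dd H).filter (fun f => ∀ j, ∀ g ∈ G' j, (vals P f n j g).natAbs.Prime)).card : ℝ) =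
      ∑ f ∈ Om dd H, ∏ j, (if ∀ t ∈ TT G' n j, (fv (fun t => (P j).eval t) (f j) t).natAbs.Prime then (1 : ℝ) else 0) := by
    rw [card_filter]
    push_cast
    refine sum_congr rfl fun f _ => ?_
    rw [prod_ite_zero]
    simp only [prod_const_one]
    congr 1
    apply propext
    constructor
    · intro h j _ t ht
      unfold TT at ht
      rw [mem_image] at ht
      obtain ⟨g, hg, rfl⟩ := ht
      exact h j g hg
    · intro h j g hg
      exact h j (mem_univ _) _ (mem_image_of_mem (fun g : ℤ[X] => g.eval (n : ℤ)) hg)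
  rw [e2, sum_Om dd H (fun j a => if ∀ t ∈ TT G' n j, (fv (fun t => (P j).eval t) a t).natAbs.Prime then (1 : ℝ) else 0)]
  have hcard : ∀ j, (TT G' n j).card = (G' j).card := by
    intro j
    unfold TT
    rw [card_image_iff]
    intro g hg g' hg' h
    by_contra hne
    exact hinj j g hg g' hg' hne h
  have h3 : ∏ j, ∑ a ∈ Box (dd j + 1) H, (if ∀ t ∈ TT G' n j, (fv (fun t => (P j).eval t) a t).natAbs.Prime then (1 : ℝ) else 0) ≤
      ∏ j, ((2 * (H : ℝ) + 1) ^ (dd j + 1) * (Real.log H ^ e1 / Real.log H ^ (G' j).card)) := by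
    apply prod_le_prod
    · intro j _
      exact sum_nonneg fun _ _ => by split_ifs <;> norm_num
    · intro j _
      have hj : n0 j ≤ H := ((single_le_sum (f := n0) (fun _ _ => Nat.zero_le _) (mem_univ j)).trans (le_max_left _ _)).trans hH
      have h4 := h0 j H hj T0 (fun t => (P j).eval t) hT0 (hP j) (TT G' n j) (by rw [hcard]; exact hG' j) (hn j)
      rw [card_filter, hcard] at h4
      push_cast at h4
      exact h4
  refine h3.trans ?_
  have hp : ∏ j, Real.log H ^ (G' j).card = Real.log H ^ ∑ j, (G' j).card := prod_pow_eq_pow_sum _ _ _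
  rw [prod_mul_distrib, prod_div_distrib, prod_const, card_univ, Fintype.card_fin, hp]
  unfold NN kk
  apply mul_le_mul_of_nonneg_left _ (prod_nonneg fun _ _ => by positivity)
  apply div_le_div_of_nonneg_right _ (by positivity)
  rw [← Real.rpow_natCast, ← Real.rpow_mul hL0.le]
  apply Real.rpow_le_rpow_of_exponent_le hL1
  rw [he1, div_mul_eq_mul_div, div_le_iff₀ (by positivity)]
  nlinarith

end Pool.Agent.T9h23.Li
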