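import Mathlib
import Pool.Agent.T9h23.Li.F3
import Pool.Agent.T9h23.Li.D1
import Pool.Agent.T9h23.BH.A2

/-! Second moments: the Liouville function at one value times an arbitrary function of the other values. -/

set_option autoImplicit false

namespace Pool.Agent.T9h23.Li
open Finset Polynomial
open Pool.Agent.H373R2.T7
open Pool.Agent.T9h23.Cor
open Pool.Agent.T9h23.BH

lemma XX_abs {r : ℕ} {dd : Fin r → ℕ} {G G' : Fin r → Finset ℤ[X]} {j0 : Fin r} {g0 : ℤ[X]} {Φ : ℕ → (Fin r → ℤ[X] → ℤ) → ℝ}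
    (hΦ : PhiOK G G' j0 g0 Φ) (P : Fin r → ℤ[X]) (f : (j : Fin r) → (Fin (dd j + 1) → ℤ)) (n : ℕ) : |XX P j0 g0 Φ f n| ≤ 1 := by
  unfold XX
  rw [abs_mul]
  exact mul_le_one₀ (lam_abs _) (abs_nonneg _) (hΦ.bd _ _)

theorem sm2 (r : ℕ) (dd : Fin r → ℕ) (D A B : ℕ) (e' : ℝ) (he' : 0 < e') : ∃ H0 : ℕ, ∀ H : ℕ, H0 ≤ H →
    ∀ (P : Fin r → ℤ[X]) (G G' : Fin r → Finset ℤ[X]), GOK dd D G → Small H A D P G → (∀ j, G' j ⊆ G j) →
    ∀ (j0 : Fin r) (g0 : ℤ[X]), g0 ∈ G j0 → ∀ Φ : ℕ → (Fin r → ℤ[X] → ℤ) → ℝ, PhiOK G G' j0 g0 Φ →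
    ∀ X : ℕ, (X : ℝ) ≤ Real.log H ^ B → ∀ I : Finset ℕ, I ⊆ Icc 1 X \ Co G X →
    ∑ f ∈ Om dd H, (∑ n ∈ I, XX P j0 g0 Φ f n) ^ 2 ≤
      NN dd H * (((CG dd D : ℝ) + 1) * (Real.log H ^ e' / Real.log H ^ kk G') * I.card) := by
  classical
  obtain ⟨A', m0, h0⟩ := pts D A B
  obtain ⟨m1, h1⟩ := pairD r dd A' (B + ∑ j, dd j)
  obtain ⟨m2, h2⟩ := primAll r dd A' e' he'
  obtain ⟨m3, h3⟩ := ev_L' 1
  refine ⟨max (max m0 m1) (max m2 m3), fun H hH P G G' hG hS hGG j0 g0 hg0 Φ hΦ X hX I hI => ?_⟩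
  have hm0 : m0 ≤ H := ((le_max_left _ _).trans (le_max_left _ _)).trans hH
  have hm1 : m1 ≤ H := ((le_max_right _ _).trans (le_max_left _ _)).trans hH
  have hm2 : m2 ≤ H := ((le_max_left _ _).trans (le_max_right _ _)).trans hH
  have hm3 : m3 ≤ H := ((le_max_right _ _).trans (le_max_right _ _)).trans hH
  have hL1 := h3 H hm3
  obtain ⟨T0, hT0, hT1⟩ := h0 H hm0
  obtain ⟨hP, hT⟩ := hT1 r dd P G hG hS
  have hIX : ∀ n ∈ I, n ∈ Icc 1 X ∧ n ∉ Co G X := fun n hn => mem_sdiff.1 (hI hn)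
  have hnX : ∀ n ∈ I, (n : ℝ) ≤ Real.log H ^ B := by
    intro n hn
    have h4 := (mem_Icc.1 (hIX n hn).1).2
    have h5 : (n : ℝ) ≤ X := by exact_mod_cast h4
    exact h5.trans hX
  have hinj : ∀ n ∈ I, ∀ j, ∀ g ∈ G j, ∀ g' ∈ G j, g ≠ g' → g.eval (n : ℤ) ≠ g'.eval (n : ℤ) := by
    intro n hn j g hg g' hg' hne h
    apply (hIX n hn).2
    unfold Co
    rw [mem_filter]
    exact ⟨(hIX n hn).1, j, g, hg, g', hg', hne, h⟩
  obtain ⟨L, hLd⟩ : ∃ L, L = Real.log H := ⟨_, rfl⟩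
  have hkk : kk G' ≤ ∑ j, dd j := sum_le_sum fun j _ => (card_le_card (hGG j)).trans (hG.card j)
  obtain ⟨β, hβ⟩ : ∃ β : ℝ, β = NN dd H * (L ^ e' / L ^ kk G') := ⟨_, rfl⟩
  rw [← hLd] at hL1
  have hL0 : 0 < L := by linarith
  have hN := NN_pos dd H
  have hβ0 : 0 < β := by rw [hβ]; positivity
  -- all pairs
  have hall : ∀ n ∈ I, ∀ m ∈ I, |∑ f ∈ Om dd H, XX P j0 g0 Φ f n * XX P j0 g0 Φ f m| ≤ β := by
    intro n hn m _
    have h4 : ∀ f ∈ Om dd H, |XX P j0 g0 Φ f n * XX P j0 g0 Φ f m| ≤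
        if ∀ j, ∀ g ∈ G' j, (vals P f n j g).natAbs.Prime then (1 : ℝ) else 0 := by
      intro f _
      rw [abs_mul]
      split_ifs with h
      · exact mul_le_one₀ (XX_abs hΦ P f n) (abs_nonneg _) (XX_abs hΦ P f m)
      · have h5 : Φ n (vals P f n) = 0 := by
          by_contra hne
          exact h (hΦ.pr n _ hne)
        unfold XX
        rw [h5, mul_zero, abs_zero, zero_mul]
    refine (abs_sum_le_sum_abs _ _).trans ((sum_le_sum h4).trans ?_)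
    have h6 := h2 H hm2 T0 P hT0 hP G' (fun j => (card_le_card (hGG j)).trans (hG.card j)) n
      (fun j t ht => hT n (hnX n hn) j t (by
        unfold TT at ht ⊢
        exact image_subset_image (hGG j) ht))
      (fun j g hg g' hg' => hinj n hn j g (hGG j hg) g' (hGG j hg'))
    rw [card_filter] at h6
    push_cast at h6
    rw [hβ, hLd]
    exact h6
  -- the disjoint pairs
  have hdisj : ∀ n ∈ I, ∀ m ∈ I, (∀ j, Disjoint (TT G n j) (TT G m j)) →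
      |∑ f ∈ Om dd H, XX P j0 g0 Φ f n * XX P j0 g0 Φ f m| ≤ NN dd H / L ^ (B + ∑ j, dd j) := by
    intro n hn m hm hdis
    have h4 := h1 H hm1 T0 P hT0 hP D G G' hG j0 g0 hg0 Φ hΦ n m (hT n (hnX n hn) j0) (hT m (hnX m hm) j0) (hdis j0)
      (fun g hg hne => hinj n hn j0 g hg g0 hg0 hne)
    rw [← hLd] at h4
    exact h4
  have e1 : ∑ f ∈ Om dd H, (∑ n ∈ I, XX P j0 g0 Φ f n) ^ 2 =
      ∑ n ∈ I, ∑ m ∈ I, ∑ f ∈ Om dd H, XX P j0 g0 Φ f n * XX P j0 g0 Φ f m := by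
    calc ∑ f ∈ Om dd H, (∑ n ∈ I, XX P j0 g0 Φ f n) ^ 2 =
        ∑ f ∈ Om dd H, ∑ n ∈ I, ∑ m ∈ I, XX P j0 g0 Φ f n * XX P j0 g0 Φ f m := by
          refine sum_congr rfl fun f _ => ?_
          rw [sq, sum_mul_sum]
      _ = _ := by
          rw [sum_comm]
          refine sum_congr rfl fun n _ => ?_
          rw [sum_comm]
  rw [e1]
  have hrow : ∀ n ∈ I, ∑ m ∈ I, ∑ f ∈ Om dd H, XX P j0 g0 Φ f n * XX P j0 g0 Φ f m ≤
      CG dd D * β + I.card * (NN dd H / L ^ (B + ∑ j, dd j)) := by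
    intro n hn
    have h4 : ∀ m ∈ I, ∑ f ∈ Om dd H, XX P j0 g0 Φ f n * XX P j0 g0 Φ f m ≤
        (if ∃ j, ¬ Disjoint (TT G n j) (TT G m j) then β else 0) + NN dd H / L ^ (B + ∑ j, dd j) := by
      intro m hm
      have h5 : 0 ≤ NN dd H / L ^ (B + ∑ j, dd j) := by positivity
      split_ifs with h
      · have := (le_abs_self _).trans (hall n hn m hm)
        linarith
      · push Not at h
        have := (le_abs_self _).trans (hdisj n hn m hm h)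
        linarith
    refine (sum_le_sum h4).trans ?_
    rw [sum_add_distrib, sum_const, nsmul_eq_mul, ← sum_filter, sum_const, nsmul_eq_mul]
    gcongr
    have h5 := pairs_card hG X n
    exact_mod_cast (card_le_card (filter_subset_filter _ (fun m hm => (hIX m hm).1))).trans h5
  refine (sum_le_sum hrow).trans ?_
  rw [sum_const, nsmul_eq_mul]
  have hIc : (I.card : ℝ) ≤ L ^ B := by
    have h4 := card_le_card (fun n hn => (hIX n hn).1 : I ⊆ Icc 1 X)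
    rw [Nat.card_Icc, Nat.add_sub_cancel] at h4
    rw [hLd]
    exact (Nat.cast_le.2 h4).trans hX
  have h7 : (I.card : ℝ) * (NN dd H / L ^ (B + ∑ j, dd j)) ≤ β := by
    rw [hβ, pow_add]
    have h8 : L ^ kk G' ≤ L ^ ∑ j, dd j := pow_le_pow_right₀ hL1 hkk
    have h9 : 1 ≤ L ^ e' := Real.one_le_rpow hL1 he'.le
    calc (I.card : ℝ) * (NN dd H / (L ^ B * L ^ ∑ j, dd j)) ≤ L ^ B * (NN dd H / (L ^ B * L ^ ∑ j, dd j)) := by gcongr
      _ = NN dd H / L ^ ∑ j, dd j := by field_simp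
      _ ≤ NN dd H / L ^ kk G' := by gcongr
      _ = NN dd H * (1 / L ^ kk G') := by ring
      _ ≤ NN dd H * (L ^ e' / L ^ kk G') := by gcongr
  calc (I.card : ℝ) * (CG dd D * β + I.card * (NN dd H / L ^ (B + ∑ j, dd j))) ≤ I.card * (CG dd D * β + β) := by gcongr
    _ = _ := by rw [hβ, ← hLd]; ring

open Classical in
theorem finH (r : ℕ) (dd : Fin r → ℕ) (D : ℕ) (ε : ℝ) (hε : 0 < ε) (hε1 : ε ≤ 1) : ∀ A : ℕ, ∃ H0 : ℕ, ∀ H : ℕ, H0 ≤ H →
    ∀ (P : Fin r → ℤ[X]) (G G' : Fin r → Finset ℤ[X]), GOK dd D G → Small H A D P G → (∀ j, G' j ⊆ G j) →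
    ∀ (j0 : Fin r) (g0 : ℤ[X]), g0 ∈ G j0 → ∀ Φ : ℕ → (Fin r → ℤ[X] → ℤ) → ℝ, PhiOK G G' j0 g0 Φ →
    ∀ x0 : ℝ, Real.log H ^ ((kk G' : ℝ) + ε) ≤ x0 →
    (((Om dd H).filter (fun f => ¬ ∀ x : ℕ, x0 ≤ x → (x : ℝ) ≤ Real.log H ^ A →
      |∑ n ∈ Icc 1 x, XX P j0 g0 Φ f n| ≤ ((x : ℝ) / Real.log H ^ kk G') ^ (1 / 2 + ε))).card : ℝ) ≤
      NN dd H / (x0 / Real.log H ^ kk G') ^ ε := by
  intro A
  obtain ⟨e', he'⟩ : ∃ e' : ℝ, e' = ε ^ 2 / 8 := ⟨_, rfl⟩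
  have he'0 : 0 < e' := by rw [he']; positivity
  obtain ⟨m0, h0⟩ := sm2 r dd D A (A + 1) e' he'0
  obtain ⟨m1, h1⟩ := ev_L' 2
  obtain ⟨m2, h2⟩ := grid_len (A + 1) 1 e' one_pos he'0
  obtain ⟨m3, h3⟩ := ev_rpow (max 5 (CG dd D + 1)) e' he'0
  refine ⟨max (max m0 m1) (max m2 m3), fun H hH P G G' hG hS hGG j0 g0 hg0 Φ hΦ x0 hx0 => ?_⟩
  have hm0 : m0 ≤ H := ((le_max_left _ _).trans (le_max_left _ _)).trans hH
  have hm1 : m1 ≤ H := ((le_max_right _ _).trans (le_max_left _ _)).trans hH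
  have hm2 : m2 ≤ H := ((le_max_left _ _).trans (le_max_right _ _)).trans hH
  have hm3 : m3 ≤ H := ((le_max_right _ _).trans (le_max_right _ _)).trans hH
  have hL2 := h1 H hm1
  obtain ⟨M', hM'1, hM'2⟩ := h2 H hm2
  have a3 := h3 H hm3
  obtain ⟨L, hLd⟩ : ∃ L, L = Real.log H := ⟨_, rfl⟩
  rw [← hLd] at hL2 hM'1 hM'2 a3 hx0 ⊢
  have hL0 : 0 < L := by linarith
  have hL1 : 1 ≤ L := by linarith
  have a4 : 5 ≤ L ^ e' := (le_max_left _ _).trans a3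
  have a5 : (CG dd D : ℝ) + 1 ≤ L ^ e' := (le_max_right _ _).trans a3
  obtain ⟨K, hK⟩ : ∃ K, K = L ^ kk G' := ⟨_, rfl⟩
  have hK0 : 0 < K := by rw [hK]; positivity
  have hK1 : 1 ≤ K := by rw [hK]; exact one_le_pow₀ hL1
  rw [← hK]
  have hx0K : L ^ ε ≤ x0 / K := by
    rw [le_div_iff₀ hK0, hK, ← Real.rpow_natCast, ← Real.rpow_add hL0, add_comm]
    exact hx0
  have hLε : 1 ≤ L ^ ε := Real.one_le_rpow hL1 hε.le
  have hLε0 : 0 < L ^ ε := by linarith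
  obtain ⟨Y, hY⟩ : ∃ Y, Y = x0 / K := ⟨_, rfl⟩
  rw [← hY] at hx0K ⊢
  have hY1 : 1 ≤ Y := hLε.trans hx0K
  have hY0 : 0 < Y := by linarith
  have hx01 : 1 ≤ x0 := by
    have : x0 = Y * K := by rw [hY]; field_simp
    rw [this]
    nlinarith
  have hx0p : 0 < x0 := by linarith
  obtain ⟨M0, hM0⟩ : ∃ M0, M0 = Nat.log 2 ⌊x0⌋₊ + 1 := ⟨_, rfl⟩
  obtain ⟨M, hM⟩ : ∃ M, M = Nat.log 2 ⌊L ^ A⌋₊ + 1 := ⟨_, rfl⟩
  have hM0x : x0 < 2 ^ M0 := by
    have h4 : ⌊x0⌋₊ < 2 ^ M0 := by rw [hM0]; exact Nat.lt_pow_succ_log_self (by norm_num) _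
    have h5 : x0 < ⌊x0⌋₊ + 1 := Nat.lt_floor_add_one x0
    have h6 : ((⌊x0⌋₊ + 1 : ℕ) : ℝ) ≤ ((2 ^ M0 : ℕ) : ℝ) := by exact_mod_cast h4
    push_cast at h6
    linarith
  have hfA : 1 ≤ ⌊L ^ A⌋₊ := Nat.le_floor (by push_cast; exact one_le_pow₀ hL1)
  have hMA : (2 : ℝ) ^ M ≤ L ^ (A + 1) := by
    have h4 : 2 ^ Nat.log 2 ⌊L ^ A⌋₊ ≤ ⌊L ^ A⌋₊ := Nat.pow_log_le_self 2 (by omega)
    have h5 : ((2 ^ Nat.log 2 ⌊L ^ A⌋₊ : ℕ) : ℝ) ≤ L ^ A := (Nat.cast_le.2 h4).trans (Nat.floor_le (by positivity))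
    push_cast at h5
    calc (2 : ℝ) ^ M = 2 ^ Nat.log 2 ⌊L ^ A⌋₊ * 2 := by rw [hM, pow_succ]
      _ ≤ L ^ A * L := by gcongr
      _ = L ^ (A + 1) := (pow_succ _ _).symm
  have hMe : (M : ℝ) + 2 ≤ L ^ e' := by
    have h4 := hM'2 M (by norm_num; exact hMA)
    have h5 : (M : ℝ) ≤ M' := by exact_mod_cast h4
    linarith
  -- the sums
  obtain ⟨a, ha⟩ : ∃ a : ℕ → ((j : Fin r) → (Fin (dd j + 1) → ℤ)) → ℝ,
      a = fun n f => if n ∈ Co G (2 ^ M) then 0 else XX P j0 g0 Φ f n := ⟨_, rfl⟩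
  obtain ⟨Bm, hBm⟩ : ∃ Bm : ℕ → ℝ, Bm = fun m => (2 ^ m / K) ^ (1 / 2 + 3 * ε / 4) := ⟨_, rfl⟩
  have hB0 : ∀ m, 0 < Bm m := fun m => by rw [hBm]; positivity
  obtain ⟨C, hC⟩ : ∃ C : ℝ, C = ((CG dd D : ℝ) + 1) * (L ^ e' / K) := ⟨_, rfl⟩
  have hC0 : 0 ≤ C := by rw [hC]; positivity
  have hmax : ∀ m ∈ Ico M0 (M + 1), (((Om dd H).filter (fun f => ∃ x : ℕ, x ≤ 2 ^ m ∧ (m + 1) * Bm m < |∑ n ∈ Icc 1 x, a n f|)).card : ℝ) ≤
      NN dd H * (L ^ e' * (L ^ e' * L ^ e') / Y ^ (3 * ε / 2)) := by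
    intro m hm
    rw [mem_Ico] at hm
    have h4 := maximal (Om dd H) a 1 m le_rfl (NN dd H) C (Bm m) (NN_pos dd H).le hC0 (hB0 m) (by
      intro u v huv hv
      have hvM : v ≤ 2 ^ M := hv.trans (Nat.pow_le_pow_right (by norm_num) (by omega))
      have h5 := h0 H hm0 P G G' hG hS hGG j0 g0 hg0 Φ hΦ (2 ^ M) (by push_cast; rw [← hLd]; exact hMA)
        ((Ioc u v).filter (fun n => n ∉ Co G (2 ^ M))) (fun n hn => by
          rw [mem_filter, mem_Ioc] at hn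
          rw [mem_sdiff, mem_Icc]
          exact ⟨⟨by omega, by omega⟩, hn.2⟩)
      rw [← hLd, ← hK, ← hC] at h5
      have e1 : ∀ f : (j : Fin r) → (Fin (dd j + 1) → ℤ), ∑ n ∈ Ioc u v, a n f =
          ∑ n ∈ (Ioc u v).filter (fun n => n ∉ Co G (2 ^ M)), XX P j0 g0 Φ f n := by
        intro f
        rw [sum_filter, ha]
        refine sum_congr rfl fun n _ => ?_
        by_cases h : n ∈ Co G (2 ^ M)
        · simp [h]
        · simp [h]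
      simp only [e1, mul_one, pow_one]
      refine h5.trans ?_
      apply mul_le_mul_of_nonneg_left _ (NN_pos dd H).le
      apply mul_le_mul_of_nonneg_left _ hC0
      have h6 := card_filter_le (Ioc u v) (fun n => n ∉ Co G (2 ^ M))
      rw [Nat.card_Ioc] at h6
      have h7 : (((Ioc u v).filter (fun n => n ∉ Co G (2 ^ M))).card : ℝ) ≤ ((v - u : ℕ) : ℝ) := by exact_mod_cast h6
      rw [Nat.cast_sub huv] at h7
      exact h7)
    refine h4.trans ?_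
    apply mul_le_mul_of_nonneg_left _ (NN_pos dd H).le
    rw [pow_one, mul_one]
    obtain ⟨y, hy⟩ : ∃ y : ℝ, y = 2 ^ m / K := ⟨_, rfl⟩
    have hy0 : 0 < y := by rw [hy]; positivity
    have hYy : Y ≤ y := by
      rw [hY, hy]
      apply div_le_div_of_nonneg_right _ hK0.le
      exact hM0x.le.trans (pow_le_pow_right₀ (by norm_num) (by omega))
    have hB2 : Bm m ^ 2 = y * y ^ (3 * ε / 2) := by
      rw [hBm]
      simp only
      rw [← hy, ← Real.rpow_natCast, ← Real.rpow_mul hy0.le]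
      nth_rewrite 2 [← Real.rpow_one y]
      rw [← Real.rpow_add hy0]
      congr 1
      push_cast
      ring
    have e2 : C * 2 ^ m = ((CG dd D : ℝ) + 1) * L ^ e' * y := by
      rw [hC, hy]; ring
    rw [hB2, e2]
    have hm1 : (m : ℝ) + 1 ≤ L ^ e' := by
      have : (m : ℝ) ≤ M := by exact_mod_cast (by omega : m ≤ M)
      linarith
    calc ((m : ℝ) + 1) * (((CG dd D : ℝ) + 1) * L ^ e' * y) / (y * y ^ (3 * ε / 2))
        = ((m : ℝ) + 1) * (((CG dd D : ℝ) + 1) * L ^ e') / y ^ (3 * ε / 2) := by field_simp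
      _ ≤ L ^ e' * (L ^ e' * L ^ e') / Y ^ (3 * ε / 2) := by gcongr
  -- the inclusion
  have hsub : (Om dd H).filter (fun f => ¬ ∀ x : ℕ, x0 ≤ x → (x : ℝ) ≤ L ^ A →
      |∑ n ∈ Icc 1 x, XX P j0 g0 Φ f n| ≤ ((x : ℝ) / K) ^ (1 / 2 + ε)) ⊆
      (Ico M0 (M + 1)).biUnion (fun m => (Om dd H).filter (fun f => ∃ x : ℕ, x ≤ 2 ^ m ∧ (m + 1) * Bm m < |∑ n ∈ Icc 1 x, a n f|)) := by
    intro f hf
    rw [mem_filter] at hf
    obtain ⟨hfO, hf⟩ := hf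
    by_contra hcon
    apply hf
    intro x hx1 hx2
    have hxr : 1 ≤ (x : ℝ) := hx01.trans hx1
    have hx0' : x ≠ 0 := by
      intro h
      rw [h] at hxr
      norm_num at hxr
    obtain ⟨m, hm⟩ : ∃ m, m = Nat.log 2 x + 1 := ⟨_, rfl⟩
    have hxm : x < 2 ^ m := by rw [hm]; exact Nat.lt_pow_succ_log_self (by norm_num) _
    have hxm2 : 2 ^ Nat.log 2 x ≤ x := Nat.pow_log_le_self 2 hx0'
    have hm1 : M0 ≤ m := by
      rw [hm, hM0]
      apply Nat.succ_le_succ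
      apply Nat.log_mono_right
      exact_mod_cast (Nat.floor_le hx0p.le).trans hx1
    have hm2 : m ≤ M := by
      rw [hm, hM]
      apply Nat.succ_le_succ
      apply Nat.log_mono_right
      exact Nat.le_floor hx2
    have h4 : |∑ n ∈ Icc 1 x, a n f| ≤ (m + 1) * Bm m := by
      by_contra hcon2
      apply hcon
      rw [mem_biUnion]
      refine ⟨m, by rw [mem_Ico]; omega, ?_⟩
      rw [mem_filter]
      exact ⟨hfO, x, hxm.le, not_le.1 hcon2⟩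
    have h5 : |∑ n ∈ Icc 1 x, XX P j0 g0 Φ f n - ∑ n ∈ Icc 1 x, a n f| ≤ CG dd D := by
      rw [← sum_sub_distrib]
      have h6 : ∀ n ∈ Icc 1 x, |XX P j0 g0 Φ f n - a n f| ≤ if n ∈ Co G (2 ^ M) then 1 else 0 := by
        intro n _
        rw [ha]
        simp only
        split_ifs with h
        · rw [sub_zero]
          exact XX_abs hΦ P f n
        · rw [sub_self, abs_zero]
      refine (abs_sum_le_sum_abs _ _).trans ((sum_le_sum h6).trans ?_)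
      rw [← sum_filter, sum_const, nsmul_eq_mul, mul_one]
      have h7 : (Icc 1 x).filter (fun n => n ∈ Co G (2 ^ M)) ⊆ Co G (2 ^ M) := fun n hn => (mem_filter.1 hn).2
      exact_mod_cast (card_le_card h7).trans (card_Co hG (2 ^ M))
    have h6 : |∑ n ∈ Icc 1 x, XX P j0 g0 Φ f n| ≤ (m + 1) * Bm m + CG dd D := by
      have := abs_sub_abs_le_abs_sub (∑ n ∈ Icc 1 x, XX P j0 g0 Φ f n) (∑ n ∈ Icc 1 x, a n f)
      linarith
    refine h6.trans ?_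
    obtain ⟨y, hy⟩ : ∃ y : ℝ, y = x / K := ⟨_, rfl⟩
    rw [← hy]
    have hYy : Y ≤ y := by
      rw [hY, hy]
      exact div_le_div_of_nonneg_right hx1 hK0.le
    have hy0 : 0 < y := by linarith
    have hy1 : 1 ≤ y := by linarith
    have h2m : (2 : ℝ) ^ m / K ≤ 2 * y := by
      have h7 : (((2 ^ Nat.log 2 x : ℕ)) : ℝ) ≤ x := by exact_mod_cast hxm2
      push_cast at h7
      rw [hm, pow_succ, hy, mul_div_assoc', div_le_div_iff_of_pos_right hK0]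
      linarith
    have hBmy : Bm m ≤ 4 * y ^ (1 / 2 + 3 * ε / 4) := by
      rw [hBm]
      simp only
      calc ((2 : ℝ) ^ m / K) ^ (1 / 2 + 3 * ε / 4) ≤ (2 * y) ^ (1 / 2 + 3 * ε / 4) :=
            Real.rpow_le_rpow (by positivity) h2m (by positivity)
        _ = 2 ^ (1 / 2 + 3 * ε / 4) * y ^ (1 / 2 + 3 * ε / 4) := Real.mul_rpow (by norm_num) hy0.le
        _ ≤ 4 * y ^ (1 / 2 + 3 * ε / 4) := by
            apply mul_le_mul_of_nonneg_right _ (by positivity)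
            calc (2 : ℝ) ^ (1 / 2 + 3 * ε / 4) ≤ 2 ^ (2 : ℝ) := Real.rpow_le_rpow_of_exponent_le (by norm_num) (by linarith)
              _ = 4 := by norm_num
    have hm3 : (m : ℝ) + 1 ≤ L ^ e' := by
      have : (m : ℝ) ≤ M := by exact_mod_cast hm2
      linarith
    obtain ⟨s, hs⟩ : ∃ s : ℝ, s = y ^ (1 / 2 + 3 * ε / 4) := ⟨_, rfl⟩
    have hs1 : 1 ≤ s := by rw [hs]; exact Real.one_le_rpow hy1 (by positivity)
    have e5 : y ^ (1 / 2 + ε) = s * y ^ (ε / 4) := by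
      rw [hs, ← Real.rpow_add hy0]
      congr 1
      ring
    have h8 : L ^ e' * L ^ e' ≤ y ^ (ε / 4) := by
      calc L ^ e' * L ^ e' = (L ^ ε) ^ (ε / 4) := by
            rw [← Real.rpow_add hL0, ← Real.rpow_mul hL0.le]
            congr 1
            rw [he']
            ring
        _ ≤ y ^ (ε / 4) := Real.rpow_le_rpow (by positivity) (hx0K.trans hYy) (by positivity)
    rw [e5]
    rw [← hs] at hBmy
    have hCG0 : (0 : ℝ) ≤ CG dd D := Nat.cast_nonneg _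
    have hEp : 0 < L ^ e' := by linarith
    calc ((m : ℝ) + 1) * Bm m + CG dd D ≤ L ^ e' * (4 * s) + CG dd D * s := by
          apply add_le_add
          · exact mul_le_mul hm3 hBmy (hB0 m).le hEp.le
          · exact le_mul_of_one_le_right hCG0 hs1
      _ = s * (L ^ e' * 4 + CG dd D) := by ring
      _ ≤ s * y ^ (ε / 4) := by
          apply mul_le_mul_of_nonneg_left _ (by linarith)
          nlinarith
  refine le_trans (Nat.cast_le.2 ((card_le_card hsub).trans card_biUnion_le)) ?_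
  push_cast
  refine (sum_le_sum hmax).trans ?_
  rw [sum_const, nsmul_eq_mul, Nat.card_Ico]
  have hc : ((M + 1 - M0 : ℕ) : ℝ) ≤ L ^ e' := by
    have : ((M + 1 - M0 : ℕ) : ℝ) ≤ ((M + 1 : ℕ) : ℝ) := by exact_mod_cast Nat.sub_le _ _
    push_cast at this ⊢
    linarith
  have hEp : 0 < L ^ e' := by linarith
  have hYε : Y ^ (3 * ε / 2) = Y ^ ε * Y ^ (ε / 2) := by
    rw [← Real.rpow_add hY0]
    congr 1
    ring
  have h9 : L ^ e' * L ^ e' * (L ^ e' * L ^ e') ≤ Y ^ (ε / 2) := by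
    calc L ^ e' * L ^ e' * (L ^ e' * L ^ e') = (L ^ ε) ^ (ε / 2) := by
          rw [← Real.rpow_add hL0, ← Real.rpow_add hL0, ← Real.rpow_mul hL0.le]
          congr 1
          rw [he']
          ring
      _ ≤ Y ^ (ε / 2) := Real.rpow_le_rpow (by positivity) hx0K (by positivity)
  have hN := NN_pos dd H
  calc ((M + 1 - M0 : ℕ) : ℝ) * (NN dd H * (L ^ e' * (L ^ e' * L ^ e') / Y ^ (3 * ε / 2)))
      ≤ L ^ e' * (NN dd H * (L ^ e' * (L ^ e' * L ^ e') / Y ^ (3 * ε / 2))) := by gcongr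
    _ = NN dd H * ((L ^ e' * L ^ e' * (L ^ e' * L ^ e')) / (Y ^ ε * Y ^ (ε / 2))) := by rw [hYε]; ring
    _ ≤ NN dd H * (Y ^ (ε / 2) / (Y ^ ε * Y ^ (ε / 2))) := by gcongr
    _ = NN dd H / Y ^ ε := by
        have : Y ^ (ε / 2) ≠ 0 := (Real.rpow_pos_of_pos hY0 _).ne'
        field_simp

end Pool.Agent.T9h23.Li
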