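import Mathlib
import Pool.Agent.T9h23.Li.F4
import Pool.Agent.T9h23.BH.A6

/-! The quantitative Hypothesis H with prescribed values of the Liouville function. -/

set_option autoImplicit false

namespace Pool.Agent.T9h23.Li
open Finset Polynomial
open Pool.Agent.H373R2.T7
open Pool.Agent.T9h23.Cor
open Pool.Agent.T9h23.BH

lemma vals_eq {r : ℕ} {dd : Fin r → ℕ} (P : Fin r → ℤ[X]) (f : (j : Fin r) → (Fin (dd j + 1) → ℤ)) (n : ℕ) (j : Fin r) (g : ℤ[X]) :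
    ((hpol (P j) (f j)).comp g).eval (n : ℤ) = vals P f n j g := by
  rw [eval_comp, hpol_eval]
  rfl

/-- the number of `n ≤ x` with prime values for `Gp` and the signs `s` for `Gs` -/
noncomputable def pcs {r : ℕ} {dd : Fin r → ℕ} (Gp Gs : Fin r → Finset ℤ[X]) (s : Fin r → ℤ[X] → ℝ) (P : Fin r → ℤ[X])
    (f : (j : Fin r) → (Fin (dd j + 1) → ℤ)) (x : ℕ) : ℕ :=
  open Classical in ((Icc 1 x).filter (fun n : ℕ => (∀ j, ∀ g ∈ Gp j, (((hpol (P j) (f j)).comp g).eval (n : ℤ)).natAbs.Prime) ∧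
    ∀ j, ∀ g ∈ Gs j, lam (((hpol (P j) (f j)).comp g).eval (n : ℤ)) = s j g)).card

/-- the indices of the signs -/
noncomputable def QQs {r : ℕ} (Gs : Fin r → Finset ℤ[X]) : Finset (Σ _ : Fin r, ℤ[X]) := (univ : Finset (Fin r)).sigma Gs

lemma card_QQs {r : ℕ} (Gs : Fin r → Finset ℤ[X]) : (QQs Gs).card = kk Gs := by
  unfold QQs kk
  rw [card_sigma]

open Classical in
/-- indicator function of the primes in the table -/
noncomputable def ip {r : ℕ} (Gp : Fin r → Finset ℤ[X]) (v : Fin r → ℤ[X] → ℤ) : ℝ :=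
  if ∀ j, ∀ g ∈ Gp j, (v j g).natAbs.Prime then 1 else 0

lemma ip_abs {r : ℕ} (Gp : Fin r → Finset ℤ[X]) (v : Fin r → ℤ[X] → ℤ) : |ip Gp v| ≤ 1 := by
  unfold ip
  split_ifs <;> simp

/-- the function of the other values -/
noncomputable def PhiS {r : ℕ} (Gp : Fin r → Finset ℤ[X]) (s : Fin r → ℤ[X] → ℝ) (S : Finset (Σ _ : Fin r, ℤ[X]))
    (q0 : Σ _ : Fin r, ℤ[X]) (_n : ℕ) (v : Fin r → ℤ[X] → ℤ) : ℝ :=
  open Classical in ip Gp v * (s q0.1 q0.2 * ∏ q ∈ S.erase q0, (s q.1 q.2 * lam (v q.1 q.2)))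

lemma s_abs {a : ℝ} (h : a = 1 ∨ a = -1) : |a| = 1 := by
  rcases h with h | h <;> rw [h] <;> simp

lemma PhiS_ok {r : ℕ} (Gp Gs : Fin r → Finset ℤ[X]) (hd : ∀ j, Disjoint (Gp j) (Gs j)) (s : Fin r → ℤ[X] → ℝ)
    (hs : ∀ j g, s j g = 1 ∨ s j g = -1) (S : Finset (Σ _ : Fin r, ℤ[X])) (hS : S ⊆ QQs Gs) (q0 : Σ _ : Fin r, ℤ[X]) (hq0 : q0 ∈ S) :
    PhiOK (fun j => Gp j ∪ Gs j) Gp q0.1 q0.2 (PhiS Gp s S q0) := by
  classical
  have hmem : ∀ q ∈ S, q.2 ∈ Gs q.1 := fun q hq => (mem_sigma.1 (hS hq)).2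
  refine ⟨fun n v => ?_, fun n v v' h => ?_, fun n v h => ?_⟩
  · unfold PhiS
    rw [abs_mul, abs_mul, s_abs (hs _ _), one_mul, abs_prod]
    apply mul_le_one₀ (ip_abs _ _) (prod_nonneg fun _ _ => abs_nonneg _)
    apply prod_le_one (fun _ _ => abs_nonneg _)
    intro q _
    rw [abs_mul, s_abs (hs _ _), one_mul]
    exact lam_abs _
  · have e1 : ip Gp v = ip Gp v' := by
      unfold ip
      have h1 : ∀ j, ∀ g ∈ Gp j, v j g = v' j g := by
        intro j g hg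
        apply h j g (mem_union_left _ hg)
        rintro ⟨hj, hgg⟩
        subst hj
        rw [hgg] at hg
        exact disjoint_left.1 (hd _) hg (hmem q0 hq0)
      congr 1
      apply propext
      constructor
      · intro h2 j g hg
        rw [← h1 j g hg]
        exact h2 j g hg
      · intro h2 j g hg
        rw [h1 j g hg]
        exact h2 j g hg
    have e2 : ∏ q ∈ S.erase q0, (s q.1 q.2 * lam (v q.1 q.2)) = ∏ q ∈ S.erase q0, (s q.1 q.2 * lam (v' q.1 q.2)) := by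
      refine prod_congr rfl fun q hq => ?_
      rw [mem_erase] at hq
      have h1 : v q.1 q.2 = v' q.1 q.2 := by
        apply h q.1 q.2 (mem_union_right _ (hmem q hq.2))
        rintro ⟨hj, hgg⟩
        apply hq.1
        exact Sigma.ext hj (heq_of_eq hgg)
      rw [h1]
    unfold PhiS
    rw [e1, e2]
  · unfold PhiS at h
    by_contra hcon
    apply h
    have : ip Gp v = 0 := by
      unfold ip
      rw [if_neg hcon]
    rw [this, zero_mul]

lemma XX_PhiS {r : ℕ} {dd : Fin r → ℕ} (P : Fin r → ℤ[X]) (f : (j : Fin r) → (Fin (dd j + 1) → ℤ)) (Gp : Fin r → Finset ℤ[X])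
    (s : Fin r → ℤ[X] → ℝ) (S : Finset (Σ _ : Fin r, ℤ[X])) (q0 : Σ _ : Fin r, ℤ[X]) (hq0 : q0 ∈ S) (n : ℕ) :
    XX P q0.1 q0.2 (PhiS Gp s S q0) f n = ip Gp (vals P f n) * ∏ q ∈ S, (s q.1 q.2 * lam (vals P f n q.1 q.2)) := by
  classical
  unfold XX PhiS
  rw [← mul_prod_erase S _ hq0]
  ring

/-- the sums over subsets -/
noncomputable def WS {r : ℕ} {dd : Fin r → ℕ} (P : Fin r → ℤ[X]) (f : (j : Fin r) → (Fin (dd j + 1) → ℤ)) (Gp : Fin r → Finset ℤ[X])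
    (s : Fin r → ℤ[X] → ℝ) (S : Finset (Σ _ : Fin r, ℤ[X])) (x : ℕ) : ℝ :=
  ∑ n ∈ Icc 1 x, ip Gp (vals P f n) * ∏ q ∈ S, (s q.1 q.2 * lam (vals P f n q.1 q.2))

lemma WS_empty {r : ℕ} {dd : Fin r → ℕ} (P : Fin r → ℤ[X]) (f : (j : Fin r) → (Fin (dd j + 1) → ℤ)) (Gp : Fin r → Finset ℤ[X])
    (s : Fin r → ℤ[X] → ℝ) (x : ℕ) : WS P f Gp s ∅ x = pc Gp P f x := by
  classical
  unfold WS pc
  simp only [prod_empty, mul_one, ip]
  rw [card_filter]
  push_cast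
  refine sum_congr rfl fun n _ => ?_
  simp only [vals_eq]

lemma pcs_eq {r : ℕ} {dd : Fin r → ℕ} (P : Fin r → ℤ[X]) (f : (j : Fin r) → (Fin (dd j + 1) → ℤ)) (Gp Gs : Fin r → Finset ℤ[X])
    (s : Fin r → ℤ[X] → ℝ) (hs : ∀ j g, s j g = 1 ∨ s j g = -1) (x : ℕ)
    (hne : ∀ n ∈ Icc 1 x, ∀ j, ∀ g ∈ Gs j, vals P f n j g ≠ 0) :
    (pcs Gp Gs s P f x : ℝ) = (1 / 2) ^ kk Gs * ∑ S ∈ (QQs Gs).powerset, WS P f Gp s S x := by
  classical
  have h1 : (pcs Gp Gs s P f x : ℝ) = ∑ n ∈ Icc 1 x, ip Gp (vals P f n) * ∏ q ∈ QQs Gs, ((1 / 2) * (1 + s q.1 q.2 * lam (vals P f n q.1 q.2))) := by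
    unfold pcs
    rw [card_filter]
    push_cast
    refine sum_congr rfl fun n hn => ?_
    simp only [vals_eq]
    unfold ip
    by_cases hp : ∀ j, ∀ g ∈ Gp j, (vals P f n j g).natAbs.Prime
    · rw [if_pos hp, one_mul]
      by_cases hsg : ∀ j, ∀ g ∈ Gs j, lam (vals P f n j g) = s j g
      · rw [if_pos ⟨hp, hsg⟩, eq_comm]
        apply prod_eq_one
        intro q hq
        rw [hsg q.1 q.2 (mem_sigma.1 hq).2]
        rcases hs q.1 q.2 with h | h <;> rw [h] <;> norm_num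
      · rw [if_neg (fun h => hsg h.2), eq_comm]
        push Not at hsg
        obtain ⟨j, g, hg, h⟩ := hsg
        apply prod_eq_zero (i := ⟨j, g⟩)
        · exact mem_sigma.2 ⟨mem_univ _, hg⟩
        · simp only
          have h0 := hne n hn j g hg
          have h2 : lam (vals P f n j g) = 1 ∨ lam (vals P f n j g) = -1 := by
            unfold lam
            rw [if_neg h0]
            exact neg_one_pow_eq_or ℝ _
          rcases hs j g with h3 | h3 <;> rcases h2 with h4 | h4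
          · exact absurd (h4.trans h3.symm) h
          · rw [h3, h4]; norm_num
          · rw [h3, h4]; norm_num
          · exact absurd (h4.trans h3.symm) h
    · rw [if_neg hp, if_neg (fun h => hp h.1), zero_mul]
  rw [h1]
  have h2 : ∀ n ∈ Icc 1 x, ip Gp (vals P f n) * ∏ q ∈ QQs Gs, ((1 / 2) * (1 + s q.1 q.2 * lam (vals P f n q.1 q.2))) =
      (1 / 2) ^ kk Gs * ∑ S ∈ (QQs Gs).powerset, ip Gp (vals P f n) * ∏ q ∈ S, (s q.1 q.2 * lam (vals P f n q.1 q.2)) := by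
    intro n _
    rw [prod_mul_distrib, prod_const, card_QQs, prod_one_add, ← mul_sum]
    ring
  rw [sum_congr rfl h2, ← mul_sum, sum_comm]
  rfl

end Pool.Agent.T9h23.Li
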