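import Mathlib
import Pool.Agent.T9h23.Li.F5

/-! The quantitative Hypothesis H with prescribed values of the Liouville function: the conclusion. -/

set_option autoImplicit false

namespace Pool.Agent.T9h23.Li
open Finset Polynomial
open Pool.Agent.H373R2.T7
open Pool.Agent.T9h23.Cor
open Pool.Agent.T9h23.BH

/-- the conclusion for one system -/
def ConclS {r : ℕ} {dd : Fin r → ℕ} (H A : ℕ) (ε x0 : ℝ) (Gp Gs : Fin r → Finset ℤ[X]) (s : Fin r → ℤ[X] → ℝ) (P : Fin r → ℤ[X])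
    (f : (j : Fin r) → (Fin (dd j + 1) → ℤ)) : Prop :=
  ∀ x : ℕ, x0 ≤ x → (x : ℝ) ≤ Real.log H ^ A → ∀ z : ℕ, x0 ^ ε ≤ z → (z : ℝ) ≤ Real.log H ^ A →
    |(pcs Gp Gs s P f x : ℝ) - (1 / 2) ^ kk Gs * (CC (qq Gp P f) (kk Gp) z * (x / Real.log H ^ kk Gp))| ≤
      ε * ((1 / 2) ^ kk Gs * (CC (qq Gp P f) (kk Gp) z * (x / Real.log H ^ kk Gp))) ∧
    |∏ j, ∏ g ∈ Gp j, Real.log |((((hpol (P j) (f j)).comp g).eval (x : ℤ) : ℤ) : ℝ)| - Real.log H ^ kk Gp| ≤ ε * Real.log H ^ kk Gp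

lemma pcs_le {r : ℕ} {dd : Fin r → ℕ} (P : Fin r → ℤ[X]) (f : (j : Fin r) → (Fin (dd j + 1) → ℤ)) (Gp Gs : Fin r → Finset ℤ[X])
    (s : Fin r → ℤ[X] → ℝ) (x : ℕ) : pcs Gp Gs s P f x ≤ pc Gp P f x := by
  classical
  unfold pcs pc
  apply card_le_card
  intro n hn
  rw [mem_filter] at hn ⊢
  exact ⟨hn.1, hn.2.1⟩

lemma numS (p c W E ε ε1 h : ℝ) (hh0 : 0 < h) (hε1 : ε1 ≤ ε / 2) (hW : 0 ≤ W) (hc : |c - W| ≤ ε1 * W) (hE : E ≤ h * (ε1 * W))
    (hp : |p - h * c| ≤ E) : |p - h * W| ≤ ε * (h * W) := by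
  have h1 : |h * c - h * W| ≤ h * (ε1 * W) := by
    rw [← mul_sub, abs_mul, abs_of_pos hh0]
    exact mul_le_mul_of_nonneg_left hc hh0.le
  calc |p - h * W| ≤ |p - h * c| + |h * c - h * W| := abs_sub_le _ _ _
    _ ≤ h * (ε1 * W) + h * (ε1 * W) := add_le_add (hp.trans hE) h1
    _ = (2 * ε1) * (h * W) := by ring
    _ ≤ ε * (h * W) := by
        apply mul_le_mul_of_nonneg_right _ (by positivity)
        linarith

open Classical in
theorem finS (r : ℕ) (dd : Fin r → ℕ) (D : ℕ) (hdd : ∀ j, 1 ≤ dd j) (ε : ℝ) (hε : 0 < ε) : ∃ c : ℝ, 0 < c ∧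
    ∀ A : ℕ, ∃ H0 : ℕ, ∀ H : ℕ, H0 ≤ H →
    ∀ (P : Fin r → ℤ[X]) (Gp Gs : Fin r → Finset ℤ[X]), (∀ j, Disjoint (Gp j) (Gs j)) → GOK dd D (fun j => Gp j ∪ Gs j) →
    Small H A D P (fun j => Gp j ∪ Gs j) → ∀ s : Fin r → ℤ[X] → ℝ, (∀ j g, s j g = 1 ∨ s j g = -1) →
    ∀ x0 : ℝ, Real.log H ^ ((kk Gp : ℝ) + ε) ≤ x0 →
    (((Om dd H).filter (fun f => ¬ ConclS H A ε x0 Gp Gs s P f)).card : ℝ) ≤ NN dd H / x0 ^ c := by
  -- parameters
  obtain ⟨ε1, hε1⟩ : ∃ ε1 : ℝ, ε1 = min (ε / 2) (1 / 2) := ⟨_, rfl⟩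
  have hε10 : 0 < ε1 := by rw [hε1]; positivity
  have hε1a : ε1 ≤ ε / 2 := by rw [hε1]; exact min_le_left _ _
  have hε1b : ε1 ≤ 1 / 2 := by rw [hε1]; exact min_le_right _ _
  obtain ⟨ε2, hε2⟩ : ∃ ε2 : ℝ, ε2 = min ε (1 / 4) := ⟨_, rfl⟩
  have hε20 : 0 < ε2 := by rw [hε2]; positivity
  have hε2a : ε2 ≤ ε := by rw [hε2]; exact min_le_left _ _
  have hε2b : ε2 ≤ 1 / 4 := by rw [hε2]; exact min_le_right _ _
  obtain ⟨km, hkm⟩ : ∃ km : ℕ, km = ∑ j, dd j := ⟨_, rfl⟩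
  obtain ⟨η, hη⟩ : ∃ η : ℝ, η = ε / (km + ε) := ⟨_, rfl⟩
  have hη0 : 0 < η := by rw [hη]; positivity
  have hη1 : η ≤ 1 := by rw [hη, div_le_one (by positivity)]; linarith [(Nat.cast_nonneg km : (0 : ℝ) ≤ km)]
  obtain ⟨c1, hc1, hfin1⟩ := fin r dd D hdd ε1 hε10
  obtain ⟨c, hc⟩ : ∃ c : ℝ, c = min c1 (η * ε2) / 2 := ⟨_, rfl⟩
  have hc0 : 0 < c := by rw [hc]; positivity
  have hcc1 : 2 * c ≤ c1 := by
    rw [hc]
    have := min_le_left c1 (η * ε2)
    linarith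
  have hcc2 : 2 * c ≤ η * ε2 := by
    rw [hc]
    have := min_le_right c1 (η * ε2)
    linarith
  have hcc3 : 2 * c ≤ 1 := by nlinarith
  refine ⟨c, hc0, fun A => ?_⟩
  -- thresholds
  obtain ⟨A', m0, hpts⟩ := pts D A A
  obtain ⟨Ct, m1, htame⟩ := tame_card r dd D A A' A
  obtain ⟨m2, h2⟩ := hfin1 A
  obtain ⟨m3, h3⟩ := finH r dd D ε2 hε20 (by linarith) A
  obtain ⟨m4, h4⟩ := ev_L' 2
  obtain ⟨m5, h5⟩ := ev_rpow (2 + 2 ^ km) (ε * c) (by positivity)
  obtain ⟨κ, hκ0, hκ⟩ := Dn_lower (cdeg dd D + 1) (by omega)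
  obtain ⟨δ, hδ⟩ : ∃ δ : ℝ, δ = ε / 8 / (2 * (cdeg dd D + 1) : ℕ) := ⟨_, rfl⟩
  have hδ0 : 0 < δ := by rw [hδ]; positivity
  obtain ⟨m6, h6⟩ := Vz_small A δ hδ0
  obtain ⟨m7, h7⟩ := ev_rpow (2 ^ km / (κ * ε1)) (ε / 8) (by positivity)
  obtain ⟨m8, h8⟩ := ev_log' Ct 1
  refine ⟨max (max (max m0 m1) (max m2 m3)) (max (max (max m4 m5) (max m6 m7)) (max m8 1)), fun H hH P Gp Gs hdis hG hS s hs x0 hx0 => ?_⟩
  have hm0 : m0 ≤ H := (((le_max_left _ _).trans (le_max_left _ _)).trans (le_max_left _ _)).trans hH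
  have hm1 : m1 ≤ H := (((le_max_right _ _).trans (le_max_left _ _)).trans (le_max_left _ _)).trans hH
  have hm2 : m2 ≤ H := (((le_max_left _ _).trans (le_max_right _ _)).trans (le_max_left _ _)).trans hH
  have hm3 : m3 ≤ H := (((le_max_right _ _).trans (le_max_right _ _)).trans (le_max_left _ _)).trans hH
  have hm4 : m4 ≤ H := ((((le_max_left _ _).trans (le_max_left _ _)).trans (le_max_left _ _)).trans (le_max_right _ _)).trans hH
  have hm5 : m5 ≤ H := ((((le_max_right _ _).trans (le_max_left _ _)).trans (le_max_left _ _)).trans (le_max_right _ _)).trans hH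
  have hm6 : m6 ≤ H := ((((le_max_left _ _).trans (le_max_right _ _)).trans (le_max_left _ _)).trans (le_max_right _ _)).trans hH
  have hm7 : m7 ≤ H := ((((le_max_right _ _).trans (le_max_right _ _)).trans (le_max_left _ _)).trans (le_max_right _ _)).trans hH
  have hm8 : m8 ≤ H := (((le_max_left _ _).trans (le_max_right _ _)).trans (le_max_right _ _)).trans hH
  have hH1 : 1 ≤ H := (((le_max_right _ _).trans (le_max_right _ _)).trans (le_max_right _ _)).trans hH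
  have hL2 := h4 H hm4
  have a5 := h5 H hm5
  have a7 := h7 H hm7
  have a8 := h8 H hm8
  obtain ⟨L, hLd⟩ : ∃ L, L = Real.log H := ⟨_, rfl⟩
  rw [← hLd] at hL2 a5 a7 a8 hx0
  have hL0 : 0 < L := by linarith
  have hL1 : 1 ≤ L := by linarith
  have hH0 : (0 : ℝ) < H := by exact_mod_cast hH1
  have hNp := NN_pos dd H
  have hx01 : 1 ≤ x0 := (Real.one_le_rpow hL1 (by positivity)).trans hx0
  have hx0p : 0 < x0 := by linarith
  -- the case of a large `x0`
  rcases lt_or_ge (L ^ A) x0 with hbig | hbig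
  · have hemp : (Om dd H).filter (fun f => ¬ ConclS H A ε x0 Gp Gs s P f) = ∅ := by
      apply filter_eq_empty_iff.2
      intro f _ hf
      apply hf
      intro x hx1 hx2
      rw [← hLd] at hx2
      linarith
    rw [hemp, card_empty, Nat.cast_zero]
    positivity
  have hGp : GOK dd D Gp := ⟨fun j => (card_le_card subset_union_left).trans (hG.card j), fun j g hg => hG.deg j g (mem_union_left _ hg)⟩
  have hSp : Small H A D P Gp := ⟨hS.degP, hS.coefP, fun j g hg => hS.coefG j g (mem_union_left _ hg)⟩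
  have hkp : kk Gp ≤ km := by
    rw [hkm]
    exact sum_le_sum fun j _ => hGp.card j
  have hks : kk Gs ≤ km := by
    rw [hkm]
    exact sum_le_sum fun j _ => (card_le_card subset_union_right).trans (hG.card j)
  obtain ⟨K, hK⟩ : ∃ K, K = L ^ kk Gp := ⟨_, rfl⟩
  have hK0 : 0 < K := by rw [hK]; positivity
  have hK1 : 1 ≤ K := by rw [hK]; exact one_le_pow₀ hL1
  -- `x0 / K` is large
  have hY : x0 ^ η ≤ x0 / K := by
    rw [le_div_iff₀ hK0]
    have g1 : K ≤ x0 ^ ((kk Gp : ℝ) / (kk Gp + ε)) := by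
      calc K = (L ^ ((kk Gp : ℝ) + ε)) ^ ((kk Gp : ℝ) / (kk Gp + ε)) := by
            rw [← Real.rpow_mul hL0.le, hK, ← Real.rpow_natCast]
            congr 1
            have : (kk Gp : ℝ) + ε ≠ 0 := by positivity
            field_simp
        _ ≤ _ := Real.rpow_le_rpow (by positivity) hx0 (by positivity)
    have g2 : η + (kk Gp : ℝ) / (kk Gp + ε) ≤ 1 := by
      have g3 : (kk Gp : ℝ) / (kk Gp + ε) = 1 - ε / (kk Gp + ε) := by
        have : (kk Gp : ℝ) + ε ≠ 0 := by positivity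
        field_simp
        ring
      have g4 : η ≤ ε / (kk Gp + ε) := by
        rw [hη]
        have : (kk Gp : ℝ) ≤ km := by exact_mod_cast hkp
        gcongr
      linarith
    calc x0 ^ η * K ≤ x0 ^ η * x0 ^ ((kk Gp : ℝ) / (kk Gp + ε)) := by gcongr
      _ = x0 ^ (η + (kk Gp : ℝ) / (kk Gp + ε)) := (Real.rpow_add hx0p _ _).symm
      _ ≤ x0 ^ (1 : ℝ) := Real.rpow_le_rpow_of_exponent_le hx01 g2
      _ = x0 := Real.rpow_one _
  -- the points
  obtain ⟨T0, hT0, hT1⟩ := hpts H hm0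
  obtain ⟨hPv, hpt⟩ := hT1 r dd P (fun j => Gp j ∪ Gs j) hG hS
  -- the choice of an index in each nonempty subset
  have hWbad : ∀ S ∈ (QQs Gs).powerset.erase ∅, (((Om dd H).filter (fun f => ¬ ∀ x : ℕ, x0 ≤ x → (x : ℝ) ≤ L ^ A →
      |WS P f Gp s S x| ≤ ((x : ℝ) / K) ^ (1 / 2 + ε2))).card : ℝ) ≤ NN dd H / x0 ^ (2 * c) := by
    intro S hSm
    rw [mem_erase, mem_powerset] at hSm
    obtain ⟨q0, hq0⟩ := nonempty_iff_ne_empty.2 hSm.1
    have g1 := h3 H hm3 P (fun j => Gp j ∪ Gs j) Gp hG hS (fun j => subset_union_left) q0.1 q0.2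
      (mem_union_right _ (mem_sigma.1 (hSm.2 hq0)).2) (PhiS Gp s S q0) (PhiS_ok Gp Gs hdis s hs S hSm.2 q0 hq0) x0
      (by
        rw [← hLd]
        exact (Real.rpow_le_rpow_of_exponent_le hL1 (by linarith)).trans hx0)
    rw [← hLd, ← hK] at g1
    have g2 : ∀ f : (j : Fin r) → (Fin (dd j + 1) → ℤ), ∀ x : ℕ, WS P f Gp s S x = ∑ n ∈ Icc 1 x, XX P q0.1 q0.2 (PhiS Gp s S q0) f n := by
      intro f x
      unfold WS
      refine sum_congr rfl fun n _ => ?_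
      rw [XX_PhiS P f Gp s S q0 hq0 n]
    simp only [g2]
    refine g1.trans ?_
    apply div_le_div_of_nonneg_left hNp.le (by positivity)
    calc x0 ^ (2 * c) ≤ x0 ^ (η * ε2) := Real.rpow_le_rpow_of_exponent_le hx01 hcc2
      _ = (x0 ^ η) ^ ε2 := Real.rpow_mul hx0p.le _ _
      _ ≤ (x0 / K) ^ ε2 := Real.rpow_le_rpow (by positivity) hY hε20.le
  -- the inclusion
  have hsub : (Om dd H).filter (fun f => ¬ ConclS H A ε x0 Gp Gs s P f) ⊆
      ((Om dd H).filter (fun f => ¬ Tame H A' Ct P f) ∪ (Om dd H).filter (fun f => ¬ Concl H A ε1 x0 Gp P f)) ∪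
      ((QQs Gs).powerset.erase ∅).biUnion (fun S => (Om dd H).filter (fun f => ¬ ∀ x : ℕ, x0 ≤ x → (x : ℝ) ≤ L ^ A →
      |WS P f Gp s S x| ≤ ((x : ℝ) / K) ^ (1 / 2 + ε2))) := by
    intro f hf
    rw [mem_filter] at hf
    obtain ⟨hfO, hf⟩ := hf
    by_contra hcon
    rw [mem_union, mem_union, not_or, not_or, mem_filter, mem_filter, mem_biUnion] at hcon
    obtain ⟨⟨hb1, hb2⟩, hb3⟩ := hcon
    have htm : Tame H A' Ct P f := by
      by_contra h
      exact hb1 ⟨hfO, h⟩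
    have hcl : Concl H A ε1 x0 Gp P f := by
      by_contra h
      exact hb2 ⟨hfO, h⟩
    have hW : ∀ S ∈ (QQs Gs).powerset.erase ∅, ∀ x : ℕ, x0 ≤ x → (x : ℝ) ≤ L ^ A → |WS P f Gp s S x| ≤ ((x : ℝ) / K) ^ (1 / 2 + ε2) := by
      intro S hSm
      by_contra h
      exact hb3 ⟨S, hSm, by rw [mem_filter]; exact ⟨hfO, h⟩⟩
    apply hf
    intro x hx1 hx2 z hz1 hz2
    have hz1' : x0 ^ ε1 ≤ z := (Real.rpow_le_rpow_of_exponent_le hx01 (by linarith)).trans hz1
    obtain ⟨hcl1, hcl2⟩ := hcl x hx1 hx2 z hz1' hz2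
    rw [← hLd] at hx2 hz2 hcl1 hcl2 ⊢
    rw [← hK] at hcl1 hcl2 ⊢
    refine ⟨?_, hcl2.trans (by gcongr; linarith)⟩
    have hxr : 1 ≤ (x : ℝ) := hx01.trans hx1
    have hz1r : (1 : ℝ) ≤ z := (Real.one_le_rpow hx01 hε.le).trans hz1
    have hz1n : 1 ≤ z := by exact_mod_cast hz1r
    -- nonvanishing
    have hne : ∀ n ∈ Icc 1 x, ∀ j, ∀ g ∈ Gs j, vals P f n j g ≠ 0 := by
      intro n hn j g hg h0
      have hnx : (n : ℝ) ≤ Real.log H ^ A := by
        have : (n : ℝ) ≤ x := by exact_mod_cast (mem_Icc.1 hn).2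
        rw [← hLd]
        linarith
      have ht := hpt n hnx j (g.eval (n : ℤ)) (mem_image_of_mem (fun g : ℤ[X] => g.eval (n : ℤ)) (mem_union_right _ hg))
      have ht' : |((g.eval (n : ℤ) : ℤ) : ℝ)| ≤ Real.log H ^ A' := by
        have : ((|g.eval (n : ℤ)| : ℤ) : ℝ) ≤ ((T0 : ℤ) : ℝ) := by exact_mod_cast ht
        push_cast at this
        exact this.trans hT0
      have g1 := (htm j (g.eval (n : ℤ)) ht').1
      unfold vals at h0
      rw [h0] at g1
      simp only [Int.cast_zero, abs_zero] at g1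
      have g2 : 0 < (H : ℝ) / Real.log H ^ Ct := by
        rw [← hLd]
        positivity
      linarith
    have e1 := pcs_eq P f Gp Gs s hs x hne
    obtain ⟨h, hh⟩ : ∃ h : ℝ, h = (1 / 2) ^ kk Gs := ⟨_, rfl⟩
    have hh0 : 0 < h := by rw [hh]; positivity
    rw [← hh] at e1 ⊢
    have e2 : ∑ S ∈ (QQs Gs).powerset, WS P f Gp s S x = pc Gp P f x + ∑ S ∈ (QQs Gs).powerset.erase ∅, WS P f Gp s S x := by
      rw [← add_sum_erase _ _ (empty_mem_powerset (QQs Gs)), WS_empty]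
    obtain ⟨u, hu⟩ : ∃ u : ℝ, u = x / K := ⟨_, rfl⟩
    have hu0 : 0 < u := by rw [hu]; positivity
    have huL : L ^ ε ≤ u := by
      rw [hu, le_div_iff₀ hK0, hK, ← Real.rpow_natCast, ← Real.rpow_add hL0, add_comm]
      exact hx0.trans hx1
    have hu1 : 1 ≤ u := (Real.one_le_rpow hL1 hε.le).trans huL
    obtain ⟨C0, hC0⟩ : ∃ C0 : ℝ, C0 = CC (qq Gp P f) (kk Gp) z := ⟨_, rfl⟩
    have hC00 : 0 ≤ C0 := by rw [hC0]; exact CC_nonneg _ _ _
    rw [← hu, ← hC0] at hcl1 ⊢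
    have hW0 : 0 ≤ C0 * u := by positivity
    rcases hC00.eq_or_lt with hz | hz
    · rw [← hz, zero_mul, mul_zero, sub_zero] at hcl1
      rw [← hz, zero_mul, mul_zero, mul_zero, sub_zero]
      have g1 : (pc Gp P f x : ℝ) = 0 := abs_eq_zero.1 (le_antisymm (by simpa using hcl1) (abs_nonneg _))
      have g2 : (pcs Gp Gs s P f x : ℝ) ≤ pc Gp P f x := by exact_mod_cast pcs_le P f Gp Gs s x
      have g3 : (0 : ℝ) ≤ pcs Gp Gs s P f x := Nat.cast_nonneg _
      have g4 : (pcs Gp Gs s P f x : ℝ) = 0 := by linarith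
      rw [g4]
      simp
    · apply numS (pcs Gp Gs s P f x) (pc Gp P f x) (C0 * u) (h * (2 ^ km * u ^ (1 / 2 + ε2))) ε ε1 h hh0 hε1a hW0 hcl1
      · apply mul_le_mul_of_nonneg_left _ hh0.le
        -- lower bound of the constant
        have hDn : Dn (qq Gp P f) z ≠ 0 := by
          intro h0
          apply hz.ne'
          rw [hC0]
          unfold Pool.Agent.T9h23.BH.CC
          rw [h0, zero_mul]
        have g1 := hκ (qq Gp P f) ((qq_deg hGp P hS.degP f).trans (by omega)) z hDn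
        have hV0 := Vz_pos z
        have g2 : Dn (qq Gp P f) z ≤ C0 := by
          rw [hC0]
          unfold Pool.Agent.T9h23.BH.CC
          apply le_mul_of_one_le_right (Dn_nonneg _ _)
          apply one_le_pow₀
          exact (one_le_inv₀ hV0).2 (Vz_le_one z)
        have g3 : L ^ (-(ε / 8)) ≤ Vz z ^ (2 * (cdeg dd D + 1)) := by
          have g4 := h6 H hm6 z hz1n (by rw [← hLd]; exact hz2)
          rw [← hLd] at g4
          have g5 : L ^ (-δ) ≤ Vz z := by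
            rw [Real.rpow_neg hL0.le]
            exact inv_le_of_inv_le₀ hV0 g4
          calc L ^ (-(ε / 8)) = (L ^ (-δ)) ^ (2 * (cdeg dd D + 1)) := by
                rw [← Real.rpow_natCast, ← Real.rpow_mul hL0.le]
                congr 1
                rw [hδ]
                field_simp
            _ ≤ _ := pow_le_pow_left₀ (by positivity) g5 _
        have g6 : κ * L ^ (-(ε / 8)) ≤ C0 := by
          calc κ * L ^ (-(ε / 8)) ≤ κ * Vz z ^ (2 * (cdeg dd D + 1)) := by gcongr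
            _ ≤ C0 := g1.trans g2
        have g7 : u ^ (1 / 2 + ε2) ≤ u * L ^ (-(ε / 4)) := by
          calc u ^ (1 / 2 + ε2) ≤ u ^ (1 + -(1 / 4 : ℝ)) := Real.rpow_le_rpow_of_exponent_le hu1 (by linarith)
            _ = u * u ^ (-(1 / 4 : ℝ)) := by rw [Real.rpow_add hu0, Real.rpow_one]
            _ ≤ u * L ^ (-(ε / 4)) := by
                apply mul_le_mul_of_nonneg_left _ hu0.le
                rw [Real.rpow_neg hu0.le, Real.rpow_neg hL0.le]
                apply inv_anti₀ (by positivity)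
                calc L ^ (ε / 4) = (L ^ ε) ^ (1 / 4 : ℝ) := by
                      rw [← Real.rpow_mul hL0.le]
                      congr 1
                      ring
                  _ ≤ u ^ (1 / 4 : ℝ) := Real.rpow_le_rpow (by positivity) huL (by norm_num)
        have g8 : (2 : ℝ) ^ km ≤ κ * ε1 * L ^ (ε / 8) := by
          rw [div_le_iff₀ (by positivity)] at a7
          linarith
        have g9 : L ^ (ε / 8) * L ^ (-(ε / 4)) = L ^ (-(ε / 8)) := by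
          rw [← Real.rpow_add hL0]
          congr 1
          ring
        calc (2 : ℝ) ^ km * u ^ (1 / 2 + ε2) ≤ (κ * ε1 * L ^ (ε / 8)) * (u * L ^ (-(ε / 4))) := by gcongr
          _ = ε1 * ((κ * (L ^ (ε / 8) * L ^ (-(ε / 4)))) * u) := by ring
          _ = ε1 * ((κ * L ^ (-(ε / 8))) * u) := by rw [g9]
          _ ≤ ε1 * (C0 * u) := by gcongr
      · rw [e1, e2, mul_add, add_sub_cancel_left, abs_mul, abs_of_pos hh0]
        apply mul_le_mul_of_nonneg_left _ hh0.le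
        refine (abs_sum_le_sum_abs _ _).trans ((sum_le_sum fun S hSm => hW S hSm x hx1 hx2).trans ?_)
        rw [sum_const, nsmul_eq_mul, ← hu]
        apply mul_le_mul_of_nonneg_right _ (by positivity)
        have g1 : ((QQs Gs).powerset.erase ∅).card ≤ 2 ^ km := by
          refine (card_erase_le).trans ?_
          rw [card_powerset, card_QQs]
          exact Nat.pow_le_pow_right (by norm_num) hks
        exact_mod_cast g1
  refine le_trans (Nat.cast_le.2 (card_le_card hsub)) ?_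
  have hu1 := card_union_le ((Om dd H).filter (fun f => ¬ Tame H A' Ct P f) ∪ (Om dd H).filter (fun f => ¬ Concl H A ε1 x0 Gp P f))
    (((QQs Gs).powerset.erase ∅).biUnion (fun S => (Om dd H).filter (fun f => ¬ ∀ x : ℕ, x0 ≤ x → (x : ℝ) ≤ L ^ A →
      |WS P f Gp s S x| ≤ ((x : ℝ) / K) ^ (1 / 2 + ε2))))
  have hu2 := card_union_le ((Om dd H).filter (fun f => ¬ Tame H A' Ct P f)) ((Om dd H).filter (fun f => ¬ Concl H A ε1 x0 Gp P f))
  have hu3 := card_biUnion_le (s := (QQs Gs).powerset.erase ∅) (t := fun S => (Om dd H).filter (fun f => ¬ ∀ x : ℕ, x0 ≤ x → (x : ℝ) ≤ L ^ A →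
      |WS P f Gp s S x| ≤ ((x : ℝ) / K) ^ (1 / 2 + ε2)))
  have hx2c : 0 < x0 ^ (2 * c) := by positivity
  have b1 : (((Om dd H).filter (fun f => ¬ Tame H A' Ct P f)).card : ℝ) ≤ NN dd H / x0 ^ (2 * c) := by
    refine (htame H hm1 P hS.degP hS.coefP).trans ?_
    apply div_le_div_of_nonneg_left hNp.le hx2c
    rw [← hLd]
    calc x0 ^ (2 * c) ≤ x0 ^ (1 : ℝ) := Real.rpow_le_rpow_of_exponent_le hx01 hcc3
      _ = x0 := Real.rpow_one _
      _ ≤ _ := hbig
  have b2 : (((Om dd H).filter (fun f => ¬ Concl H A ε1 x0 Gp P f)).card : ℝ) ≤ NN dd H / x0 ^ (2 * c) := by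
    refine (h2 H hm2 P Gp hGp hSp x0 ?_).trans ?_
    · rw [← hLd]
      exact (Real.rpow_le_rpow_of_exponent_le hL1 (by linarith)).trans hx0
    · apply div_le_div_of_nonneg_left hNp.le hx2c
      exact Real.rpow_le_rpow_of_exponent_le hx01 hcc1
  have b3 : ((∑ S ∈ (QQs Gs).powerset.erase ∅, ((Om dd H).filter (fun f => ¬ ∀ x : ℕ, x0 ≤ x → (x : ℝ) ≤ L ^ A →
      |WS P f Gp s S x| ≤ ((x : ℝ) / K) ^ (1 / 2 + ε2))).card : ℕ) : ℝ) ≤ 2 ^ km * (NN dd H / x0 ^ (2 * c)) := by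
    push_cast
    refine (sum_le_sum hWbad).trans ?_
    rw [sum_const, nsmul_eq_mul]
    apply mul_le_mul_of_nonneg_right _ (by positivity)
    have g1 : ((QQs Gs).powerset.erase ∅).card ≤ 2 ^ km := by
      refine (card_erase_le).trans ?_
      rw [card_powerset, card_QQs]
      exact Nat.pow_le_pow_right (by norm_num) hks
    exact_mod_cast g1
  have hx0c : 2 + 2 ^ km ≤ x0 ^ c := by
    refine a5.trans ?_
    calc L ^ (ε * c) = (L ^ ε) ^ c := Real.rpow_mul hL0.le _ _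
      _ ≤ x0 ^ c := by
          apply Real.rpow_le_rpow (by positivity) _ hc0.le
          refine le_trans ?_ hx0
          exact Real.rpow_le_rpow_of_exponent_le hL1 (by linarith [(Nat.cast_nonneg (kk Gp) : (0 : ℝ) ≤ kk Gp)])
  have htot : (((((Om dd H).filter (fun f => ¬ Tame H A' Ct P f) ∪ (Om dd H).filter (fun f => ¬ Concl H A ε1 x0 Gp P f)) ∪
      ((QQs Gs).powerset.erase ∅).biUnion (fun S => (Om dd H).filter (fun f => ¬ ∀ x : ℕ, x0 ≤ x → (x : ℝ) ≤ L ^ A →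
      |WS P f Gp s S x| ≤ ((x : ℝ) / K) ^ (1 / 2 + ε2)))).card : ℕ) : ℝ) ≤ (2 + 2 ^ km) * (NN dd H / x0 ^ (2 * c)) := by
    have g1 := Nat.cast_le (α := ℝ).2 (hu1.trans (add_le_add hu2 hu3))
    push_cast at g1 b3
    linarith
  refine htot.trans ?_
  have e3 : x0 ^ (2 * c) = x0 ^ c * x0 ^ c := by rw [← Real.rpow_add hx0p]; congr 1; ring
  rw [e3]
  have hxc0 : 0 < x0 ^ c := by positivity
  calc (2 + 2 ^ km) * (NN dd H / (x0 ^ c * x0 ^ c)) ≤ x0 ^ c * (NN dd H / (x0 ^ c * x0 ^ c)) := by gcongr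
    _ = NN dd H / x0 ^ c := by field_simp

end Pool.Agent.T9h23.Li
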